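import Pool.Agent.CSH.St
import Pool.Agent.TSH.FirstA

/-!
# CSH / Cell: one cell of the staircase (deterministic)
-/

set_option autoImplicit false

namespace Pool.Agent.CSH

open Finset Filter
open Pool.Agent.GBQ (ee)

/-- a sum over the reversed window `t = c - i` -/
theorem cell_rev {M : Type*} [AddCommMonoid M] (N c H : ℕ) (hc : H ≤ c) (hcN : c ≤ N)
    (u v : ℕ → M) (h1 : ∀ i ∈ Icc 1 H, u (c - i) = v i)
    (h0 : ∀ t ∈ range (N + 1), ¬ (t + 1 ≤ c ∧ c ≤ t + H) → u t = 0) :
    ∑ t ∈ range (N + 1), u t = ∑ i ∈ Icc 1 H, v i := by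
  rw [← Finset.sum_congr rfl h1]
  have hinj : ∀ i ∈ Icc 1 H, ∀ j ∈ Icc 1 H, c - i = c - j → i = j := by
    intro i hi j hj hij
    rw [Finset.mem_Icc] at hi hj
    omega
  rw [← Finset.sum_image (s := Icc 1 H) (g := fun i => c - i) (f := u) hinj]
  symm
  apply Finset.sum_subset
  · intro t ht
    obtain ⟨i, hi, rfl⟩ := Finset.mem_image.1 ht
    rw [Finset.mem_Icc] at hi
    rw [mem_range]
    omega
  · intro t ht htn
    refine h0 t ht fun h => htn ?_
    refine Finset.mem_image.2 ⟨c - t, ?_, ?_⟩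
    · rw [Finset.mem_Icc]
      omega
    · omega

/-- mean square of the correlations of a function on a window with a small exponential sum -/
theorem cell_corr (G F : ℕ → ℝ) (H L : ℕ) (hHL : H ≤ L) (S : ℝ)
    (hS : ∀ α : ℝ, ‖∑ i ∈ Icc 1 H, ((G i : ℝ) : ℂ) * ee (α * i)‖ ≤ S)
    (T : Finset ℕ) (hT : ∀ s ∈ T, s + H ≤ L) :
    ∑ s ∈ T, (∑ i ∈ Icc 1 H, G i * F (i + s)) ^ 2 ≤ S ^ 2 * ∑ j ∈ Icc 1 L, F j ^ 2 := by
  obtain ⟨f, hf⟩ : ∃ f : ℕ → ℝ, f = fun t => if t + 1 ≤ L ∧ L ≤ t + H then G (L - t) else 0 :=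
    ⟨_, rfl⟩
  obtain ⟨a, ha⟩ : ∃ a : ℕ → ℝ, a = fun x => if x + 1 ≤ L then F (L - x) else 0 := ⟨_, rfl⟩
  have hM : ∀ α : ℝ, ‖∑ x ∈ range (2 * L + 1), ((f x : ℝ) : ℂ) * ee (α * x)‖ ≤ S := by
    intro α
    have e1 : ∑ x ∈ range (2 * L + 1), ((f x : ℝ) : ℂ) * ee (α * x) =
        ∑ i ∈ Icc 1 H, ee (α * L) * (((G i : ℝ) : ℂ) * ee (-α * i)) := by
      apply cell_rev (2 * L) L H hHL (by omega)
      · intro i hi
        rw [Finset.mem_Icc] at hi
        have h1 : f (L - i) = G i := by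
          rw [hf]
          simp only
          rw [if_pos (by omega), show L - (L - i) = i by omega]
        rw [h1]
        have h2 : ee (α * ((L - i : ℕ) : ℝ)) = ee (α * L) * ee (-α * i) := by
          rw [← Pool.Agent.GBQ.ee_add]
          congr 1
          rw [Nat.cast_sub (by omega)]
          ring
        rw [h2]
        ring
      · intro t _ ht
        have h1 : f t = 0 := by
          rw [hf]
          simp only
          rw [if_neg ht]
        rw [h1]
        simp
    rw [e1, ← Finset.mul_sum, norm_mul]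
    have h3 : ‖ee (α * L)‖ = 1 := Pool.Agent.GBQ.ee_norm _
    rw [h3, one_mul]
    exact hS (-α)
  have h := Pool.Agent.TSH.corr_L2 a f L (2 * L) S hM T (by
    intro s hs
    have := hT s hs
    omega)
  have e2 : ∀ s ∈ T, ∑ x ∈ range (L + 1), a x * f (x + s) = ∑ i ∈ Icc 1 H, G i * F (i + s) := by
    intro s hs
    have h4 := hT s hs
    apply cell_rev L (L - s) H (by omega) (by omega)
    · intro i hi
      rw [Finset.mem_Icc] at hi
      have h1 : a (L - s - i) = F (i + s) := by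
        rw [ha]
        simp only
        rw [if_pos (by omega), show L - (L - s - i) = i + s by omega]
      have h2 : f (L - s - i + s) = G i := by
        rw [hf]
        simp only
        rw [if_pos (by omega), show L - (L - s - i + s) = i by omega]
      rw [h1, h2]
      ring
    · intro t _ ht
      have h1 : f (t + s) = 0 := by
        rw [hf]
        simp only
        rw [if_neg (by omega)]
      rw [h1, mul_zero]
  have e3 : ∑ x ∈ range (L + 1), a x ^ 2 = ∑ j ∈ Icc 1 L, F j ^ 2 := by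
    apply cell_rev L L L le_rfl le_rfl
    · intro i hi
      rw [Finset.mem_Icc] at hi
      have h1 : a (L - i) = F i := by
        rw [ha]
        simp only
        rw [if_pos (by omega), show L - (L - i) = i by omega]
      rw [h1]
    · intro t _ ht
      have h1 : a t = 0 := by
        rw [ha]
        simp only
        rw [if_neg (by omega)]
      rw [h1]
      norm_num
  rw [e3] at h
  rw [← Finset.sum_congr rfl fun s hs => congrArg (fun x => x ^ 2) (e2 s hs)]
  exact h

/-- moving a window -/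
theorem cell_shift_le (φ : ℕ → ℝ) (B : ℝ) (hφ : ∀ x, |φ x| ≤ B) (a w H : ℕ) :
    |∑ h ∈ Icc 1 H, φ (a + h) - ∑ i ∈ Icc 1 H, φ (a + w + i)| ≤ 2 * w * B := by
  have hB : 0 ≤ B := (abs_nonneg _).trans (hφ 0)
  have key : ∀ c : ℕ, ∑ h ∈ Icc 1 H, φ (c + h) = ∑ x ∈ Ioc c (c + H), φ x := by
    intro c
    rw [← Finset.sum_image (s := Icc 1 H) (g := fun i => c + i) (f := φ)
      (fun x _ y _ hxy => by have : c + x = c + y := hxy; omega)]
    congr 1
    ext x
    rw [Finset.mem_image, Finset.mem_Ioc]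
    constructor
    · rintro ⟨i, hi, rfl⟩
      rw [Finset.mem_Icc] at hi
      omega
    · rintro ⟨h1, h2⟩
      exact ⟨x - c, by rw [Finset.mem_Icc]; omega, by omega⟩
  rw [key a, key (a + w)]
  have h1 := Finset.sum_Ioc_consecutive φ (show a ≤ a + H by omega)
    (show a + H ≤ a + w + H by omega)
  have h2 := Finset.sum_Ioc_consecutive φ (show a ≤ a + w by omega)
    (show a + w ≤ a + w + H by omega)
  have hb : ∀ c d : ℕ, |∑ x ∈ Ioc c d, φ x| ≤ ((d - c : ℕ) : ℝ) * B := by
    intro c d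
    calc |∑ x ∈ Ioc c d, φ x| ≤ ∑ x ∈ Ioc c d, |φ x| := Finset.abs_sum_le_sum_abs _ _
      _ ≤ ∑ _x ∈ Ioc c d, B := Finset.sum_le_sum fun x _ => hφ x
      _ = ((d - c : ℕ) : ℝ) * B := by
          rw [Finset.sum_const, Nat.card_Ioc, nsmul_eq_mul]
  have h3 := hb a (a + w)
  have h4 := hb (a + H) (a + w + H)
  rw [show a + w - a = w by omega] at h3
  rw [show a + w + H - (a + H) = w by omega] at h4
  have h5 : ∑ x ∈ Ioc a (a + H), φ x - ∑ x ∈ Ioc (a + w) (a + w + H), φ x =
      ∑ x ∈ Ioc a (a + w), φ x - ∑ x ∈ Ioc (a + H) (a + w + H), φ x := by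
    linarith
  rw [h5]
  rw [abs_le] at h3 h4 ⊢
  constructor
  · nlinarith [h3.1, h4.2]
  · nlinarith [h3.2, h4.1]

theorem cell_shift (φ : ℕ → ℝ) (B : ℝ) (hφ : ∀ x, |φ x| ≤ B) (a a' H W : ℕ)
    (h1 : a ≤ a' + W) (h2 : a' ≤ a + W) :
    |∑ h ∈ Icc 1 H, φ (a + h) - ∑ i ∈ Icc 1 H, φ (a' + i)| ≤ 2 * W * B := by
  have hB : 0 ≤ B := (abs_nonneg _).trans (hφ 0)
  rcases le_total a a' with h | h
  · obtain ⟨w, rfl⟩ := Nat.exists_eq_add_of_le h
    refine (cell_shift_le φ B hφ a w H).trans ?_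
    have h3 : (w : ℝ) ≤ W := by
      have : w ≤ W := by omega
      exact_mod_cast this
    nlinarith
  · obtain ⟨w, rfl⟩ := Nat.exists_eq_add_of_le h
    rw [abs_sub_comm]
    refine (cell_shift_le φ B hφ a' w H).trans ?_
    have h3 : (w : ℝ) ≤ W := by
      have : w ≤ W := by omega
      exact_mod_cast this
    nlinarith

/-- one cell, general form -/
theorem cell_core (G : Finset ℕ) (H W : ℕ) (m S : ℝ) (hm : 0 ≤ m) (hS0 : 0 ≤ S) (g F : ℕ → ℝ)
    (hF : ∀ j, |F j| ≤ m)
    (hS : ∀ α : ℝ, ‖∑ i ∈ Icc 1 H, ((g i : ℝ) : ℂ) * ee (α * i)‖ ≤ S)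
    (s : ℕ → ℕ) (hs : ∀ k ∈ G, s k ≤ 4 * W) (hi : ∀ k ∈ G, ∀ k' ∈ G, s k = s k' → k = k')
    (A : ℕ → ℝ) (hA : ∀ k ∈ G, |A k - ∑ i ∈ Icc 1 H, g i * F (i + s k)| ≤ 2 * W * m ^ 2) :
    ∑ k ∈ G, |A k| ≤
      2 * W * m ^ 2 * G.card + Real.sqrt G.card * (S * (Real.sqrt (H + 4 * W) * m)) := by
  have h1 := cell_corr g F H (H + 4 * W) (by omega) S hS (G.image s) (by
    intro t ht
    obtain ⟨k, hk, rfl⟩ := Finset.mem_image.1 ht
    have := hs k hk
    omega)
  rw [Finset.sum_image (fun x hx y hy h => hi x hx y hy h)] at h1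
  have h2 : ∑ j ∈ Icc 1 (H + 4 * W), F j ^ 2 ≤ (H + 4 * W) * m ^ 2 := by
    calc ∑ j ∈ Icc 1 (H + 4 * W), F j ^ 2 ≤ ∑ _j ∈ Icc 1 (H + 4 * W), m ^ 2 := by
          apply Finset.sum_le_sum
          intro j _
          rw [← sq_abs]
          exact pow_le_pow_left₀ (abs_nonneg _) (hF j) 2
      _ = _ := by
          rw [Finset.sum_const, Nat.card_Icc, nsmul_eq_mul]
          push_cast [Nat.add_sub_cancel]
          ring
  have h3 : ∑ k ∈ G, |∑ i ∈ Icc 1 H, g i * F (i + s k)| ≤
      Real.sqrt G.card * (S * (Real.sqrt (H + 4 * W) * m)) := by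
    have h4 : (∑ k ∈ G, |∑ i ∈ Icc 1 H, g i * F (i + s k)|) ^ 2 ≤
        G.card * (S ^ 2 * ((H + 4 * W) * m ^ 2)) := by
      calc (∑ k ∈ G, |∑ i ∈ Icc 1 H, g i * F (i + s k)|) ^ 2
          ≤ G.card * ∑ k ∈ G, |∑ i ∈ Icc 1 H, g i * F (i + s k)| ^ 2 := sq_sum_le_card_mul_sum_sq
        _ = G.card * ∑ k ∈ G, (∑ i ∈ Icc 1 H, g i * F (i + s k)) ^ 2 := by
            congr 1
            exact Finset.sum_congr rfl fun k _ => sq_abs _
        _ ≤ G.card * (S ^ 2 * ((H + 4 * W) * m ^ 2)) := by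
            apply mul_le_mul_of_nonneg_left _ (Nat.cast_nonneg _)
            exact h1.trans (mul_le_mul_of_nonneg_left h2 (sq_nonneg _))
    have h5 : (Real.sqrt G.card * (S * (Real.sqrt (H + 4 * W) * m))) ^ 2 =
        G.card * (S ^ 2 * ((H + 4 * W) * m ^ 2)) := by
      rw [mul_pow, mul_pow, mul_pow, Real.sq_sqrt (by positivity), Real.sq_sqrt (by positivity)]
    rw [← h5] at h4
    exact (pow_le_pow_iff_left₀ (Finset.sum_nonneg fun k _ => abs_nonneg _) (by positivity)
      two_ne_zero).1 h4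
  calc ∑ k ∈ G, |A k| ≤ ∑ k ∈ G, (2 * W * m ^ 2 + |∑ i ∈ Icc 1 H, g i * F (i + s k)|) := by
        apply Finset.sum_le_sum
        intro k hk
        have h5 := hA k hk
        have h6 := abs_sub_abs_le_abs_sub (A k) (∑ i ∈ Icc 1 H, g i * F (i + s k))
        linarith
    _ = 2 * W * m ^ 2 * G.card + ∑ k ∈ G, |∑ i ∈ Icc 1 H, g i * F (i + s k)| := by
        rw [Finset.sum_add_distrib, Finset.sum_const, nsmul_eq_mul]
        ring
    _ ≤ _ := by linarith

theorem thm_Cell : St_Cell := by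
  intro G a b k₀ H W g f m S hk₀ _ hm hS0 hmono hab hW hg hf hS
  have hd : ∀ k ∈ G, ∀ k' ∈ G, b k - a k = b k' - a k' → k = k' := by
    intro k hk k' hk' h
    have h1 := hab k hk
    have h2 := hab k' hk'
    rcases lt_trichotomy k k' with h3 | h3 | h3
    · have := hmono k hk k' hk' h3
      omega
    · exact h3
    · have := hmono k' hk' k hk h3
      omega
  have hab0 := hab k₀ hk₀
  obtain ⟨F, hF⟩ : ∃ F : ℕ → ℝ, F = fun j => if 2 * W ≤ b k₀ + j then f (b k₀ + j - 2 * W) else 0 :=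
    ⟨_, rfl⟩
  have hFm : ∀ j, |F j| ≤ m := by
    intro j
    rw [hF]
    simp only
    split_ifs
    · exact hf _
    · rw [abs_zero]
      exact hm
  apply cell_core G H W m S hm hS0 (fun i => g (a k₀ + i)) F hFm ?_
    (fun k => a k₀ + (b k - a k) + 2 * W - b k₀) ?_ ?_ _ ?_
  · intro α
    have h1 := hS α
    have h2 : ∑ n ∈ Ioc (a k₀) (a k₀ + H), ((g n : ℝ) : ℂ) * ee (α * n) =
        ee (α * a k₀) * ∑ i ∈ Icc 1 H, ((g (a k₀ + i) : ℝ) : ℂ) * ee (α * i) := by
      rw [Finset.mul_sum]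
      symm
      apply Finset.sum_bij (fun i _ => a k₀ + i)
      · intro i hi
        rw [Finset.mem_Icc] at hi
        rw [Finset.mem_Ioc]
        omega
      · intro i _ j _ hij
        omega
      · intro x hx
        rw [Finset.mem_Ioc] at hx
        exact ⟨x - a k₀, by rw [Finset.mem_Icc]; omega, by omega⟩
      · intro i _
        have h3 : ee (α * ((a k₀ + i : ℕ) : ℝ)) = ee (α * a k₀) * ee (α * i) := by
          rw [← Pool.Agent.GBQ.ee_add]
          congr 1
          push_cast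
          ring
        rw [h3]
        ring
    rw [h2, norm_mul, Pool.Agent.GBQ.ee_norm, one_mul] at h1
    exact h1
  · intro k hk
    have h1 := hW k hk
    have h2 := hab k hk
    beta_reduce
    omega
  · intro k hk k' hk' h
    have h1 := hW k hk
    have h2 := hab k hk
    have h3 := hW k' hk'
    have h4 := hab k' hk'
    beta_reduce at h
    exact hd k hk k' hk' (by omega)
  · intro k hk
    have h1 := hW k hk
    have h2 := hab k hk
    obtain ⟨φ, hφ⟩ : ∃ φ : ℕ → ℝ, φ = fun x => g x * f (x + (b k - a k)) := ⟨_, rfl⟩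
    have hφm : ∀ x, |φ x| ≤ m ^ 2 := by
      intro x
      rw [hφ]
      simp only
      rw [abs_mul, sq]
      exact mul_le_mul (hg _) (hf _) (abs_nonneg _) hm
    have h3 := cell_shift φ (m ^ 2) hφm (a k) (a k₀) H W (by omega) (by omega)
    have h4 : ∑ h ∈ Icc 1 H, φ (a k + h) = ∑ h ∈ Icc 1 H, g (a k + h) * f (b k + h) := by
      apply Finset.sum_congr rfl
      intro h _
      rw [hφ]
      simp only
      rw [show a k + h + (b k - a k) = b k + h by omega]
    have h5 : ∑ i ∈ Icc 1 H, φ (a k₀ + i) = ∑ i ∈ Icc 1 H, (fun i => g (a k₀ + i)) i *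
        F (i + (fun k => a k₀ + (b k - a k) + 2 * W - b k₀) k) := by
      apply Finset.sum_congr rfl
      intro i _
      rw [hφ, hF]
      simp only
      rw [if_pos (by omega), show b k₀ + (i + (a k₀ + (b k - a k) + 2 * W - b k₀)) - 2 * W =
        a k₀ + i + (b k - a k) by omega]
    rw [h4, h5] at h3
    exact h3

theorem thm_CellB : St_CellB := by
  intro G a b k₀ H W g f m S hk₀ _ hm hS0 hmono hab hW hg hf hS
  have hd : ∀ k ∈ G, ∀ k' ∈ G, b k - a k = b k' - a k' → k = k' := by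
    intro k hk k' hk' h
    have h1 := hab k hk
    have h2 := hab k' hk'
    rcases lt_trichotomy k k' with h3 | h3 | h3
    · have := hmono k hk k' hk' h3
      omega
    · exact h3
    · have := hmono k' hk' k hk h3
      omega
  have hab0 := hab k₀ hk₀
  obtain ⟨F, hF⟩ : ∃ F : ℕ → ℝ, F = fun j => if 2 * W ≤ a k₀ + j then f (a k₀ + j - 2 * W) else 0 :=
    ⟨_, rfl⟩
  have hFm : ∀ j, |F j| ≤ m := by
    intro j
    rw [hF]
    simp only
    split_ifs
    · exact hf _
    · rw [abs_zero]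
      exact hm
  apply cell_core G H W m S hm hS0 (fun i => g (b k₀ + i)) F hFm ?_
    (fun k => b k₀ + 2 * W - ((b k - a k) + a k₀)) ?_ ?_ _ ?_
  · intro α
    have h1 := hS α
    have h2 : ∑ n ∈ Ioc (b k₀) (b k₀ + H), ((g n : ℝ) : ℂ) * ee (α * n) =
        ee (α * b k₀) * ∑ i ∈ Icc 1 H, ((g (b k₀ + i) : ℝ) : ℂ) * ee (α * i) := by
      rw [Finset.mul_sum]
      symm
      apply Finset.sum_bij (fun i _ => b k₀ + i)
      · intro i hi
        rw [Finset.mem_Icc] at hi
        rw [Finset.mem_Ioc]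
        omega
      · intro i _ j _ hij
        omega
      · intro x hx
        rw [Finset.mem_Ioc] at hx
        exact ⟨x - b k₀, by rw [Finset.mem_Icc]; omega, by omega⟩
      · intro i _
        have h3 : ee (α * ((b k₀ + i : ℕ) : ℝ)) = ee (α * b k₀) * ee (α * i) := by
          rw [← Pool.Agent.GBQ.ee_add]
          congr 1
          push_cast
          ring
        rw [h3]
        ring
    rw [h2, norm_mul, Pool.Agent.GBQ.ee_norm, one_mul] at h1
    exact h1
  · intro k hk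
    have h1 := hW k hk
    have h2 := hab k hk
    beta_reduce
    omega
  · intro k hk k' hk' h
    have h1 := hW k hk
    have h2 := hab k hk
    have h3 := hW k' hk'
    have h4 := hab k' hk'
    beta_reduce at h
    exact hd k hk k' hk' (by omega)
  · intro k hk
    have h1 := hW k hk
    have h2 := hab k hk
    obtain ⟨φ, hφ⟩ : ∃ φ : ℕ → ℝ, φ = fun x =>
        if b k - a k ≤ x then f (x - (b k - a k)) * g x else 0 := ⟨_, rfl⟩
    have hφm : ∀ x, |φ x| ≤ m ^ 2 := by
      intro x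
      rw [hφ]
      simp only
      split_ifs
      · rw [abs_mul, sq]
        exact mul_le_mul (hf _) (hg _) (abs_nonneg _) hm
      · rw [abs_zero]
        positivity
    have h3 := cell_shift φ (m ^ 2) hφm (b k) (b k₀) H W (by omega) (by omega)
    have h4 : ∑ h ∈ Icc 1 H, φ (b k + h) = ∑ h ∈ Icc 1 H, f (a k + h) * g (b k + h) := by
      apply Finset.sum_congr rfl
      intro h _
      rw [hφ]
      simp only
      rw [if_pos (by omega), show b k + h - (b k - a k) = a k + h by omega]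
    have h5 : ∑ i ∈ Icc 1 H, φ (b k₀ + i) = ∑ i ∈ Icc 1 H, (fun i => g (b k₀ + i)) i *
        F (i + (fun k => b k₀ + 2 * W - ((b k - a k) + a k₀)) k) := by
      apply Finset.sum_congr rfl
      intro i _
      rw [hφ, hF]
      simp only
      by_cases h6 : b k - a k ≤ b k₀ + i
      · rw [if_pos h6, if_pos (by omega), show a k₀ + (i + (b k₀ + 2 * W - (b k - a k + a k₀))) -
          2 * W = b k₀ + i - (b k - a k) by omega]
        ring
      · rw [if_neg h6, if_neg (by omega), mul_zero]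
    rw [h4, h5] at h3
    exact h3

end Pool.Agent.CSH
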