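import Pool.Agent.TSH.Stmts
import Pool.Agent.NRP.StN

/-!
# CSH: the common shift (MP_04e9b2_nt), statements

`p_k + h` and `p_{p_{n-k}} + h` are both prime for many `k`, for many `h ≤ H`, `H ≥ n^(3/4+ε)`.
-/

set_option autoImplicit false

namespace Pool.Agent.CSH

open Finset Filter
open Pool.Agent.GBQ (ee nd gm lam LamS zz rho pr)
open Pool.Agent.TSH (Fam rr RR yL L3)

/-- [V2] Type II in a short window.  Trivial unless `H ^ 2 ≥ 2 N` and `N q ≤ 2 H ^ 2`, `H ≥ M`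
(for the other cases use the bound by `T` below with `gm ≤ length`).
Cauchy and Schwarz over `l`: `|S|² ≤ (∑ b²) T`, `T = ∑_{k,k'} c_k c_k' ∑_{l ∈ I} ee(α l (k - k'))`,
`I` = the `l ∈ [M, 2M)` with `l k, l k' ∈ (N, N+H]`: an interval; nonempty only if `M |k - k'| ≤ H` and
`N/(2M) < k ≤ 2N/M`; its length is `≤ 2HM/N + 1`.  `GBQ.thm_Geo` (`St_Geo`), `|c_k c_k'| ≤ (c_k² + c_k'²)/2`,
`∑_{k ≤ x} τ(k)² ≤ x (1 + log x)³` (`MT.sum_divisors_sq`), so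
`T ≤ (2N/M) log³ · (2HM/N + 1 + 2 ∑_{1 ≤ j ≤ H/M} (1 + gm(2H²/(N j), α j)))` and `GBQ.thm_TypeI`
(`N := ⌈2H²/N⌉`, `D := H/M`). -/
def St_V2 : Prop := ∃ C : ℕ, ∀ (N H M : ℕ) (α : ℝ) (a : ℤ) (q : ℕ) (b c : ℕ → ℝ), 3 ≤ N → 1 ≤ H →
  H ≤ N → 1 ≤ M → N ≤ 2 * H * M → 1 ≤ q → Int.gcd a q = 1 → |α - a / q| ≤ 1 / (q : ℝ) ^ 2 →
  (∀ l, |b l| ≤ Real.log (2 * N)) → (∀ k, |c k| ≤ k.divisors.card) →
  ‖∑ l ∈ Ico M (2 * M), ∑ k ∈ (Icc 1 (2 * N)).filter (fun k => N < l * k ∧ l * k ≤ N + H),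
    ((b l : ℝ) : ℂ) * ((c k : ℝ) : ℂ) * ee (α * ((l * k : ℕ) : ℝ))‖ ^ 2 ≤
    C * ((H : ℝ) * M + (N : ℝ) * H / M + (H : ℝ) ^ 2 / q + (N : ℝ) * q) * Real.log N ^ C

/-- [V] Vinogradov in short windows.  `H < N^(2/3)`: trivial.  Otherwise `MT.vaughan` with
`U = V = ⌈N^(1/3)⌉`, `N + H` for `N`, `F n = if N < n then ee (α n) else 0`.  First term `0` (`V ≤ N`); second:
`2 log (2N) ∑_{m ≤ U} gm(H/m + 1, α m)` (Abel, `GBQ.thm_Geo`), `GBQ.thm_TypeI` (`N := H`); third: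
`log N ∑_{d ≤ UV} τ(d) gm(H/d + 1, α d)`, Cauchy and Schwarz with `∑ τ(d)²/d ≤ log⁴`; fourth: `O(log N)` dyadic
blocks `[M, 2M)` with `N^(1/3) ≤ M ≤ 4 N^(2/3)` (the last one cut off by `b`), `St_V2`, `b = Λ`, `c = cU U`
(`MT.cU_abs_le`, `MT.cU_eq_zero`). -/
def St_V : Prop := ∃ C : ℕ, ∀ (N H : ℕ) (α : ℝ) (a : ℤ) (q : ℕ), 3 ≤ N → H ≤ N →
  1 ≤ q → Int.gcd a q = 1 → |α - a / q| ≤ 1 / (q : ℝ) ^ 2 →
  ‖∑ n ∈ Ioc N (N + H), ((lam n : ℝ) : ℂ) * ee (α * n)‖ ≤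
    C * (H / Real.sqrt q + (N : ℝ) ^ (1 / 3 : ℝ) * Real.sqrt H + Real.sqrt (N * q)) *
      Real.log N ^ C

/-- `Λ - Λ_z` on the window `(y, y + H]` -/
noncomputable def win (z y H : ℕ) (α : ℝ) : ℝ :=
  ‖∑ n ∈ Ioc y (y + H), ((lam n - LamS z n : ℝ) : ℂ) * ee (α * n)‖

open Classical in
/-- [Maj] Major arcs, almost all windows.  `L = ⌊√X⌋`, `M(x) = max` over `1 ≤ q ≤ log^D X`, `a < q` of
`‖∑_{x < n ≤ x + L} (Λ - Λ_z)(n) ee(a n/q)‖`.  `NRP.St_Loc` (`u = 0`, `v = 3X`, `gI`, `β = a/q`) and the sum over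
`a, q`: `∑_x M(x)² ≤ X L² / log^A' X`, so `∑_x M(x) ≤ X L / log^A'' X`.  Average over the position of the pieces:
`L ∑_{y < n ≤ y+H} g(n) ee(α n) = ∑_{y-L ≤ x ≤ y+H} ∑_{x < n ≤ x+L} g(n) ee(α n) + O(L² log² X)`, and on
a piece `ee(α n) = ee((α - a/q) x) ee(a n/q) + O(L X^(-1/2-ε))`.  So `win ≤ (1/L) ∑_{y-L ≤ x ≤ y+H} M(x) +`
(small); Markov's inequality for the sum over `y`. -/
def St_Maj : Prop := ∀ (A D : ℕ) (ε : ℝ), 0 < ε → ∃ B₀ : ℕ, ∀ B : ℕ, B₀ ≤ B → ∀ᶠ X : ℕ in atTop,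
  ∀ H : ℕ, (X : ℝ) ^ (3 / 4 + ε) ≤ H → 2 * H ≤ X →
  (((range (2 * X + 1)).filter (fun y => ∃ (q : ℕ) (a : ℤ) (α : ℝ), 1 ≤ q ∧
    (q : ℝ) ≤ Real.log X ^ D ∧ |α - a / q| ≤ (X : ℝ) ^ (-(1 / 2 : ℝ) - ε) ∧
    H / Real.log X ^ A < win (zz B X) y H α)).card : ℝ) ≤ X / Real.log X ^ A

open Classical in
/-- [Sup] All frequencies, almost all windows.  The `y ≤ X / (2 log^A X)` are few.  For the others Dirichlet with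
`Q = ⌊H² / (X log^D X)⌋`: `q ≤ log^D X`: `St_Maj` (`X log^D X / H² ≤ X^(-1/2-ε)`); `q > log^D X`: `NRP.thm_MinS` for
`LamS`; `St_V` for `Λ` if `H ≤ y`, `GBQ.thm_Vin` for `(0, y]` and `(0, y + H]` if `H > y`. -/
def St_Sup : Prop := ∀ (A : ℕ) (ε : ℝ), 0 < ε → ∃ B₀ : ℕ, ∀ B : ℕ, B₀ ≤ B → ∀ᶠ X : ℕ in atTop,
  ∀ H : ℕ, (X : ℝ) ^ (3 / 4 + ε) ≤ H → 2 * H ≤ X →
  (((range (2 * X + 1)).filter (fun y => ∃ α : ℝ,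
    H / Real.log X ^ A < win (zz B X) y H α)).card : ℝ) ≤ X / Real.log X ^ A

/-- `a` is increasing and `b` is decreasing on `K` -/
def Mono (K : Finset ℕ) (a b : ℕ → ℕ) : Prop :=
  ∀ k ∈ K, ∀ k' ∈ K, k < k' → a k < a k' ∧ b k' < b k

/-- [Cell] One cell, deterministic.  `k₀ ∈ G`, all `a k` within `W` of `a k₀`, all `b k` within `W` of `b k₀`;
`g`, `f` bounded by `m`; `‖∑_{y < n ≤ y+H} g(n) ee(α n)‖ ≤ S` for all `α`, `y = a k₀`.  Then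
`∑_{h ≤ H} g(a k + h) f(b k + h) = ∑_{a k₀ < x ≤ a k₀ + H} g(x) f(x + b k - a k) + O(2 W m²)`; the integers
`b k - a k` are distinct on `G`; `f` is only used on `(b k₀ - 2W, b k₀ + H + 2W]`; mean square
(`TSH.corr_L2` or Parseval): `∑_k (..)² ≤ S² (H + 4W) m²`; Cauchy and Schwarz. -/
def St_Cell : Prop := ∀ (G : Finset ℕ) (a b : ℕ → ℕ) (k₀ H W : ℕ) (g f : ℕ → ℝ) (m S : ℝ),
  k₀ ∈ G → 1 ≤ H → 0 ≤ m → 0 ≤ S → Mono G a b → (∀ k ∈ G, (a k < b k)) →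
  (∀ k ∈ G, a k ≤ a k₀ + W ∧ a k₀ ≤ a k + W ∧ b k ≤ b k₀ + W ∧ b k₀ ≤ b k + W) →
  (∀ n, |g n| ≤ m) → (∀ n, |f n| ≤ m) →
  (∀ α : ℝ, ‖∑ n ∈ Ioc (a k₀) (a k₀ + H), ((g n : ℝ) : ℂ) * ee (α * n)‖ ≤ S) →
  ∑ k ∈ G, |∑ h ∈ Icc 1 H, g (a k + h) * f (b k + h)| ≤
    2 * W * m ^ 2 * G.card + Real.sqrt G.card * (S * (Real.sqrt (H + 4 * W) * m))

/-- [Cell'] The same with the large values of `g` at `b k + h`. -/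
def St_CellB : Prop := ∀ (G : Finset ℕ) (a b : ℕ → ℕ) (k₀ H W : ℕ) (g f : ℕ → ℝ) (m S : ℝ),
  k₀ ∈ G → 1 ≤ H → 0 ≤ m → 0 ≤ S → Mono G a b → (∀ k ∈ G, (a k < b k)) →
  (∀ k ∈ G, a k ≤ a k₀ + W ∧ a k₀ ≤ a k + W ∧ b k ≤ b k₀ + W ∧ b k₀ ≤ b k + W) →
  (∀ n, |g n| ≤ m) → (∀ n, |f n| ≤ m) →
  (∀ α : ℝ, ‖∑ n ∈ Ioc (b k₀) (b k₀ + H), ((g n : ℝ) : ℂ) * ee (α * n)‖ ≤ S) →
  ∑ k ∈ G, |∑ h ∈ Icc 1 H, f (a k + h) * g (b k + h)| ≤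
    2 * W * m ^ 2 * G.card + Real.sqrt G.card * (S * (Real.sqrt (H + 4 * W) * m))

/-- [Err] From primes to the model.  `St_Sup` with a large `A'`: at most `2X / log^A' X` of the `k` have a bad window
at `a k` or `b k` (`a`, `b` injective), trivial bound `log^4 X · H` for these.  The others: `W = ⌊H / log^E X⌋`,
`s(k) = a k / W + (X / W - b k / W)` is nondecreasing in `k`, and `s(k) = s(k')` implies `a k / W = a k' / W`,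
`b k / W = b k' / W`: at most `2X/W + 1` cells `G`, in each one `St_Cell` (`g = Λ - Λ_z`, `f = Λ`) and `St_CellB`
(`g = Λ - Λ_z`, `f = Λ_z`) with `k₀ ∈ G`; `lam ≤ log (2X)`, `LamS ≤ (rho z)⁻¹ ≤ C log z` (`GBQ.thm_RhoLow`); cut off `g` and `f` above `2X`;
`∑_G √|G| ≤ √(#cells) √|K|`. -/
def St_Err : Prop := ∀ (A : ℕ) (ε : ℝ), 0 < ε → ∃ B₀ : ℕ, ∀ B : ℕ, B₀ ≤ B → ∀ᶠ X : ℕ in atTop,
  ∀ (H : ℕ) (K : Finset ℕ) (a b : ℕ → ℕ), (X : ℝ) ^ (3 / 4 + ε) ≤ H → 2 * H ≤ X →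
  (∀ k ∈ K, a k < b k ∧ b k ≤ X) → Mono K a b →
  ∑ k ∈ K, |∑ h ∈ Icc 1 H, lam (a k + h) * lam (b k + h) -
    ∑ h ∈ Icc 1 H, LamS (zz B X) (a k + h) * LamS (zz B X) (b k + h)| ≤
    (X : ℝ) * H / Real.log X ^ A

/-- [MM] Two models in a window: `(rho z)⁻²` times the number of the `h ≤ H` for which `a + h` and `b + h` have no
prime factor `≤ z` (one or two classes modulo `p ≤ z`); Bonferroni as in `NRP.thm_ModS` / `NRP.thm_A3`: equal to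
`H ∏_{p ≤ z} (1 - ω(p)/p) / (1 - 1/p)²` up to `H / log^5 X`; `ω(p) = 1` if `p ∣ b - a`, `2` otherwise; `2 ∣ b - a`;
`TSH.twin_const`. -/
def St_MM : Prop := ∀ (B : ℕ) (ε : ℝ), 0 < ε → ∀ᶠ X : ℕ in atTop, ∀ z : ℕ, 2 ≤ z →
  (z : ℝ) ≤ Real.log X ^ B → ∀ H a b : ℕ, (X : ℝ) ^ ε ≤ H → a < b → b ≤ X → 2 ∣ b - a →
  (H : ℝ) / 8 * RR z (b - a) ≤ ∑ h ∈ Icc 1 H, LamS z (a + h) * LamS z (b + h)

/-- [First] First moment: `St_Err` (with `A + 4` or so), `St_MM`; the `h` for which `a k + h` or `b k + h` is a proper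
power of a prime: at most `C √X log X`; otherwise `lam lam ≤ log² (2X)`; `RR_mono` (`yL X ≤ zz B X`). -/
def St_First : Prop := ∀ (A : ℕ) (ε : ℝ), 0 < ε → ∃ c : ℝ, 0 < c ∧ ∀ᶠ X : ℕ in atTop,
  ∀ (H Z : ℕ) (K : Finset ℕ) (a b : ℕ → ℕ), (X : ℝ) ^ (3 / 4 + ε) ≤ H → H ≤ Z → 16 * Z ≤ X →
  Fam X Z K a b → Mono K a b → (X : ℝ) / Real.log X ^ A ≤ K.card →
  c * H / Real.log X ^ 2 * ∑ k ∈ K, RR (yL X) (b k - a k) ≤ ∑ h ∈ Icc 1 H, (rr K a b h : ℝ)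

open Classical in
/-- [Core] as `TSH.thm_Core` (`Core2.lean`), with `H` for the length of the sum over `h` and `Z` in place of `X1`
elsewhere (`card_badp`, `κ ≤ Z`, `BT2` at `Z`; `gb C H .. = (H / log⁴ H) / (Z / log⁴ Z) gb C Z ..` for `sum_gb2`). -/
def St_Core : Prop := ∀ (A : ℕ) (ε : ℝ), 0 < ε → ∃ c : ℝ, 0 < c ∧ ∀ᶠ X : ℕ in atTop,
  ∀ (H Z : ℕ) (K : Finset ℕ) (a b : ℕ → ℕ), (X : ℝ) ^ (3 / 4 + ε) ≤ H → H ≤ Z → 16 * Z ≤ X →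
  Fam X Z K a b → Mono K a b → (X : ℝ) / Real.log X ^ A ≤ Z → (X : ℝ) / Real.log X ^ A ≤ K.card →
  c * H * max (1 / L3 X ^ 2) (K.card * Real.log X / (Z * L3 X)) ≤
    (((Icc 1 H).filter (fun h => c * K.card / Real.log X ^ 2 ≤ (rr K a b h : ℝ))).card : ℝ)

end Pool.Agent.CSH
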