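import Mathlib
import Pool.Agent.CSH.St
import Pool.Agent.TSH.Core
import Pool.Agent.TSH.First

set_option autoImplicit false

/-!
# CSH / Core: the number of good shifts for a family, common shift of two lengths
-/

namespace Pool.Agent.CSH

open Finset Filter
open Pool.Agent.GBQ (rho)
open Pool.Agent.TSH (Fam rr RR yL L3 St_Four St_BT2 gb gb_nonneg qf qf_le sum_gb1 sum_gb2 split_sq pz
  badp card_badp big one_le_RR RR_nonneg rho_pos' rho_yL half_log tl tail tendsto_ll)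

/-- `gb` is linear in the constant -/
theorem gb_scale {C : ℝ} {H Z : ℕ} (hZ : 0 < (Z : ℝ)) (hlZ : 0 < Real.log Z) (y : ℕ)
    (a b : ℕ → ℕ) (k k' : ℕ) :
    gb C H y a b k k' =
      gb (C * (H / Real.log H ^ 4) * (Real.log Z ^ 4 / Z)) Z y a b k k' := by
  unfold gb
  have h1 : C * (H / Real.log H ^ 4) * (Real.log Z ^ 4 / Z) * Z / Real.log Z ^ 4 =
      C * H / Real.log H ^ 4 := by
    have h2 : (Z : ℝ) ≠ 0 := hZ.ne'
    have h3 : Real.log Z ≠ 0 := hlZ.ne'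
    have h4 : Real.log Z ^ 4 / Z * Z / Real.log Z ^ 4 = 1 := by
      field_simp
    calc C * (H / Real.log H ^ 4) * (Real.log Z ^ 4 / Z) * Z / Real.log Z ^ 4
        = C * H / Real.log H ^ 4 * (Real.log Z ^ 4 / Z * Z / Real.log Z ^ 4) := by ring
      _ = _ := by rw [h4, mul_one]
  rw [h1]

theorem thm_Core (hFirst : St_First) (hFour : St_Four) (hBT : St_BT2) : St_Core := by
  intro A ε hε
  obtain ⟨c₁, hc₁, h1⟩ := hFirst A ε hε
  obtain ⟨C₄, X₀, hC₄, hFour⟩ := hFour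
  obtain ⟨C₂, hC₂, hBT⟩ := hBT
  obtain ⟨Cρ, hCρ, hρ⟩ := rho_yL
  obtain ⟨Z₀, hZ₀⟩ := eventually_atTop.1 hBT
  obtain ⟨D₁, hD₁⟩ : ∃ D₁ : ℝ, D₁ = 16 * C₄ * Cρ ^ 2 + 2 := ⟨_, rfl⟩
  obtain ⟨D₂, hD₂⟩ : ∃ D₂ : ℝ, D₂ = 32 * C₄ * C₂ * Cρ + 2 := ⟨_, rfl⟩
  have hD₁0 : 0 < D₁ := by rw [hD₁]; positivity
  have hD₂0 : 0 < D₂ := by rw [hD₂]; positivity
  obtain ⟨c, hc⟩ : ∃ c : ℝ, c = min (c₁ / 2) (min (c₁ ^ 2 / (4 * D₁)) (c₁ ^ 2 / (4 * D₂))) :=
    ⟨_, rfl⟩
  have hc0 : 0 < c := by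
    rw [hc]
    refine lt_min (by positivity) (lt_min (by positivity) (by positivity))
  have hca : c ≤ c₁ / 2 := by rw [hc]; exact min_le_left _ _
  have hcb : c ≤ c₁ ^ 2 / (4 * D₁) := by
    rw [hc]
    exact (min_le_right _ _).trans (min_le_left _ _)
  have hcc : c ≤ c₁ ^ 2 / (4 * D₂) := by
    rw [hc]
    exact (min_le_right _ _).trans (min_le_right _ _)
  refine ⟨c, hc0, ?_⟩
  have hlogT : Tendsto (fun X : ℕ => Real.log X) atTop atTop :=
    Real.tendsto_log_atTop.comp tendsto_natCast_atTop_atTop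
  filter_upwards [h1, hρ, half_log (A := A), eventually_ge_atTop (X₀ ^ 2 + Z₀ ^ 2 + 3),
    hlogT.eventually_ge_atTop 256, tl (A + 5) 1 one_pos, tail (A + 10),
    hlogT.eventually ((Real.isLittleO_pow_log_id_atTop (n := 2)).bound (show (0 : ℝ) < 1 / 4 by
      norm_num)), tendsto_ll.eventually_ge_atTop 4] with
    X h1 hρ hhalf hXX0 hL256 htl htail hll hu4 H X1 K a b hH hHZ hXX1 hF hMo hX1 hK
  obtain ⟨hy2, hℓ1, hρ⟩ := hρ
  have h1 := h1 H X1 K a b hH hHZ hXX1 hF hMo hK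
  have hX3 : 3 ≤ X := by omega
  have hX3' : (3 : ℝ) ≤ X := by exact_mod_cast hX3
  have hX0 : (0 : ℝ) < X := by linarith
  obtain ⟨hsX1, hlX1⟩ := hhalf X1 hX1
  have hsH : Real.sqrt X ≤ H := by
    rw [Real.sqrt_eq_rpow]
    exact (Real.rpow_le_rpow_of_exponent_le (by linarith) (by linarith)).trans hH
  have hs0' : 0 < Real.sqrt X := Real.sqrt_pos.2 hX0
  have hlH : Real.log X ≤ 2 * Real.log H := by
    have h3 := Real.log_le_log hs0' hsH
    rw [Real.log_sqrt hX0.le] at h3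
    linarith
  obtain ⟨L, hL⟩ : ∃ L : ℝ, L = Real.log X := ⟨_, rfl⟩
  obtain ⟨ℓ, hℓ⟩ : ∃ ℓ : ℝ, ℓ = L3 X := ⟨_, rfl⟩
  obtain ⟨y, hy⟩ : ∃ y : ℕ, y = yL X := ⟨_, rfl⟩
  obtain ⟨T, hT⟩ : ∃ T : ℝ, T = ∑ k ∈ K, RR (yL X) (b k - a k) := ⟨_, rfl⟩
  obtain ⟨κ, hκ⟩ : ∃ κ : ℝ, κ = K.card := ⟨_, rfl⟩
  rw [← hL] at hX1 hK hL256 htl htail h1 hlX1 hll hlH
  rw [← hℓ] at hℓ1 hρ
  rw [← hκ] at hK
  rw [← hT] at h1
  rw [← hy] at htail hy2 hρ
  rw [← hκ, ← hL, ← hℓ]
  have hL1 : 1 ≤ L := by linarith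
  have hL0 : 0 < L := by linarith
  have hκ0 : 0 ≤ κ := by rw [hκ]; exact Nat.cast_nonneg _
  have hκT : κ ≤ T := by
    rw [hT, hκ]
    calc (K.card : ℝ) = ∑ _k ∈ K, (1 : ℝ) := by rw [Finset.sum_const, nsmul_eq_mul, mul_one]
      _ ≤ _ := Finset.sum_le_sum fun k _ => one_le_RR _ _
  have hsq : Real.sqrt X * Real.sqrt X = X := Real.mul_self_sqrt hX0.le
  have hs1 : 1 ≤ Real.sqrt X := by
    rw [Real.one_le_sqrt]
    linarith
  have hHr : (1 : ℝ) ≤ H := hs1.trans hsH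
  have hX1r : (1 : ℝ) ≤ X1 := hs1.trans hsX1
  have hroot : ∀ m : ℕ, m ^ 2 ≤ X → m ≤ X1 := by
    intro m hm
    have h2 : (m : ℝ) ≤ Real.sqrt X := by
      apply Real.le_sqrt_of_sq_le
      exact_mod_cast hm
    exact_mod_cast h2.trans hsX1
  have hrootH : ∀ m : ℕ, m ^ 2 ≤ X → m ≤ H := by
    intro m hm
    have h2 : (m : ℝ) ≤ Real.sqrt X := by
      apply Real.le_sqrt_of_sq_le
      exact_mod_cast hm
    exact_mod_cast h2.trans hsH
  have hX0H : X₀ ≤ H := hrootH X₀ (by omega)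
  have hZ0X1 : Z₀ ≤ X1 := hroot Z₀ (by omega)
  have hlog1 : L / 2 ≤ Real.log X1 := by linarith
  have hlogH : L / 2 ≤ Real.log H := by linarith
  -- the limit `y`
  obtain ⟨u, hu⟩ : ∃ u : ℝ, u = Real.log L := ⟨_, rfl⟩
  have hu4' : 4 ≤ u := by
    rw [hu, hL]
    exact hu4
  have hyu : (y : ℝ) ≤ u ^ 2 + 1 := by
    have : (yL X : ℝ) < Real.log (Real.log X) ^ 2 + 1 := by
      unfold yL
      exact Nat.ceil_lt_add_one (by positivity)
    rw [← hy, ← hL, ← hu] at this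
    exact this.le
  have hll' : u ^ 2 ≤ L / 4 := by
    rw [Real.norm_of_nonneg (by positivity), id, Real.norm_of_nonneg hL0.le, ← hu] at hll
    linarith
  have hyH : (y : ℝ) ≤ Real.log H := by linarith
  have hyX1' : (y : ℝ) ≤ Real.log (Real.log X1) ^ 3 := by
    have h2 : u - 1 ≤ Real.log (Real.log X1) := by
      have h3 := Real.log_le_log (by positivity : (0 : ℝ) < L / 2) hlog1
      rw [Real.log_div (by linarith) (by norm_num), ← hu] at h3
      have := Real.log_two_lt_d9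
      linarith
    have h3 : (u - 1) ^ 3 ≤ Real.log (Real.log X1) ^ 3 :=
      pow_le_pow_left₀ (by linarith) h2 3
    refine hyu.trans (le_trans ?_ h3)
    have h4 : 0 ≤ u ^ 2 * (u - 4) := mul_nonneg (sq_nonneg u) (sub_nonneg.2 hu4')
    have h5 : (u - 1) ^ 3 = u ^ 2 * (u - 4) + u ^ 2 + 3 * u - 1 := by ring
    rw [h5]
    linarith
  have hE := hZ₀ X1 hZ0X1 y
  -- the good pairs
  have hgood : ∀ k ∈ K, ∀ k' ∈ K, k ≠ k' → (k, k') ∉ badp y K a b →
      (qf H a b k k' : ℝ) ≤ gb C₄ H y a b k k' := by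
    intro k hk k' hk' hne hb
    have hb' : ¬ (y < big y (Nat.dist (a k) (a k')) ∨ y < big y (Nat.dist (b k) (b k')) ∨
        y < big y (b k - a k) ∨ y < big y (b k' - a k') ∨
        y < big y (b k - a k') ∨ y < big y (b k' - a k)) := by
      intro h
      apply hb
      unfold badp
      rw [mem_filter, Finset.mem_product]
      exact ⟨⟨hk, hk'⟩, h⟩
    push Not at hb'
    obtain ⟨b1, b2, b3, b4, b5, b6⟩ := hb'
    have e1 := hF.sa k hk
    have e2 := hF.sa k' hk'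
    have e3 := hF.lb k hk
    have e4 := hF.lb k' hk'
    have := hFour H y (a k) (a k') (b k) (b k') hX0H hy2 hyH (hF.pa k hk) (hF.pa k' hk')
      (hF.pb k hk) (hF.pb k' hk') (lt_of_le_of_lt hHZ (hF.sq k hk))
      (lt_of_le_of_lt hHZ (hF.sq k' hk'))
      (fun h => hne (hF.ia k hk k' hk' h)) (fun h => hne (hF.ib k hk k' hk' h))
      (by omega) (by omega) (by omega) (by omega) b1 b2 b3 b5 b6 b4
    unfold gb qf
    exact this
  have hsplit := split_sq (X1 := H) (y := y) (K := K) (a := a) (b := b)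
    (g := gb C₄ H y a b) (fun k _ k' _ => gb_nonneg hC₄.le H y a b k k') hgood
  -- the bad pairs and the diagonal
  have hbad : ((badp y K a b).card : ℝ) ≤ κ ^ 2 / L ^ 5 := by
    have h2 := card_badp (y := y) (by omega : 1 ≤ X) hXX1 hF
    refine h2.trans ?_
    rw [← hκ, ← hL, le_div_iff₀ (by positivity)]
    have h3 : (1 + L) ^ 4 ≤ (2 * L) ^ 4 := pow_le_pow_left₀ (by linarith) (by linarith) 4
    have h4 : 16 * (2⁻¹ ^ y * (X * (1 + L) ^ 4)) * L ^ 5 ≤ κ := by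
      refine le_trans ?_ hK
      rw [le_div_iff₀ (by positivity)]
      calc 16 * (2⁻¹ ^ y * (X * (1 + L) ^ 4)) * L ^ 5 * L ^ A
          ≤ 16 * (2⁻¹ ^ y * (X * (2 * L) ^ 4)) * L ^ 5 * L ^ A := by
            apply mul_le_mul_of_nonneg_right _ (by positivity)
            apply mul_le_mul_of_nonneg_right _ (by positivity)
            apply mul_le_mul_of_nonneg_left _ (by norm_num)
            apply mul_le_mul_of_nonneg_left _ (by positivity)
            exact mul_le_mul_of_nonneg_left h3 hX0.le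
        _ = X * (256 * (2⁻¹ ^ y * L ^ (A + 9))) := by ring
        _ ≤ X * (L * (2⁻¹ ^ y * L ^ (A + 9))) := by
            apply mul_le_mul_of_nonneg_left _ hX0.le
            exact mul_le_mul_of_nonneg_right hL256 (by positivity)
        _ = X * (2⁻¹ ^ y * L ^ (A + 10)) := by ring
        _ ≤ X * 1 := mul_le_mul_of_nonneg_left htail hX0.le
        _ = X := mul_one _
    calc 8 * (κ * (2 * (2⁻¹ ^ y * (X * (1 + L) ^ 4)))) * L ^ 5 =
        κ * (16 * (2⁻¹ ^ y * (X * (1 + L) ^ 4)) * L ^ 5) := by ring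
      _ ≤ κ * κ := mul_le_mul_of_nonneg_left h4 hκ0
      _ = κ ^ 2 := by ring
  have hdiag : κ ≤ κ ^ 2 / L ^ 5 := by
    rw [le_div_iff₀ (by positivity), sq]
    apply mul_le_mul_of_nonneg_left _ hκ0
    refine le_trans ?_ hK
    rw [le_div_iff₀ (by positivity)]
    rw [one_mul, add_comm, pow_add] at htl
    calc L ^ 5 * L ^ A ≤ Real.sqrt X := htl
      _ = Real.sqrt X * 1 := (mul_one _).symm
      _ ≤ Real.sqrt X * Real.sqrt X := mul_le_mul_of_nonneg_left hs1 (Real.sqrt_nonneg _)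
      _ = X := hsq
  have hκX1 : κ ≤ X1 := by
    rw [hκ]
    have h2 : K.card ≤ (Icc 1 X1).card := by
      apply Finset.card_le_card_of_injOn a
      · intro k hk
        have e1 := hF.sa k hk
        have e2 := (hF.pa k hk).one_le
        rw [Finset.coe_Icc, Set.mem_Icc]
        omega
      · intro k hk k' hk' h
        exact hF.ia k hk k' hk' h
    rw [Nat.card_Icc, Nat.add_sub_cancel] at h2
    exact_mod_cast h2
  have h16 : 1 / Real.log H ^ 4 ≤ 16 / L ^ 4 := by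
    have h2 : (L / 2) ^ 4 ≤ Real.log H ^ 4 := pow_le_pow_left₀ (by positivity) hlogH 4
    calc 1 / Real.log H ^ 4 ≤ 1 / (L / 2) ^ 4 :=
          one_div_le_one_div_of_le (by positivity) h2
      _ = 16 / L ^ 4 := by
          field_simp
          norm_num
  have hT0 : 0 ≤ T := hκ0.trans hκT
  have hQ1 : ∑ h ∈ Icc 1 H, (rr K a b h : ℝ) ^ 2 ≤ D₁ * (H * T * κ * ℓ ^ 2 / L ^ 4) := by
    have h2 := sum_gb1 hC₄.le H y a b K hρ
    rw [hy, ← hT, ← hκ, ← hy] at h2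
    have h3 : C₄ * H / Real.log H ^ 4 * T * (κ * (Cρ * ℓ) ^ 2) ≤
        16 * C₄ * Cρ ^ 2 * (H * T * κ * ℓ ^ 2 / L ^ 4) := by
      calc C₄ * H / Real.log H ^ 4 * T * (κ * (Cρ * ℓ) ^ 2)
          = (C₄ * H * T * (κ * (Cρ * ℓ) ^ 2)) * (1 / Real.log H ^ 4) := by ring
        _ ≤ (C₄ * H * T * (κ * (Cρ * ℓ) ^ 2)) * (16 / L ^ 4) :=
            mul_le_mul_of_nonneg_left h16 (by positivity)
        _ = _ := by ring
    have h4 : H * (κ ^ 2 / L ^ 5) ≤ H * T * κ * ℓ ^ 2 / L ^ 4 := by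
      have h5 : κ ^ 2 / L ^ 5 ≤ T * κ * ℓ ^ 2 / L ^ 4 := by
        rw [div_le_div_iff₀ (by positivity) (by positivity)]
        have h6 : κ ^ 2 ≤ T * κ * ℓ ^ 2 := by
          have h7 : κ * κ ≤ T * κ := mul_le_mul_of_nonneg_right hκT hκ0
          have h8 : (1 : ℝ) ≤ ℓ ^ 2 := one_le_pow₀ hℓ1
          have h9 : 0 ≤ T * κ := mul_nonneg hT0 hκ0
          calc κ ^ 2 = κ * κ := sq κ
            _ ≤ T * κ := h7
            _ = T * κ * 1 := (mul_one _).symm
            _ ≤ T * κ * ℓ ^ 2 := mul_le_mul_of_nonneg_left h8 h9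
        have h10 : L ^ 4 ≤ L ^ 5 := pow_le_pow_right₀ hL1 (by norm_num)
        exact mul_le_mul h6 h10 (by positivity) (by positivity)
      calc H * (κ ^ 2 / L ^ 5) ≤ H * (T * κ * ℓ ^ 2 / L ^ 4) :=
            mul_le_mul_of_nonneg_left h5 (by linarith)
        _ = _ := by ring
    have h5 := mul_le_mul_of_nonneg_left hdiag (by linarith : (0 : ℝ) ≤ H)
    have h6 := mul_le_mul_of_nonneg_left hbad (by linarith : (0 : ℝ) ≤ H)
    rw [← hκ] at hsplit
    rw [hD₁, add_mul]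
    linarith
  have hQ2 : ∑ h ∈ Icc 1 H, (rr K a b h : ℝ) ^ 2 ≤ D₂ * (H * X1 * T * ℓ / L ^ 5) := by
    have hZpos : (0 : ℝ) < X1 := by linarith
    have hlZ : 0 < Real.log X1 := by linarith
    have h2 : ∑ k ∈ K, ∑ k' ∈ K, gb C₄ H y a b k k' ≤
        C₄ * H / Real.log H ^ 4 * T * (Cρ * ℓ * (C₂ * X1 / Real.log X1)) := by
      have hlH0 : 0 < Real.log H := by linarith
      have e1 := sum_gb2 (C := C₄ * (H / Real.log H ^ 4) * (Real.log X1 ^ 4 / X1))
        (by positivity) (y := y) hXX1 hF hρ (fun m => hE m hyX1')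
      rw [hy, ← hT, ← hy] at e1
      have e2 : ∑ k ∈ K, ∑ k' ∈ K, gb C₄ H y a b k k' =
          ∑ k ∈ K, ∑ k' ∈ K, gb (C₄ * (H / Real.log H ^ 4) * (Real.log X1 ^ 4 / X1)) X1 y a b k k' :=
        Finset.sum_congr rfl fun k _ => Finset.sum_congr rfl fun k' _ => gb_scale hZpos hlZ y a b k k'
      rw [e2]
      refine e1.trans (le_of_eq ?_)
      have h4 : Real.log X1 ^ 4 / X1 * X1 / Real.log X1 ^ 4 = 1 := by
        field_simp
      calc C₄ * (H / Real.log H ^ 4) * (Real.log X1 ^ 4 / X1) * X1 / Real.log X1 ^ 4 * T *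
            (Cρ * ℓ * (C₂ * X1 / Real.log X1))
          = C₄ * H / Real.log H ^ 4 * T * (Cρ * ℓ * (C₂ * X1 / Real.log X1)) *
            (Real.log X1 ^ 4 / X1 * X1 / Real.log X1 ^ 4) := by ring
        _ = _ := by rw [h4, mul_one]
    have h3 : C₄ * H / Real.log H ^ 4 * T * (Cρ * ℓ * (C₂ * X1 / Real.log X1)) ≤
        32 * C₄ * C₂ * Cρ * (H * X1 * T * ℓ / L ^ 5) := by
      have h4 : 1 / Real.log X1 ≤ 2 / L := by
        rw [div_le_div_iff₀ (by linarith) hL0]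
        linarith
      have h5 : 1 / Real.log H ^ 4 * (1 / Real.log X1) ≤ 16 / L ^ 4 * (2 / L) :=
        mul_le_mul h16 h4 (by positivity) (by positivity)
      calc C₄ * H / Real.log H ^ 4 * T * (Cρ * ℓ * (C₂ * X1 / Real.log X1))
          = (C₄ * H * T * (Cρ * ℓ * (C₂ * X1))) *
            (1 / Real.log H ^ 4 * (1 / Real.log X1)) := by ring
        _ ≤ (C₄ * H * T * (Cρ * ℓ * (C₂ * X1))) * (16 / L ^ 4 * (2 / L)) :=
            mul_le_mul_of_nonneg_left h5 (by positivity)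
        _ = _ := by
            field_simp
            ring
    have h4 : H * (κ ^ 2 / L ^ 5) ≤ H * X1 * T * ℓ / L ^ 5 := by
      have h5 : κ ^ 2 ≤ X1 * T * ℓ := by
        have h6 : κ * κ ≤ X1 * T := mul_le_mul hκX1 hκT hκ0 (by linarith)
        have h7 : 0 ≤ (X1 : ℝ) * T := by positivity
        calc κ ^ 2 = κ * κ := sq κ
          _ ≤ X1 * T := h6
          _ = X1 * T * 1 := (mul_one _).symm
          _ ≤ X1 * T * ℓ := mul_le_mul_of_nonneg_left hℓ1 h7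
      calc H * (κ ^ 2 / L ^ 5) ≤ H * (X1 * T * ℓ / L ^ 5) := by
            apply mul_le_mul_of_nonneg_left _ (by linarith)
            exact div_le_div_of_nonneg_right h5 (by positivity)
        _ = _ := by ring
    have h5 := mul_le_mul_of_nonneg_left hdiag (by linarith : (0 : ℝ) ≤ H)
    have h6 := mul_le_mul_of_nonneg_left hbad (by linarith : (0 : ℝ) ≤ H)
    rw [← hκ] at hsplit
    rw [hD₂, add_mul]
    linarith
  have hκpos : 0 < κ := by
    refine lt_of_lt_of_le ?_ hK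
    positivity
  have hTpos : 0 < T := lt_of_lt_of_le hκpos hκT
  have hX1pos : (0 : ℝ) < X1 := by linarith
  have hHpos : (0 : ℝ) < H := by linarith
  have hℓ0 : 0 < ℓ := by linarith
  have hm : ((Icc 1 H).card : ℝ) * (c * κ / L ^ 2) ≤ (c₁ * H / L ^ 2 * T) / 2 := by
    rw [Nat.card_Icc, Nat.add_sub_cancel]
    have h2 : c * κ ≤ c₁ / 2 * T := mul_le_mul hca hκT hκ0 (by positivity)
    calc (H : ℝ) * (c * κ / L ^ 2) = H / L ^ 2 * (c * κ) := by ring
      _ ≤ H / L ^ 2 * (c₁ / 2 * T) := mul_le_mul_of_nonneg_left h2 (by positivity)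
      _ = _ := by ring
  have hA := pz (Icc 1 H) (fun h => (rr K a b h : ℝ)) h1 (by positivity) hm (by positivity) hQ1
    (by positivity)
  have hB := pz (Icc 1 H) (fun h => (rr K a b h : ℝ)) h1 (by positivity) hm (by positivity) hQ2
    (by positivity)
  have hκT2 : κ * T ≤ T ^ 2 := by
    rw [sq]
    exact mul_le_mul_of_nonneg_right hκT hT0
  have hA' : c * H * (1 / ℓ ^ 2) ≤
      (c₁ * H / L ^ 2 * T) ^ 2 / (4 * (D₁ * (H * T * κ * ℓ ^ 2 / L ^ 4))) := by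
    rw [le_div_iff₀ (by positivity)]
    have h2 : c * (4 * D₁) ≤ c₁ ^ 2 := (le_div_iff₀ (by positivity)).1 hcb
    calc c * H * (1 / ℓ ^ 2) * (4 * (D₁ * (H * T * κ * ℓ ^ 2 / L ^ 4)))
        = (c * (4 * D₁)) * (κ * T) * (H ^ 2 / L ^ 4) := by
          field_simp
      _ ≤ c₁ ^ 2 * T ^ 2 * (H ^ 2 / L ^ 4) := by
          apply mul_le_mul_of_nonneg_right _ (by positivity)
          exact mul_le_mul h2 hκT2 (by positivity) (by positivity)
      _ = (c₁ * H / L ^ 2 * T) ^ 2 := by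
          field_simp
  have hB' : c * H * (κ * L / (X1 * ℓ)) ≤
      (c₁ * H / L ^ 2 * T) ^ 2 / (4 * (D₂ * (H * X1 * T * ℓ / L ^ 5))) := by
    rw [le_div_iff₀ (by positivity)]
    have h2 : c * (4 * D₂) ≤ c₁ ^ 2 := (le_div_iff₀ (by positivity)).1 hcc
    calc c * H * (κ * L / (X1 * ℓ)) * (4 * (D₂ * (H * X1 * T * ℓ / L ^ 5)))
        = (c * (4 * D₂)) * (κ * T) * (H ^ 2 / L ^ 4) := by
          field_simp
      _ ≤ c₁ ^ 2 * T ^ 2 * (H ^ 2 / L ^ 4) := by
          apply mul_le_mul_of_nonneg_right _ (by positivity)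
          exact mul_le_mul h2 hκT2 (by positivity) (by positivity)
      _ = (c₁ * H / L ^ 2 * T) ^ 2 := by
          field_simp
  rw [mul_max_of_nonneg _ _ (by positivity)]
  exact max_le (hA'.trans hA) (hB'.trans hB)

end Pool.Agent.CSH
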