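import Mathlib
import Pool.Agent.CSH.St
import Pool.Agent.NRP.Loc
import Pool.Agent.GBQ.Sup

/-!
# CSH / Err: from primes to the model
-/

set_option autoImplicit false

namespace Pool.Agent.CSH

open Finset Filter
open Pool.Agent.GBQ (ee nd gm lam LamS zz rho pr)

/-- cut off at `T` -/
noncomputable def cutf (T : ℕ) (f : ℕ → ℝ) (n : ℕ) : ℝ := if n ≤ T then f n else 0

theorem cutf_le {T : ℕ} {f : ℕ → ℝ} {m : ℝ} (hm : 0 ≤ m) (h : ∀ n ≤ T, |f n| ≤ m) (n : ℕ) :
    |cutf T f n| ≤ m := by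
  unfold cutf
  split_ifs with h1
  · exact h n h1
  · simpa using hm

theorem cutf_eq {T : ℕ} (f : ℕ → ℝ) {n : ℕ} (h : n ≤ T) : cutf T f n = f n := if_pos h

/-- the cells of a monotone family -/
theorem cell_eq {K : Finset ℕ} {a b : ℕ → ℕ} {W V : ℕ} (hMono : Mono K a b)
    (hV : ∀ k ∈ K, b k / W ≤ V) {k k' : ℕ} (hk : k ∈ K) (hk' : k' ∈ K)
    (h : a k / W + (V - b k / W) = a k' / W + (V - b k' / W)) :
    a k / W = a k' / W ∧ b k / W = b k' / W := by
  have h1 := hV k hk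
  have h2 := hV k' hk'
  rcases lt_trichotomy k k' with h3 | h3 | h3
  · obtain ⟨h4, h5⟩ := hMono k hk k' hk' h3
    have h6 : a k / W ≤ a k' / W := Nat.div_le_div_right h4.le
    have h7 : b k' / W ≤ b k / W := Nat.div_le_div_right h5.le
    omega
  · subst h3
    exact ⟨rfl, rfl⟩
  · obtain ⟨h4, h5⟩ := hMono k' hk' k hk h3
    have h6 : a k' / W ≤ a k / W := Nat.div_le_div_right h4.le
    have h7 : b k / W ≤ b k' / W := Nat.div_le_div_right h5.le
    omega

theorem near_of_div {x y W : ℕ} (hW : 0 < W) (h : x / W = y / W) : x ≤ y + W := by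
  have h1 := Nat.div_add_mod x W
  have h2 := Nat.div_add_mod y W
  have h3 := Nat.mod_lt x hW
  rw [h] at h1
  omega

/-- the sum over the cells -/
theorem sum_cells {K : Finset ℕ} {a b : ℕ → ℕ} {W V : ℕ} (hW : 0 < W) (hMono : Mono K a b)
    (hV : ∀ k ∈ K, a k / W ≤ V ∧ b k / W ≤ V) (t : ℕ → ℝ) {P Q : ℝ} (hQ : 0 ≤ Q)
    (hcell : ∀ G : Finset ℕ, ∀ k₀ ∈ G, G ⊆ K →
      (∀ k ∈ G, a k ≤ a k₀ + W ∧ a k₀ ≤ a k + W ∧ b k ≤ b k₀ + W ∧ b k₀ ≤ b k + W) →
      ∑ k ∈ G, t k ≤ P * G.card + Real.sqrt G.card * Q) :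
    ∑ k ∈ K, t k ≤ P * K.card + Real.sqrt ((2 * V + 1 : ℕ) * K.card) * Q := by
  classical
  have hmaps : ∀ k ∈ K, a k / W + (V - b k / W) ∈ range (2 * V + 1) := by
    intro k hk
    obtain ⟨h1, h2⟩ := hV k hk
    have h3 : V - b k / W ≤ V := Nat.sub_le _ _
    rw [mem_range]
    omega
  rw [← sum_fiberwise_of_maps_to hmaps]
  have h1 : ∀ s ∈ range (2 * V + 1), ∑ k ∈ K.filter (fun k => a k / W + (V - b k / W) = s), t k ≤
      P * (K.filter (fun k => a k / W + (V - b k / W) = s)).card +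
        Real.sqrt (K.filter (fun k => a k / W + (V - b k / W) = s)).card * Q := by
    intro s _
    rcases (K.filter (fun k => a k / W + (V - b k / W) = s)).eq_empty_or_nonempty with h | ⟨k₀, hk₀⟩
    · rw [h]
      simp
    · apply hcell _ k₀ hk₀ (filter_subset _ _)
      intro k hk
      rw [mem_filter] at hk hk₀
      obtain ⟨e1, e2⟩ := cell_eq hMono (fun k hk => (hV k hk).2) hk.1 hk₀.1 (hk.2.trans hk₀.2.symm)
      exact ⟨near_of_div hW e1, near_of_div hW e1.symm, near_of_div hW e2,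
        near_of_div hW e2.symm⟩
  refine (sum_le_sum h1).trans ?_
  rw [sum_add_distrib, ← mul_sum, ← sum_mul]
  have h2 : (∑ s ∈ range (2 * V + 1),
      ((K.filter (fun k => a k / W + (V - b k / W) = s)).card : ℝ)) = K.card := by
    rw [← Nat.cast_sum, ← card_eq_sum_card_fiberwise hmaps]
  rw [h2]
  apply add_le_add le_rfl
  apply mul_le_mul_of_nonneg_right _ hQ
  have h3 := Real.sum_sqrt_mul_sqrt_le (range (2 * V + 1)) (f := fun _ => (1 : ℝ))
    (g := fun s => ((K.filter (fun k => a k / W + (V - b k / W) = s)).card : ℝ))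
    (fun _ => zero_le_one) (fun _ => Nat.cast_nonneg _)
  simp only [Real.sqrt_one, one_mul, sum_const, card_range, nsmul_eq_mul, mul_one] at h3
  rw [h2] at h3
  rw [Real.sqrt_mul (Nat.cast_nonneg _)]
  exact h3

/-- the trivial bound for one `k` -/
theorem triv {H : ℕ} {f g f' g' : ℕ → ℝ} {m : ℝ} (hm : 0 ≤ m) (a b : ℕ)
    (h : ∀ h ∈ Icc 1 H, |f (a + h)| ≤ m ∧ |g (b + h)| ≤ m ∧ |f' (a + h)| ≤ m ∧ |g' (b + h)| ≤ m) :
    |∑ h ∈ Icc 1 H, f (a + h) * g (b + h) - ∑ h ∈ Icc 1 H, f' (a + h) * g' (b + h)| ≤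
      2 * m ^ 2 * H := by
  have h1 : |∑ h ∈ Icc 1 H, f (a + h) * g (b + h)| ≤ m ^ 2 * H := by
    calc |∑ h ∈ Icc 1 H, f (a + h) * g (b + h)| ≤ ∑ h ∈ Icc 1 H, |f (a + h) * g (b + h)| :=
          abs_sum_le_sum_abs _ _
      _ ≤ ∑ _h ∈ Icc 1 H, m ^ 2 := by
          refine sum_le_sum fun x hx => ?_
          rw [abs_mul, sq]
          exact mul_le_mul (h x hx).1 (h x hx).2.1 (abs_nonneg _) hm
      _ = m ^ 2 * H := by
          rw [sum_const, Nat.card_Icc, Nat.add_sub_cancel, nsmul_eq_mul, mul_comm]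
  have h2 : |∑ h ∈ Icc 1 H, f' (a + h) * g' (b + h)| ≤ m ^ 2 * H := by
    calc |∑ h ∈ Icc 1 H, f' (a + h) * g' (b + h)| ≤ ∑ h ∈ Icc 1 H, |f' (a + h) * g' (b + h)| :=
          abs_sum_le_sum_abs _ _
      _ ≤ ∑ _h ∈ Icc 1 H, m ^ 2 := by
          refine sum_le_sum fun x hx => ?_
          rw [abs_mul, sq]
          exact mul_le_mul (h x hx).2.2.1 (h x hx).2.2.2 (abs_nonneg _) hm
      _ = m ^ 2 * H := by
          rw [sum_const, Nat.card_Icc, Nat.add_sub_cancel, nsmul_eq_mul, mul_comm]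
  calc _ ≤ |∑ h ∈ Icc 1 H, f (a + h) * g (b + h)| + |∑ h ∈ Icc 1 H, f' (a + h) * g' (b + h)| :=
        abs_sub _ _
    _ ≤ _ := by linarith

theorem card_bad {K Y : Finset ℕ} {a : ℕ → ℕ} (hinj : ∀ k ∈ K, ∀ k' ∈ K, a k = a k' → k = k') :
    (K.filter (fun k => a k ∈ Y)).card ≤ Y.card := by
  apply Finset.card_le_card_of_injOn a
  · intro k hk
    exact (mem_filter.1 hk).2
  · intro k hk k' hk' h
    exact hinj k (mem_filter.1 hk).1 k' (mem_filter.1 hk').1 h

theorem Mono.inj {K : Finset ℕ} {a b : ℕ → ℕ} (hM : Mono K a b) :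
    (∀ k ∈ K, ∀ k' ∈ K, a k = a k' → k = k') ∧ (∀ k ∈ K, ∀ k' ∈ K, b k = b k' → k = k') := by
  constructor
  · intro k hk k' hk' h
    rcases lt_trichotomy k k' with h1 | h1 | h1
    · have := (hM k hk k' hk' h1).1
      omega
    · exact h1
    · have := (hM k' hk' k hk h1).1
      omega
  · intro k hk k' hk' h
    rcases lt_trichotomy k k' with h1 | h1 | h1
    · have := (hM k hk k' hk' h1).2
      omega
    · exact h1
    · have := (hM k' hk' k hk h1).2
      omega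

theorem Mono.subset {K K' : Finset ℕ} {a b : ℕ → ℕ} (hM : Mono K a b) (h : K' ⊆ K) :
    Mono K' a b := fun k hk k' hk' => hM k (h hk) k' (h hk')

/-- deterministic form: good windows -/
theorem good_part (h1 : St_Cell) (h2 : St_CellB) {X H W z : ℕ} {K : Finset ℕ} {a b : ℕ → ℕ}
    {m S : ℝ} (hW : 0 < W) (hH : 1 ≤ H) (hHX : 2 * H ≤ X) (hm : 0 ≤ m) (hS : 0 ≤ S)
    (hab : ∀ k ∈ K, a k < b k ∧ b k ≤ X) (hMono : Mono K a b)
    (hl : ∀ n ≤ 2 * X, |lam n - LamS z n| ≤ m ∧ |lam n| ≤ m ∧ |LamS z n| ≤ m)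
    (hg : ∀ k ∈ K, ∀ α : ℝ, win z (a k) H α ≤ S ∧ win z (b k) H α ≤ S) :
    ∑ k ∈ K, |∑ h ∈ Icc 1 H, lam (a k + h) * lam (b k + h) -
      ∑ h ∈ Icc 1 H, LamS z (a k + h) * LamS z (b k + h)| ≤
      2 * (2 * W * m ^ 2 * K.card +
        Real.sqrt ((2 * (X / W) + 1 : ℕ) * K.card) * (S * (Real.sqrt (H + 4 * W) * m))) := by
  obtain ⟨g, hgd⟩ : ∃ g : ℕ → ℝ, g = cutf (2 * X) (fun n => lam n - LamS z n) := ⟨_, rfl⟩
  obtain ⟨f, hf⟩ : ∃ f : ℕ → ℝ, f = cutf (2 * X) lam := ⟨_, rfl⟩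
  obtain ⟨f', hf'⟩ : ∃ f' : ℕ → ℝ, f' = cutf (2 * X) (LamS z) := ⟨_, rfl⟩
  have hgm : ∀ n, |g n| ≤ m := by
    rw [hgd]
    exact cutf_le hm fun n hn => (hl n hn).1
  have hfm : ∀ n, |f n| ≤ m := by
    rw [hf]
    exact cutf_le hm fun n hn => (hl n hn).2.1
  have hfm' : ∀ n, |f' n| ≤ m := by
    rw [hf']
    exact cutf_le hm fun n hn => (hl n hn).2.2
  have hsplit : ∀ k ∈ K, |∑ h ∈ Icc 1 H, lam (a k + h) * lam (b k + h) -
      ∑ h ∈ Icc 1 H, LamS z (a k + h) * LamS z (b k + h)| ≤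
      |∑ h ∈ Icc 1 H, g (a k + h) * f (b k + h)| +
        |∑ h ∈ Icc 1 H, f' (a k + h) * g (b k + h)| := by
    intro k hk
    obtain ⟨e1, e2⟩ := hab k hk
    refine le_trans (le_of_eq ?_) (abs_add_le _ _)
    congr 1
    rw [← sum_sub_distrib, ← sum_add_distrib]
    refine sum_congr rfl fun h hh => ?_
    rw [mem_Icc] at hh
    rw [hgd, hf, hf', cutf_eq _ (by omega), cutf_eq _ (by omega), cutf_eq _ (by omega),
      cutf_eq _ (by omega)]
    ring
  refine (sum_le_sum hsplit).trans ?_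
  rw [sum_add_distrib, two_mul]
  have hV : ∀ k ∈ K, a k / W ≤ X / W ∧ b k / W ≤ X / W := by
    intro k hk
    obtain ⟨e1, e2⟩ := hab k hk
    exact ⟨Nat.div_le_div_right (e1.le.trans e2), Nat.div_le_div_right e2⟩
  have hQ : 0 ≤ S * (Real.sqrt (H + 4 * W) * m) := by positivity
  have hwin : ∀ y : ℕ, y ≤ X → ∀ α : ℝ,
      ‖∑ n ∈ Ioc y (y + H), ((g n : ℝ) : ℂ) * ee (α * n)‖ = win z y H α := by
    intro y hy α
    unfold win
    congr 1
    refine sum_congr rfl fun n hn => ?_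
    rw [mem_Ioc] at hn
    rw [hgd, cutf_eq _ (by omega)]
  apply add_le_add
  · apply sum_cells hW hMono hV (fun k => |∑ h ∈ Icc 1 H, g (a k + h) * f (b k + h)|) hQ
    intro G k₀ hk₀ hGK hG
    refine h1 G a b k₀ H W g f m S hk₀ hH hm hS (hMono.subset hGK)
      (fun k hk => (hab k (hGK hk)).1) hG hgm hfm ?_
    intro α
    rw [hwin _ (by have := hab k₀ (hGK hk₀); omega)]
    exact (hg k₀ (hGK hk₀) α).1
  · apply sum_cells hW hMono hV (fun k => |∑ h ∈ Icc 1 H, f' (a k + h) * g (b k + h)|) hQ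
    intro G k₀ hk₀ hGK hG
    refine h2 G a b k₀ H W g f' m S hk₀ hH hm hS (hMono.subset hGK)
      (fun k hk => (hab k (hGK hk)).1) hG hgm hfm' ?_
    intro α
    rw [hwin _ (by have := hab k₀ (hGK hk₀); omega)]
    exact (hg k₀ (hGK hk₀) α).2

theorem thm_Err (hS : St_Sup) (h1 : St_Cell) (h2 : St_CellB) : St_Err := by
  classical
  intro A ε hε
  obtain ⟨B₀, hB₀⟩ := hS (2 * A + 30) ε hε
  refine ⟨B₀, fun B hB => ?_⟩
  filter_upwards [hB₀ B hB, NRP.loc_rho B, GBQ.sup_log_ge 100, GBQ.sup_log_pow_le (A + 8),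
    eventually_ge_atTop 9] with X hSX hrho hL100 hpow hX9
  intro H K a b hH hHX hab hMono
  have hSX := hSX H hH hHX
  have hX9' : (9 : ℝ) ≤ X := by exact_mod_cast hX9
  have hX0 : (0 : ℝ) < X := by linarith
  have hX1 : (1 : ℝ) ≤ X := by linarith
  obtain ⟨L, hL⟩ : ∃ L : ℝ, L = Real.log X := ⟨_, rfl⟩
  obtain ⟨z, hz⟩ : ∃ z : ℕ, z = zz B X := ⟨_, rfl⟩
  rw [← hL, ← hz] at hSX
  rw [← hL] at hL100 hpow hrho
  rw [← hz] at hrho
  rw [← hL, ← hz]
  have hL0 : 0 < L := by linarith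
  have hL1 : 1 ≤ L := by linarith
  have hHr : (X : ℝ) ^ (1 / 6 : ℝ) ≤ H := by
    refine le_trans ?_ hH
    exact Real.rpow_le_rpow_of_exponent_le hX1 (by linarith)
  have hHE : L ^ (A + 8) ≤ H := hpow.trans hHr
  have hE0 : 0 < L ^ (A + 8) := pow_pos hL0 _
  have hE1 : 1 ≤ L ^ (A + 8) := one_le_pow₀ hL1
  have hH1 : (1 : ℝ) ≤ H := hE1.trans hHE
  have hH1' : 1 ≤ H := by exact_mod_cast hH1
  have hH0 : (0 : ℝ) < H := by linarith
  have hHX' : 2 * (H : ℝ) ≤ X := by exact_mod_cast hHX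
  -- the bounds for the functions
  have hlog2 : ∀ n : ℕ, n ≤ 2 * X → Real.log n ≤ 2 * L := by
    intro n hn
    rcases Nat.eq_zero_or_pos n with h0 | h0
    · subst h0
      simp only [Nat.cast_zero, Real.log_zero]
      linarith
    · have e1 : (n : ℝ) ≤ 2 * X := by exact_mod_cast hn
      calc Real.log n ≤ Real.log (2 * X) := Real.log_le_log (by exact_mod_cast h0) e1
        _ = Real.log 2 + Real.log X := Real.log_mul (by norm_num) hX0.ne'
        _ ≤ 2 * L := by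
            have := Real.log_two_lt_d9
            rw [← hL]
            linarith
  have hl : ∀ n ≤ 2 * X, |lam n - LamS z n| ≤ 2 * L ∧ |lam n| ≤ 2 * L ∧ |LamS z n| ≤ 2 * L := by
    intro n hn
    have e1 := GBQ.lam_nonneg n
    have e2 := (GBQ.lam_le_log n).trans (hlog2 n hn)
    have e3 := GBQ.LamS_nonneg z n
    have e4 : LamS z n ≤ L := by
      unfold LamS
      split_ifs
      · exact hrho
      · exact hL0.le
    refine ⟨abs_le.2 ⟨by linarith, by linarith⟩, abs_le.2 ⟨by linarith, e2⟩,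
      abs_le.2 ⟨by linarith, by linarith⟩⟩
  -- the bad windows
  obtain ⟨Y, hY⟩ : ∃ Y : Finset ℕ, Y = (range (2 * X + 1)).filter (fun y => ∃ α : ℝ,
    H / L ^ (2 * A + 30) < win z y H α) := ⟨_, rfl⟩
  have hYc : (Y.card : ℝ) ≤ X / L ^ (2 * A + 30) := by rw [hY]; exact hSX
  obtain ⟨K₁, hK₁⟩ : ∃ K₁ : Finset ℕ, K₁ = K.filter (fun k => a k ∈ Y ∨ b k ∈ Y) := ⟨_, rfl⟩
  obtain ⟨K₂, hK₂⟩ : ∃ K₂ : Finset ℕ, K₂ = K.filter (fun k => ¬ (a k ∈ Y ∨ b k ∈ Y)) := ⟨_, rfl⟩
  have hK₁c : (K₁.card : ℝ) ≤ 2 * (X / L ^ (2 * A + 30)) := by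
    have e1 := card_bad (Y := Y) hMono.inj.1
    have e2 := card_bad (Y := Y) hMono.inj.2
    have e3 : K₁.card ≤ Y.card + Y.card := by
      rw [hK₁, filter_or]
      exact (card_union_le _ _).trans (add_le_add e1 e2)
    have e4 : (K₁.card : ℝ) ≤ Y.card + Y.card := by exact_mod_cast e3
    linarith
  have hKX : (K₂.card : ℝ) ≤ X := by
    have e1 : K₂.card ≤ (range X).card := by
      apply Finset.card_le_card_of_injOn a
      · intro k hk
        rw [hK₂] at hk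
        have e2 := hab k (mem_filter.1 hk).1
        rw [Finset.coe_range, Set.mem_Iio]
        omega
      · intro k hk k' hk' h
        rw [hK₂] at hk hk'
        exact hMono.inj.1 k (mem_filter.1 hk).1 k' (mem_filter.1 hk').1 h
    rw [card_range] at e1
    exact_mod_cast e1
  obtain ⟨W, hW⟩ : ∃ W : ℕ, W = ⌊H / L ^ (A + 8)⌋₊ := ⟨_, rfl⟩
  have hq1 : 1 ≤ H / L ^ (A + 8) := by
    rw [le_div_iff₀ hE0, one_mul]
    exact hHE
  have hW1 : 1 ≤ W := by
    rw [hW]
    exact Nat.le_floor (by exact_mod_cast hq1)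
  have hWle : (W : ℝ) ≤ H / L ^ (A + 8) := by
    rw [hW]
    exact Nat.floor_le (by positivity)
  have hWge : H / (2 * L ^ (A + 8)) ≤ W := by
    have e1 : H / L ^ (A + 8) < W + 1 := by
      rw [hW]
      exact Nat.lt_floor_add_one _
    have e2 : (1 : ℝ) ≤ W := by exact_mod_cast hW1
    have e3 : H / (2 * L ^ (A + 8)) = H / L ^ (A + 8) / 2 := by
      field_simp
    rw [e3]
    linarith
  have hS0 : 0 ≤ H / L ^ (2 * A + 30) := by positivity
  have hgood := good_part h1 h2 (z := z) (K := K₂) (a := a) (b := b) (m := 2 * L)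
    (S := H / L ^ (2 * A + 30)) (by omega : 0 < W) hH1' hHX (by linarith) hS0
    (fun k hk => by rw [hK₂] at hk; exact hab k (mem_filter.1 hk).1)
    (hMono.subset (by rw [hK₂]; exact filter_subset _ _)) hl (by
      intro k hk α
      rw [hK₂] at hk
      obtain ⟨e1, e2⟩ := mem_filter.1 hk
      obtain ⟨e3, e4⟩ := hab k e1
      rw [not_or] at e2
      constructor
      · by_contra e5
        apply e2.1
        rw [hY, mem_filter, mem_range]
        exact ⟨by omega, α, not_le.1 e5⟩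
      · by_contra e5
        apply e2.2
        rw [hY, mem_filter, mem_range]
        exact ⟨by omega, α, not_le.1 e5⟩)
  have hbad : ∑ k ∈ K₁, |∑ h ∈ Icc 1 H, lam (a k + h) * lam (b k + h) -
      ∑ h ∈ Icc 1 H, LamS z (a k + h) * LamS z (b k + h)| ≤ K₁.card * (2 * (2 * L) ^ 2 * H) := by
    rw [← nsmul_eq_mul, ← sum_const]
    refine sum_le_sum fun k hk => ?_
    rw [hK₁] at hk
    obtain ⟨e3, e4⟩ := hab k (mem_filter.1 hk).1
    apply triv (by linarith)
    intro h hh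
    rw [mem_Icc] at hh
    exact ⟨(hl _ (by omega)).2.1, (hl _ (by omega)).2.1, (hl _ (by omega)).2.2,
      (hl _ (by omega)).2.2⟩
  have hsum : ∑ k ∈ K, |∑ h ∈ Icc 1 H, lam (a k + h) * lam (b k + h) -
      ∑ h ∈ Icc 1 H, LamS z (a k + h) * LamS z (b k + h)| =
      ∑ k ∈ K₁, |∑ h ∈ Icc 1 H, lam (a k + h) * lam (b k + h) -
        ∑ h ∈ Icc 1 H, LamS z (a k + h) * LamS z (b k + h)| +
      ∑ k ∈ K₂, |∑ h ∈ Icc 1 H, lam (a k + h) * lam (b k + h) -
        ∑ h ∈ Icc 1 H, LamS z (a k + h) * LamS z (b k + h)| := by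
    rw [hK₁, hK₂]
    exact (sum_filter_add_sum_filter_not K _ _).symm
  rw [hsum]
  -- estimates
  have hLA : 0 < L ^ A := pow_pos hL0 A
  have hXH : 0 ≤ (X : ℝ) * H := by positivity
  have hb : (K₁.card : ℝ) * (2 * (2 * L) ^ 2 * H) ≤ X * H / L ^ A / 4 := by
    calc (K₁.card : ℝ) * (2 * (2 * L) ^ 2 * H) ≤
          2 * (X / L ^ (2 * A + 30)) * (2 * (2 * L) ^ 2 * H) :=
          mul_le_mul_of_nonneg_right hK₁c (by positivity)
      _ = X * H / L ^ A * (16 / (L ^ A * L ^ 28)) := by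
          have : L ^ (2 * A + 30) = L ^ A * L ^ A * L ^ 28 * L ^ 2 := by ring
          rw [this]
          field_simp
          ring
      _ ≤ X * H / L ^ A * (1 / 4) := by
          refine mul_le_mul_of_nonneg_left ?_ (by positivity)
          rw [div_le_iff₀ (by positivity)]
          have e1 : 1 ≤ L ^ A := one_le_pow₀ hL1
          have e2 : L ^ 1 ≤ L ^ 28 := pow_le_pow_right₀ hL1 (by norm_num)
          have e3 : L ^ 28 ≤ L ^ A * L ^ 28 := le_mul_of_one_le_left (by positivity) e1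
          rw [pow_one] at e2
          linarith
      _ = _ := by ring
  have hg1 : 2 * (W : ℝ) * (2 * L) ^ 2 * K₂.card ≤ X * H / L ^ A / 8 := by
    calc 2 * (W : ℝ) * (2 * L) ^ 2 * K₂.card ≤ 2 * (H / L ^ (A + 8)) * (2 * L) ^ 2 * X := by
          apply mul_le_mul _ hKX (Nat.cast_nonneg _) (by positivity)
          apply mul_le_mul_of_nonneg_right _ (by positivity)
          linarith
      _ = X * H / L ^ A * (8 / L ^ 6) := by
          have : L ^ (A + 8) = L ^ A * L ^ 6 * L ^ 2 := by ring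
          rw [this]
          field_simp
          ring
      _ ≤ X * H / L ^ A * (1 / 8) := by
          refine mul_le_mul_of_nonneg_left ?_ (by positivity)
          rw [div_le_iff₀ (by positivity)]
          have e2 : L ^ 1 ≤ L ^ 6 := pow_le_pow_right₀ hL1 (by norm_num)
          rw [pow_one] at e2
          linarith
      _ = _ := by ring
  have hroot : Real.sqrt ((2 * (X / W) + 1 : ℕ) * K₂.card) * Real.sqrt (H + 4 * W) ≤
      X * L ^ (A + 8) := by
    rw [← Real.sqrt_mul (by positivity)]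
    apply Real.sqrt_le_iff.2
    refine ⟨by positivity, ?_⟩
    have e1 : ((X / W : ℕ) : ℝ) ≤ X / W := Nat.cast_div_le
    have hW0 : (0 : ℝ) < W := by exact_mod_cast hW1
    have e2 : (X : ℝ) / W ≤ 2 * X * L ^ (A + 8) / H := by
      rw [div_le_div_iff₀ hW0 hH0]
      rw [div_le_iff₀ (by positivity)] at hWge
      calc (X : ℝ) * H ≤ X * (W * (2 * L ^ (A + 8))) := mul_le_mul_of_nonneg_left hWge hX0.le
        _ = _ := by ring
    have e3 : (1 : ℝ) ≤ X * L ^ (A + 8) / H := by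
      rw [le_div_iff₀ hH0, one_mul]
      calc (H : ℝ) ≤ X := by linarith
        _ ≤ X * L ^ (A + 8) := le_mul_of_one_le_right hX0.le hE1
    have e4 : (((2 * (X / W) + 1 : ℕ) : ℕ) : ℝ) ≤ 5 * (X * L ^ (A + 8) / H) := by
      push_cast
      have e5 : 2 * X * L ^ (A + 8) / H = 2 * (X * L ^ (A + 8) / H) := by ring
      rw [e5] at e2
      linarith
    have e6 : (W : ℝ) ≤ H := hWle.trans (div_le_self hH0.le hE1)
    calc (((2 * (X / W) + 1 : ℕ) : ℕ) : ℝ) * K₂.card * (H + 4 * W) ≤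
          5 * (X * L ^ (A + 8) / H) * X * (5 * H) := by
          apply mul_le_mul _ (by linarith) (by positivity) (by positivity)
          exact mul_le_mul e4 hKX (Nat.cast_nonneg _) (by positivity)
      _ = 25 * (X * X * L ^ (A + 8)) := by
          field_simp
          ring
      _ ≤ L ^ (A + 8) * (X * X * L ^ (A + 8)) := by
          apply mul_le_mul_of_nonneg_right _ (by positivity)
          have e7 : L ^ 1 ≤ L ^ (A + 8) := pow_le_pow_right₀ hL1 (by omega)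
          rw [pow_one] at e7
          linarith
      _ = (X * L ^ (A + 8)) ^ 2 := by ring
  have hg2 : Real.sqrt ((2 * (X / W) + 1 : ℕ) * K₂.card) *
      (H / L ^ (2 * A + 30) * (Real.sqrt (H + 4 * W) * (2 * L))) ≤ X * H / L ^ A / 8 := by
    calc Real.sqrt ((2 * (X / W) + 1 : ℕ) * K₂.card) *
          (H / L ^ (2 * A + 30) * (Real.sqrt (H + 4 * W) * (2 * L)))
        = (Real.sqrt ((2 * (X / W) + 1 : ℕ) * K₂.card) * Real.sqrt (H + 4 * W)) *
          (H / L ^ (2 * A + 30) * (2 * L)) := by ring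
      _ ≤ X * L ^ (A + 8) * (H / L ^ (2 * A + 30) * (2 * L)) :=
          mul_le_mul_of_nonneg_right hroot (by positivity)
      _ = X * H / L ^ A * (2 / L ^ 21) := by
          have e1 : L ^ (2 * A + 30) = L ^ A * L ^ (A + 8) * L ^ 21 * L := by ring
          rw [e1]
          field_simp
      _ ≤ X * H / L ^ A * (1 / 8) := by
          refine mul_le_mul_of_nonneg_left ?_ (by positivity)
          rw [div_le_iff₀ (by positivity)]
          have e2 : L ^ 1 ≤ L ^ 21 := pow_le_pow_right₀ hL1 (by norm_num)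
          rw [pow_one] at e2
          linarith
      _ = _ := by ring
  have hfin : 0 ≤ X * H / L ^ A := by positivity
  linarith

end Pool.Agent.CSH
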