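import Pool.Agent.CSH.St
import Pool.Agent.TSH.First

set_option autoImplicit false

/-!
# CSH / First: the first moment (helper30, after TSH/First.lean)
-/

namespace Pool.Agent.CSH

open Finset Filter
open Pool.Agent.GBQ (ee nd gm lam LamS zz rho pr badPP bad_card_pp)
open Pool.Agent.TSH (Fam rr RR yL L3 lam_le_log lam_nonneg RR_mono sum_rr one_le_RR)

/-- from the weighted sum to the number of pairs of primes -/
theorem first_le {X H a b : ℕ} (hX : 1 ≤ X) (ha : a ≤ b) (hb : b + H ≤ X) :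
    ∑ h ∈ Icc 1 H, lam (a + h) * lam (b + h) ≤ Real.log X ^ 2 *
      ((((Icc 1 H).filter (fun h => (a + h).Prime ∧ (b + h).Prime)).card : ℝ) +
        6 * (Real.sqrt X * Real.log X)) := by
  classical
  have hlog : 0 ≤ Real.log X := Real.log_natCast_nonneg X
  set G := (Icc 1 H).filter (fun h => (a + h).Prime ∧ (b + h).Prime) with hG
  set B1 := (Icc 1 H).filter (fun h => a + h ∈ badPP X) with hB1
  set B2 := (Icc 1 H).filter (fun h => b + h ∈ badPP X) with hB2
  have h1 : ∀ x ∈ Icc 1 H, lam (a + x) * lam (b + x) ≤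
      Real.log X ^ 2 * ((if x ∈ G then (1 : ℝ) else 0) + (if x ∈ B1 then 1 else 0) +
        (if x ∈ B2 then 1 else 0)) := by
    intro x hx
    have hx1 := Finset.mem_Icc.1 hx
    have e1 := lam_le_log (show a + x ≤ X by omega) hX
    have e2 := lam_le_log (show b + x ≤ X by omega) hX
    have e7 := lam_nonneg (a + x)
    have e8 := lam_nonneg (b + x)
    have e11 : lam (a + x) * lam (b + x) ≤ Real.log X ^ 2 := by
      rw [sq]
      exact mul_le_mul e1 e2 e8 hlog
    have hsq : 0 ≤ Real.log X ^ 2 := sq_nonneg _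
    have i1 : (0 : ℝ) ≤ if x ∈ G then (1 : ℝ) else 0 := by split_ifs <;> norm_num
    have i2 : (0 : ℝ) ≤ if x ∈ B1 then (1 : ℝ) else 0 := by split_ifs <;> norm_num
    have i3 : (0 : ℝ) ≤ if x ∈ B2 then (1 : ℝ) else 0 := by split_ifs <;> norm_num
    by_cases h0 : lam (a + x) * lam (b + x) = 0
    · rw [h0]
      positivity
    have hx3 : lam (a + x) ≠ 0 := by
      intro h
      apply h0
      rw [h]
      ring
    have hx4 : lam (b + x) ≠ 0 := by
      intro h
      apply h0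
      rw [h]
      ring
    by_cases c1 : x ∈ B1
    · rw [if_pos c1]
      nlinarith
    by_cases c2 : x ∈ B2
    · rw [if_pos c2]
      nlinarith
    have c3 : (a + x).Prime := by
      by_contra hcon
      apply c1
      rw [hB1, mem_filter]
      refine ⟨hx, ?_⟩
      unfold badPP
      rw [mem_filter, Finset.mem_Ioc]
      exact ⟨⟨by omega, by omega⟩, hcon, hx3⟩
    have c4 : (b + x).Prime := by
      by_contra hcon
      apply c2
      rw [hB2, mem_filter]
      refine ⟨hx, ?_⟩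
      unfold badPP
      rw [mem_filter, Finset.mem_Ioc]
      exact ⟨⟨by omega, by omega⟩, hcon, hx4⟩
    have c5 : x ∈ G := by
      rw [hG, mem_filter]
      exact ⟨hx, c3, c4⟩
    rw [if_pos c5]
    nlinarith
  have h2 := Finset.sum_le_sum h1
  rw [← Finset.mul_sum, Finset.sum_add_distrib, Finset.sum_add_distrib] at h2
  have h3 : ∀ S : Finset ℕ, ∑ x ∈ Icc 1 H, (if x ∈ S then (1 : ℝ) else 0) ≤ S.card := by
    intro S
    rw [← Finset.sum_filter, Finset.sum_const, nsmul_eq_mul, mul_one]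
    exact_mod_cast Finset.card_le_card (fun x hx => (mem_filter.1 hx).2)
  have h5 : (B1.card : ℝ) ≤ 3 * (Real.sqrt X * Real.log X) := by
    refine le_trans ?_ (bad_card_pp hX)
    norm_cast
    apply Finset.card_le_card_of_injOn (fun x => a + x)
    · intro x hx
      rw [Finset.mem_coe, hB1, mem_filter] at hx
      exact hx.2
    · intro x _ x' _ h
      have h' : a + x = a + x' := h
      omega
  have h6 : (B2.card : ℝ) ≤ 3 * (Real.sqrt X * Real.log X) := by
    refine le_trans ?_ (bad_card_pp hX)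
    norm_cast
    apply Finset.card_le_card_of_injOn (fun x => b + x)
    · intro x hx
      rw [Finset.mem_coe, hB2, mem_filter] at hx
      exact hx.2
    · intro x _ x' _ h
      have h' : b + x = b + x' := h
      omega
  have hsq : 0 ≤ Real.log X ^ 2 := sq_nonneg _
  refine h2.trans ?_
  apply mul_le_mul_of_nonneg_left _ hsq
  have := h3 G
  have := h3 B1
  have := h3 B2
  linarith

theorem first_ev : ∀ᶠ X : ℕ in atTop, 192 * Real.log X ^ 3 ≤ (X : ℝ) ^ (1 / 4 : ℝ) := by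
  have h := (isLittleO_log_rpow_rpow_atTop (3 : ℝ) (show (0 : ℝ) < 1 / 4 by norm_num)).bound
    (show (0 : ℝ) < 1 / 192 by norm_num)
  filter_upwards [tendsto_natCast_atTop_atTop.eventually h] with K hK
  have e : (3 : ℝ) = ((3 : ℕ) : ℝ) := by norm_num
  rw [e, Real.rpow_natCast, Real.norm_of_nonneg (pow_nonneg (Real.log_natCast_nonneg K) 3),
    Real.norm_of_nonneg (Real.rpow_nonneg (Nat.cast_nonneg K) _)] at hK
  linarith

theorem thm_First (hE : St_Err) (hM : St_MM) : St_First := by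
  intro A ε hε
  refine ⟨1 / 32, by norm_num, ?_⟩
  obtain ⟨B₀, hB₀⟩ := hE (A + 2) ε hε
  obtain ⟨B, hB⟩ : ∃ B : ℕ, B = B₀ + 2 := ⟨_, rfl⟩
  have hlogT : Tendsto (fun X : ℕ => Real.log X) atTop atTop :=
    Real.tendsto_log_atTop.comp tendsto_natCast_atTop_atTop
  filter_upwards [hB₀ B (by omega), hM B (3 / 4 + ε) (by positivity), eventually_ge_atTop 3,
    hlogT.eventually_ge_atTop 16, first_ev,
    hlogT.eventually ((Real.isLittleO_pow_log_id_atTop (n := 2)).bound (show (0 : ℝ) < 1 / 2 by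
      norm_num))] with X hEX hMX hX3' hlog16 hev hll H Z K a b hH hHZ hZX hF hmono hK
  have hX3 : (3 : ℝ) ≤ X := by exact_mod_cast hX3'
  have hX0 : (0 : ℝ) < X := by linarith
  obtain ⟨L, hL⟩ : ∃ L : ℝ, L = Real.log X := ⟨_, rfl⟩
  rw [← hL] at hK hlog16 hev
  have hL1 : 1 ≤ L := by linarith
  have hL0 : 0 < L := by linarith
  -- sizes
  have hsq : Real.sqrt X = (X : ℝ) ^ (1 / 2 : ℝ) := Real.sqrt_eq_rpow _
  have hX34 : (X : ℝ) ^ (3 / 4 : ℝ) ≤ H := by
    refine le_trans ?_ hH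
    exact Real.rpow_le_rpow_of_exponent_le (by linarith) (by linarith)
  have hroot : 192 * (Real.sqrt X * L ^ 3) ≤ H := by
    refine le_trans ?_ hX34
    have e1 : (X : ℝ) ^ (3 / 4 : ℝ) = (X : ℝ) ^ (1 / 2 : ℝ) * (X : ℝ) ^ (1 / 4 : ℝ) := by
      rw [← Real.rpow_add hX0]
      norm_num
    rw [e1, hsq]
    have e2 : 0 ≤ (X : ℝ) ^ (1 / 2 : ℝ) := Real.rpow_nonneg hX0.le _
    calc 192 * ((X : ℝ) ^ (1 / 2 : ℝ) * L ^ 3) = (X : ℝ) ^ (1 / 2 : ℝ) * (192 * L ^ 3) := by ring
      _ ≤ _ := mul_le_mul_of_nonneg_left hev e2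
  have hs1 : 1 ≤ Real.sqrt X := by
    rw [Real.one_le_sqrt]
    linarith
  have hH192 : (192 : ℝ) ≤ H := by
    have h1 : (1 : ℝ) ≤ L ^ 3 := one_le_pow₀ hL1
    have h2 : (1 : ℝ) ≤ Real.sqrt X * L ^ 3 := by nlinarith
    linarith
  have hH192' : 192 ≤ H := by exact_mod_cast hH192
  -- the limit of the preliminary sieve
  obtain ⟨z, hz⟩ : ∃ z : ℕ, z = zz B X := ⟨_, rfl⟩
  have hzle : (z : ℝ) ≤ L ^ B := by
    rw [hz, hL]
    unfold zz
    exact Nat.floor_le (by rw [← hL]; positivity)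
  have hzge : L ^ B < z + 1 := by
    rw [hz, hL]
    unfold zz
    exact Nat.lt_floor_add_one _
  have hLB : L ≤ L ^ B := by
    calc L = L ^ 1 := (pow_one L).symm
      _ ≤ L ^ B := pow_le_pow_right₀ hL1 (by omega)
  have hz2 : 2 ≤ z := by
    have : (2 : ℝ) ≤ z := by linarith
    exact_mod_cast this
  have hyz : yL X ≤ z := by
    have h1 : (yL X : ℝ) < Real.log (Real.log X) ^ 2 + 1 := by
      unfold yL
      exact Nat.ceil_lt_add_one (by positivity)
    have h2 : Real.log (Real.log X) ^ 2 ≤ L - 2 := by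
      rw [Real.norm_of_nonneg (by positivity), id, Real.norm_of_nonneg (by rw [← hL]; exact hL0.le),
        ← hL] at hll
      rw [← hL]
      linarith
    have h3 : (yL X : ℝ) < z + 1 := by linarith
    have h4 : yL X < z + 1 := by exact_mod_cast h3
    omega
  -- the families
  have hD1 : ∀ k ∈ K, a k < b k ∧ b k ≤ X ∧ b k + H ≤ X ∧ 2 ∣ b k - a k := by
    intro k hk
    have e1 := hF.sa k hk
    have e2 := hF.lb k hk
    have e3 := hF.ub k hk
    have e4 := hF.sq k hk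
    refine ⟨by omega, by omega, by omega, ?_⟩
    have e5 : a k ≠ 2 := by
      intro h
      rw [h] at e4
      omega
    have e6 := (hF.pa k hk).eq_two_or_odd
    have e7 := (hF.pb k hk).eq_two_or_odd
    have e8 := (hF.pa k hk).two_le
    omega
  have herr := hEX H K a b hH (by omega) (fun k hk => ⟨(hD1 k hk).1, (hD1 k hk).2.1⟩) hmono
  rw [← hL, ← hz] at herr
  have hmain : ∀ k ∈ K, (H : ℝ) / 8 * RR (yL X) (b k - a k) ≤
      ∑ h ∈ Icc 1 H, LamS z (a k + h) * LamS z (b k + h) := by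
    intro k hk
    obtain ⟨e1, e2, e3, e4⟩ := hD1 k hk
    refine le_trans ?_ (hMX z hz2 (by rw [← hL]; exact hzle) H (a k) (b k) hH e1 e2 e4)
    exact mul_le_mul_of_nonneg_left (RR_mono hyz _) (by positivity)
  obtain ⟨T, hT⟩ : ∃ T : ℝ, T = ∑ k ∈ K, RR (yL X) (b k - a k) := ⟨_, rfl⟩
  obtain ⟨κ, hκ⟩ : ∃ κ : ℝ, κ = K.card := ⟨_, rfl⟩
  rw [← hκ] at hK
  have hκ0 : 0 ≤ κ := by rw [hκ]; exact Nat.cast_nonneg _
  have hκT : κ ≤ T := by
    rw [hT, hκ]
    calc (K.card : ℝ) = ∑ _k ∈ K, (1 : ℝ) := by rw [Finset.sum_const, nsmul_eq_mul, mul_one]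
      _ ≤ _ := Finset.sum_le_sum fun k _ => one_le_RR _ _
  have hup : ∑ k ∈ K, ∑ h ∈ Icc 1 H, lam (a k + h) * lam (b k + h) ≤
      L ^ 2 * (∑ h ∈ Icc 1 H, (rr K a b h : ℝ) + κ * (6 * (Real.sqrt X * L))) := by
    have h1 : ∀ k ∈ K, ∑ h ∈ Icc 1 H, lam (a k + h) * lam (b k + h) ≤ L ^ 2 *
        ((((Icc 1 H).filter (fun h => (a k + h).Prime ∧ (b k + h).Prime)).card : ℝ) +
          6 * (Real.sqrt X * L)) := by
      intro k hk
      obtain ⟨e1, e2, e3, e4⟩ := hD1 k hk
      rw [hL]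
      exact first_le (by omega) e1.le e3
    refine (Finset.sum_le_sum h1).trans (le_of_eq ?_)
    rw [sum_rr, ← Finset.mul_sum, Finset.sum_add_distrib, Finset.sum_const, nsmul_eq_mul, hκ]
  have hlow : (H : ℝ) / 8 * T - X * H / L ^ (A + 2) ≤
      ∑ k ∈ K, ∑ h ∈ Icc 1 H, lam (a k + h) * lam (b k + h) := by
    have h1 := Finset.sum_le_sum hmain
    rw [← Finset.mul_sum, ← hT] at h1
    have h2 : ∑ k ∈ K, ∑ h ∈ Icc 1 H, LamS z (a k + h) * LamS z (b k + h) -
        ∑ k ∈ K, ∑ h ∈ Icc 1 H, lam (a k + h) * lam (b k + h) ≤ X * H / L ^ (A + 2) := by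
      rw [← Finset.sum_sub_distrib]
      refine le_trans (Finset.sum_le_sum fun k _ => ?_) herr
      rw [abs_sub_comm]
      exact le_abs_self _
    linarith
  have hE1 : (X : ℝ) * H / L ^ (A + 2) ≤ H * κ / 16 := by
    have h1 : (X : ℝ) * H / L ^ (A + 2) = (X / L ^ A) * H / L ^ 2 := by
      rw [pow_add]
      field_simp
    rw [h1]
    have h2 : (16 : ℝ) ≤ L ^ 2 := by nlinarith
    calc (X / L ^ A) * H / L ^ 2 ≤ κ * H / L ^ 2 := by
          apply div_le_div_of_nonneg_right _ (by positivity)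
          exact mul_le_mul_of_nonneg_right hK (Nat.cast_nonneg _)
      _ ≤ κ * H / 16 := div_le_div_of_nonneg_left (by positivity) (by norm_num) h2
      _ = _ := by ring
  have hE2 : L ^ 2 * (κ * (6 * (Real.sqrt X * L))) ≤ H * κ / 32 := by
    calc L ^ 2 * (κ * (6 * (Real.sqrt X * L))) = κ * (192 * (Real.sqrt X * L ^ 3)) / 32 := by ring
      _ ≤ κ * H / 32 := by
          apply div_le_div_of_nonneg_right _ (by norm_num)
          exact mul_le_mul_of_nonneg_left hroot hκ0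
      _ = _ := by ring
  rw [← hT, ← hL]
  have h1 : (H : ℝ) * κ ≤ H * T := mul_le_mul_of_nonneg_left hκT (by linarith)
  have h2 : (H : ℝ) / 32 * T ≤ L ^ 2 * ∑ h ∈ Icc 1 H, (rr K a b h : ℝ) := by
    rw [mul_add] at hup
    linarith
  have h3 : 1 / 32 * (H : ℝ) / L ^ 2 * T = (H / 32 * T) / L ^ 2 := by ring
  rw [h3, div_le_iff₀ (by positivity)]
  linarith

end Pool.Agent.CSH
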