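import Pool.Agent.NRP.ModS
import Pool.Agent.NRP.MinS
import Pool.Agent.NRP.MajL
import Pool.Agent.NRP.LocD
import Pool.Agent.NRP.Loc
import Pool.Agent.LMS.All
import Pool.Agent.NRV.All
import Pool.Agent.NRW.WCls
import Pool.Agent.NRW.WMV
import Pool.Agent.NRW.WPr
import Pool.Agent.NRW.WRem
import Pool.Agent.NRW.WInt
import Pool.Agent.NRW.WOne
import Pool.Agent.NRW.WVar
import Pool.Agent.NRW.WLong
import Pool.Agent.NRW.WSm
import Pool.Agent.NRW.Sap
import Pool.Agent.SI.Asm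

/-!
# CSH: the mean square of the windows of length about `√X` (assembled from NRP)
-/

set_option autoImplicit false

namespace Pool.Agent.CSH

open Pool.Agent

theorem asm_sap : NRP.St_Sap := by
  have i : NRW.St_WInt := NRW.thm_WInt (NRW.thm_WRem NRW.thm_WPr NRW.thm_WMV SI.thm_Cof) NRV.wFaC
  have o : NRW.St_WOne := NRW.thm_WOne NRW.thm_WCls i SI.thm_Cof SI.thm_Four
  exact NRW.thm_Sap (NRW.thm_WSm (NRW.thm_WVar (SI.thm_Box SI.thm_HB) o SI.thm_Cof) NRW.thm_WLong)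

theorem asm_loc : NRP.St_Loc :=
  NRP.thm_Loc (NRP.thm_LocD (LMS.wMinL NRP.thm_MinS) (NRP.thm_MajL asm_sap NRP.thm_ModS))

end Pool.Agent.CSH
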