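import Pool.Agent.CSH.St
import Pool.Agent.NRP.A3
import Pool.Agent.TSH.FirstB

/-!
# CSH / MM: two models in a window
-/

set_option autoImplicit false

namespace Pool.Agent.CSH

open Finset Filter
open Pool.Agent.GBQ (ee nd gm lam LamS zz rho pr mem_pr Rough rho_pos rho_inv_le lsap_card lsap_sum
  lsap_ev1 lsap_ev2 thm_Esym thm_Trunc)
open Pool.Agent.TSH (Fam rr RR yL L3 Omd)
open Pool.Agent.NRP (A3_core A3_small A3_num)

/-- the bad classes modulo `p` -/
def mmOm (a b p : ℕ) : Finset ℕ := (range p).filter (fun k => p ∣ (a + k) * (b + k))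

theorem mm_mod (p a b k : ℕ) : p ∣ (a + k % p) * (b + k % p) ↔ p ∣ (a + k) * (b + k) := by
  have h1 : k % p ≡ k [MOD p] := Nat.mod_modEq k p
  have h2 : (a + k % p) * (b + k % p) ≡ (a + k) * (b + k) [MOD p] :=
    (h1.add_left a).mul (h1.add_left b)
  rw [← Nat.modEq_zero_iff_dvd, ← Nat.modEq_zero_iff_dvd]
  exact ⟨fun h => h2.symm.trans h, fun h => h2.trans h⟩

theorem mm_one (p a : ℕ) : ((range p).filter (fun k => p ∣ a + k)).card ≤ 1 := by
  rw [card_le_one]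
  intro x hx y hy
  obtain ⟨hx1, hx2⟩ := mem_filter.1 hx
  obtain ⟨hy1, hy2⟩ := mem_filter.1 hy
  have h1 : a + x ≡ a + y [MOD p] :=
    (Nat.modEq_zero_iff_dvd.2 hx2).trans (Nat.modEq_zero_iff_dvd.2 hy2).symm
  have h2 : x ≡ y [MOD p] := Nat.ModEq.add_left_cancel' a h1
  rw [Nat.ModEq, Nat.mod_eq_of_lt (mem_range.1 hx1), Nat.mod_eq_of_lt (mem_range.1 hy1)] at h2
  exact h2

theorem mm_card {p a b : ℕ} (hp : p.Prime) (hab : a ≤ b) :
    (mmOm a b p).card ≤ 1 + (Omd (b - a) p).card := by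
  classical
  by_cases hd : p ∣ b - a
  · have h1 : mmOm a b p ⊆ (range p).filter (fun k => p ∣ a + k) := by
      intro k hk
      obtain ⟨hk1, hk2⟩ := mem_filter.1 hk
      refine mem_filter.2 ⟨hk1, ?_⟩
      rcases hp.dvd_mul.1 hk2 with h | h
      · exact h
      · have e : b + k = (a + k) + (b - a) := by omega
        rw [e] at h
        exact (Nat.dvd_add_left hd).1 h
    calc (mmOm a b p).card ≤ _ := card_le_card h1
      _ ≤ 1 := mm_one p a
      _ ≤ _ := Nat.le_add_right _ _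
  · have h1 : mmOm a b p ⊆ (range p).filter (fun k => p ∣ a + k) ∪
        (range p).filter (fun k => p ∣ b + k) := by
      intro k hk
      obtain ⟨hk1, hk2⟩ := mem_filter.1 hk
      rw [mem_union, mem_filter, mem_filter]
      rcases hp.dvd_mul.1 hk2 with h | h
      · exact Or.inl ⟨hk1, h⟩
      · exact Or.inr ⟨hk1, h⟩
    have h2 : (Omd (b - a) p).card = 1 := by
      unfold Omd
      have h0 : p ≠ 0 := hp.ne_zero
      rw [if_neg (by tauto), card_singleton]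
    rw [h2]
    exact (card_le_card h1).trans ((card_union_le _ _).trans (add_le_add (mm_one p a) (mm_one p b)))

theorem mm_card2 {p a b : ℕ} (hp : p.Prime) (hab : a ≤ b) : (mmOm a b p).card ≤ 2 := by
  refine (mm_card hp hab).trans ?_
  have : (Omd (b - a) p).card ≤ 1 := by
    unfold Omd
    split_ifs <;> simp
  omega

theorem mm_prod (z a b k : ℕ) : LamS z (a + k) * LamS z (b + k) =
    (rho z)⁻¹ * (rho z)⁻¹ * (if ∀ p ∈ pr z, ¬ (k % p ∈ mmOm a b p) then (1 : ℝ) else 0) := by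
  have h1 : (∀ p ∈ pr z, ¬ (k % p ∈ mmOm a b p)) ↔
      Rough z (a + k) ∧ Rough z (b + k) := by
    constructor
    · intro h
      constructor
      · intro p hp hd
        apply h p hp
        unfold mmOm
        rw [mem_filter, mem_range, mm_mod]
        exact ⟨Nat.mod_lt _ (mem_pr.1 hp).2.pos, Dvd.dvd.mul_right hd _⟩
      · intro p hp hd
        apply h p hp
        unfold mmOm
        rw [mem_filter, mem_range, mm_mod]
        exact ⟨Nat.mod_lt _ (mem_pr.1 hp).2.pos, Dvd.dvd.mul_left hd _⟩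
    · rintro ⟨h, h'⟩ p hp hd
      unfold mmOm at hd
      rw [mem_filter, mm_mod] at hd
      rcases (mem_pr.1 hp).2.dvd_mul.1 hd.2 with h2 | h2
      · exact h p hp h2
      · exact h' p hp h2
  by_cases h2 : Rough z (a + k)
  · by_cases h3 : Rough z (b + k)
    · rw [if_pos (h1.2 ⟨h2, h3⟩), mul_one]
      unfold LamS
      rw [if_pos h2, if_pos h3]
    · rw [if_neg (fun h => h3 (h1.1 h).2), mul_zero]
      unfold LamS
      rw [if_neg h3, mul_zero]
  · rw [if_neg (fun h => h2 (h1.1 h).1), mul_zero]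
    unfold LamS
    rw [if_neg h2, zero_mul]

/-- the local factors -/
theorem mm_low {z a b : ℕ} (hab : a < b) (h2 : 2 ∣ b - a) :
    RR z (b - a) / 2 ≤ (rho z)⁻¹ * (rho z)⁻¹ *
      ∏ p ∈ pr z, (1 - ((mmOm a b p).card : ℝ) / p) := by
  have hD : b - a ≠ 0 := by omega
  have hr := rho_pos z
  have h3 := Pool.Agent.TSH.local_low (z := z) hD h2
  have h4 : rho z * ∏ p ∈ pr z, (1 - ((Omd (b - a) p).card : ℝ) / ((p : ℝ) - 1)) ≤
      ∏ p ∈ pr z, (1 - ((mmOm a b p).card : ℝ) / p) := by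
    unfold rho
    rw [← prod_mul_distrib]
    apply Finset.prod_le_prod
    · intro p hp
      have hpp : p.Prime := (mem_pr.1 hp).2
      have hp2 : (2 : ℝ) ≤ p := by exact_mod_cast hpp.two_le
      have h5 : 0 ≤ 1 - 1 / (p : ℝ) := by
        rw [sub_nonneg, div_le_one (by linarith)]
        linarith
      apply mul_nonneg h5
      by_cases hd : p ∣ b - a
      · unfold Omd
        rw [if_pos (Or.inl hd)]
        simp
      · have h0 : p ≠ 0 := hpp.ne_zero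
        unfold Omd
        rw [if_neg (by tauto), card_singleton]
        have h6 : p ≠ 2 := by
          rintro rfl
          exact hd h2
        have h7 : 3 ≤ p := by
          have := hpp.two_le
          omega
        have h8 : (3 : ℝ) ≤ p := by exact_mod_cast h7
        rw [sub_nonneg, div_le_one (by linarith)]
        push_cast
        linarith
    · intro p hp
      have hpp : p.Prime := (mem_pr.1 hp).2
      have hp2 : (2 : ℝ) ≤ p := by exact_mod_cast hpp.two_le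
      have h5 : ((mmOm a b p).card : ℝ) ≤ 1 + ((Omd (b - a) p).card : ℝ) := by
        exact_mod_cast mm_card hpp hab.le
      have h6 : (p : ℝ) ≠ 0 := by linarith
      have h7 : (p : ℝ) - 1 ≠ 0 := by
        intro h
        linarith
      have h8 : (1 - 1 / (p : ℝ)) * (1 - ((Omd (b - a) p).card : ℝ) / ((p : ℝ) - 1)) =
          1 - (1 + ((Omd (b - a) p).card : ℝ)) / p := by
        field_simp
        ring
      rw [h8]
      have h9 : ((mmOm a b p).card : ℝ) / p ≤ (1 + ((Omd (b - a) p).card : ℝ)) / p :=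
        div_le_div_of_nonneg_right h5 (by linarith)
      linarith
  refine h3.trans ?_
  have h5 := mul_le_mul_of_nonneg_left h4 (mul_nonneg (inv_pos.2 hr).le (inv_pos.2 hr).le)
  refine le_trans (le_of_eq ?_) h5
  field_simp

theorem thm_MM : St_MM := by
  intro B ε hε
  filter_upwards [thm_Trunc (1 + 2 * B + 1) B 2 (ε / 4) (by norm_num) (by positivity),
    lsap_ev1 16, lsap_ev2 16 (1 + 2 * B) (ε / 2) (by positivity), eventually_ge_atTop 1]
    with X hX1 hX2 hX3 hX4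
  intro z hz2 hzL K a b hK1 hab hbX h2
  obtain ⟨t, ht⟩ := hX1
  obtain ⟨ht1, ht2⟩ := ht z hzL
  set L := Real.log X with hL
  have hL1 : (1 : ℝ) ≤ L := by linarith
  have hXr : (1 : ℝ) ≤ X := by exact_mod_cast hX4
  have hz1 : 1 ≤ z := by omega
  obtain ⟨Om, hOm⟩ : ∃ Om : ℕ → Finset ℕ, Om = mmOm a b := ⟨_, rfl⟩
  have hOms : ∀ p ∈ pr z, Om p ⊆ range p := by
    intro p _
    rw [hOm]
    exact filter_subset _ _
  have hSp : ∀ p ∈ pr z, p.Prime := fun p hp => (mem_pr.1 hp).2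
  have hcore := A3_core (pr z) hSp Om hOms K t
  have ha0 : ∀ p ∈ pr z, 0 ≤ ((Om p).card : ℝ) / p := fun p _ => by positivity
  obtain ⟨s, hs⟩ : ∃ s : ℝ, s = ∑ p ∈ pr z, ((Om p).card : ℝ) / p := ⟨_, rfl⟩
  have hs0 : 0 ≤ s := by
    rw [hs]
    exact sum_nonneg ha0
  have hs1 : s ≤ 2 * (1 + Real.log (1 + z)) := by
    have h5 := lsap_sum (pr z) z (Subset.refl _)
    have h6 : s ≤ 2 * ∑ p ∈ pr z, 1 / (p : ℝ) := by
      rw [hs, mul_sum]
      refine sum_le_sum fun p hp => ?_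
      have h7 : ((Om p).card : ℝ) ≤ 2 := by
        have h8 := mm_card2 (a := a) (b := b) (hSp p hp) hab.le
        rw [hOm]
        exact_mod_cast h8
      have h9 : (0 : ℝ) < p := by exact_mod_cast (hSp p hp).pos
      rw [mul_one_div]
      exact div_le_div_of_nonneg_right h7 h9.le
    linarith
  have hδ := ht2 s hs0 hs1
  obtain ⟨hE1, _⟩ := thm_Esym (pr z) (fun p => ((Om p).card : ℝ) / p) ha0 (t + 1)
  obtain ⟨_, hE2⟩ := thm_Esym (pr z) (fun p => ((Om p).card : ℝ) / p) ha0 t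
  rw [← hs] at hE1 hE2
  obtain ⟨δ, hδe⟩ : ∃ δ : ℝ, δ = s ^ (t + 1) / ((t + 1).factorial : ℝ) * Real.exp s := ⟨_, rfl⟩
  have hδ1 : 0 ≤ s ^ (t + 1) / ((t + 1).factorial : ℝ) :=
    div_nonneg (pow_nonneg hs0 _) (Nat.cast_nonneg _)
  have hδ0 : 0 ≤ δ := by
    rw [hδe]
    exact mul_nonneg hδ1 (Real.exp_pos _).le
  have hE3 : s ^ (t + 1) / ((t + 1).factorial : ℝ) ≤ δ := by
    rw [hδe]
    exact le_mul_of_one_le_right hδ1 (Real.one_le_exp hs0)
  rw [← hδe] at hδ hE2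
  obtain ⟨Y, hY⟩ : ∃ Y : ℝ, Y = (X : ℝ) ^ (ε / 4 : ℝ) := ⟨_, rfl⟩
  have hY0 : 0 < Y := by
    rw [hY]
    exact Real.rpow_pos_of_pos (by linarith) _
  rw [← hY] at ht1
  have hK0 : (0 : ℝ) ≤ K := Nat.cast_nonneg _
  have hB1 : ∑ T ∈ (pr z).powerset.filter (fun T => T.card ≤ t), ((∏ p ∈ T, p : ℕ) : ℝ) ≤ Y * Y :=
    A3_small (pr z) z t hz1 (Subset.refl _) Y ht1 _ fun T hT =>
      ⟨mem_powerset.1 (mem_filter.1 hT).1, (mem_filter.1 hT).2.trans (Nat.le_succ t)⟩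
  have hB3 : ∑ T ∈ (pr z).powersetCard (t + 1), ((∏ p ∈ T, p : ℕ) : ℝ) ≤ Y * Y :=
    A3_small (pr z) z t hz1 (Subset.refl _) Y ht1 _ fun T hT =>
      ⟨(mem_powersetCard.1 hT).1, (mem_powersetCard.1 hT).2.le⟩
  have hB2 : ∑ T ∈ (pr z).powersetCard (t + 1), ((K : ℝ) * ∏ p ∈ T, ((Om p).card : ℝ) / p +
          ((∏ p ∈ T, p : ℕ) : ℝ)) ≤ K * δ + Y * Y := by
    rw [sum_add_distrib, ← mul_sum]
    exact add_le_add (mul_le_mul_of_nonneg_left (hE1.trans hE3) hK0) hB3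
  have hbound : |∑ k ∈ Icc 1 K, (if ∀ p ∈ pr z, ¬ (k % p ∈ Om p) then (1 : ℝ) else 0) -
      K * ∏ p ∈ pr z, (1 - ((Om p).card : ℝ) / p)| ≤ Y * Y + (K * δ + Y * Y) + K * δ := by
    refine hcore.trans (add_le_add (add_le_add hB1 hB2) ?_)
    exact mul_le_mul_of_nonneg_left hE2 hK0
  have hrho := rho_pos z
  have hri : 0 < (rho z)⁻¹ := inv_pos.2 hrho
  have e2 : ∑ k ∈ Icc 1 K, LamS z (a + k) * LamS z (b + k) =
      (rho z)⁻¹ * (rho z)⁻¹ * ∑ k ∈ Icc 1 K,
        (if ∀ p ∈ pr z, ¬ (k % p ∈ Om p) then (1 : ℝ) else 0) := by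
    rw [mul_sum]
    refine sum_congr rfl fun k _ => ?_
    rw [mm_prod, hOm]
  have hYK : 16 * L ^ (1 + 2 * B) * (Y * Y) ≤ K := by
    have h5 : Y * Y = (X : ℝ) ^ (ε / 2 : ℝ) := by
      rw [hY, ← Real.rpow_add (by linarith)]
      congr 1
      ring
    calc 16 * L ^ (1 + 2 * B) * (Y * Y) ≤ (X : ℝ) ^ (ε / 2 : ℝ) * (Y * Y) :=
          mul_le_mul_of_nonneg_right hX3 (mul_nonneg hY0.le hY0.le)
      _ = (X : ℝ) ^ ε := by
          rw [h5, ← Real.rpow_add (by linarith)]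
          congr 1
          ring
      _ ≤ K := hK1
  have hzr : (0 : ℝ) ≤ z := Nat.cast_nonneg _
  have hz3 : (0 : ℝ) ≤ (z : ℝ) + 1 := by linarith
  obtain ⟨Sg, hSg⟩ : ∃ Sg : ℝ, Sg = ∑ k ∈ Icc 1 K,
    (if ∀ p ∈ pr z, ¬ (k % p ∈ Om p) then (1 : ℝ) else 0) := ⟨_, rfl⟩
  obtain ⟨V, hV⟩ : ∃ V : ℝ, V = ∏ p ∈ pr z, (1 - ((Om p).card : ℝ) / p) := ⟨_, rfl⟩
  rw [← hSg, ← hV] at hbound
  have herr : (rho z)⁻¹ * (rho z)⁻¹ * |Sg - K * V| ≤ K / L ^ 1 := by
    have h20 : (rho z)⁻¹ * (rho z)⁻¹ * |Sg - K * V| ≤ (((z : ℝ) + 1) * ((z : ℝ) + 1)) *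
        (Y * Y + (K * δ + Y * Y) + K * δ) := by
      refine mul_le_mul ?_ hbound (abs_nonneg _) (mul_nonneg hz3 hz3)
      exact mul_le_mul (rho_inv_le z) (rho_inv_le z) hri.le hz3
    exact h20.trans (A3_num hK0 hX2 hzr hzL hY0.le hYK hδ0 hδ)
  have hlow := mm_low (z := z) hab h2
  rw [← hOm, ← hV] at hlow
  have hRR := Pool.Agent.TSH.one_le_RR z (b - a)
  rw [e2, ← hSg]
  have h6 : K / L ^ 1 ≤ (K : ℝ) / 16 := by
    rw [pow_one]
    exact div_le_div_of_nonneg_left hK0 (by norm_num) hX2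
  have h7 : (rho z)⁻¹ * (rho z)⁻¹ * (K * V) - (rho z)⁻¹ * (rho z)⁻¹ * |Sg - K * V| ≤
      (rho z)⁻¹ * (rho z)⁻¹ * Sg := by
    rw [← mul_sub]
    apply mul_le_mul_of_nonneg_left _ (mul_pos hri hri).le
    have := neg_abs_le (Sg - K * V)
    linarith
  have h8 : (K : ℝ) * (RR z (b - a) / 2) ≤ (rho z)⁻¹ * (rho z)⁻¹ * (K * V) := by
    have := mul_le_mul_of_nonneg_left hlow hK0
    calc (K : ℝ) * (RR z (b - a) / 2) ≤ K * ((rho z)⁻¹ * (rho z)⁻¹ * V) := this
      _ = _ := by ring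
  have h9 : (K : ℝ) / 16 ≤ K / 16 * RR z (b - a) :=
    le_mul_of_one_le_right (by positivity) hRR
  have h10 : 0 ≤ (K : ℝ) / 16 * RR z (b - a) := by
    have : (0 : ℝ) ≤ (K : ℝ) / 16 := by positivity
    linarith
  have h11 : (K : ℝ) / 8 * RR z (b - a) = 2 * (K / 16 * RR z (b - a)) := by ring
  have h12 : (K : ℝ) * (RR z (b - a) / 2) = 8 * (K / 16 * RR z (b - a)) := by ring
  linarith

end Pool.Agent.CSH
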