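import Pool.Agent.CSH.St
import Pool.Agent.GBQ.Basic

/-!
# CSH / MajA: a long window from its pieces of length `L`
-/

set_option autoImplicit false

namespace Pool.Agent.CSH

open Finset Filter
open Pool.Agent.GBQ (ee)

theorem majA_ee_sub_one (x : ℝ) : ‖ee x - 1‖ ≤ 2 * Real.pi * |x| := by
  unfold ee
  have h := Real.norm_exp_I_mul_ofReal_sub_one_le (x := 2 * Real.pi * x)
  have h2 : Complex.I * ((2 * Real.pi * x : ℝ) : ℂ) = ((2 * Real.pi * x : ℝ) : ℂ) * Complex.I :=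
    mul_comm _ _
  rw [h2] at h
  refine h.trans (le_of_eq ?_)
  rw [Real.norm_eq_abs, abs_mul, abs_of_pos (by positivity)]

/-- averaging over the position of the pieces -/
theorem majA_avg (G : ℕ → ℂ) (y H L : ℕ) (m : ℝ) (hL : 1 ≤ L) (hLH : L ≤ H)
    (hm : ∀ n ∈ Ioc y (y + H), ‖G n‖ ≤ m) :
    (L : ℝ) * ‖∑ n ∈ Ioc y (y + H), G n‖ ≤
      ∑ x ∈ Ico y (y + H - L + 1), ‖∑ n ∈ Ioc x (x + L), G n‖ + L * (L * m) := by
  have hm0 : 0 ≤ m := by
    have := hm (y + 1) (by rw [mem_Ioc]; omega)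
    exact (norm_nonneg _).trans this
  -- exchange of the order
  have e1 : ∑ x ∈ Ico y (y + H - L + 1), ∑ n ∈ Ioc x (x + L), G n =
      ∑ i ∈ Icc 1 L, ∑ n ∈ Ioc (y + i - 1) (y + i + H - L), G n := by
    have h1 : ∀ x ∈ Ico y (y + H - L + 1), ∑ n ∈ Ioc x (x + L), G n = ∑ i ∈ Icc 1 L, G (x + i) := by
      intro x _
      have : Ioc x (x + L) = (Icc 1 L).image (fun i => x + i) := by
        ext n
        rw [mem_Ioc, mem_image]
        constructor
        · intro h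
          exact ⟨n - x, by rw [mem_Icc]; omega, by omega⟩
        · rintro ⟨i, hi, rfl⟩
          rw [mem_Icc] at hi
          omega
      rw [this, sum_image (fun a _ b _ h => by
        have : x + a = x + b := h
        omega)]
    rw [sum_congr rfl h1, sum_comm]
    refine sum_congr rfl fun i hi => ?_
    rw [mem_Icc] at hi
    have : Ioc (y + i - 1) (y + i + H - L) = (Ico y (y + H - L + 1)).image (fun x => x + i) := by
      ext n
      rw [mem_Ioc, mem_image]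
      constructor
      · intro h
        exact ⟨n - i, by rw [mem_Ico]; omega, by omega⟩
      · rintro ⟨x, hx, rfl⟩
        rw [mem_Ico] at hx
        omega
    rw [this, sum_image (fun a _ b _ h => by
      have : a + i = b + i := h
      omega)]
  have e2 : ∀ i ∈ Icc 1 L, ‖∑ n ∈ Ioc y (y + H), G n -
      ∑ n ∈ Ioc (y + i - 1) (y + i + H - L), G n‖ ≤ L * m := by
    intro i hi
    rw [mem_Icc] at hi
    have hsub : Ioc (y + i - 1) (y + i + H - L) ⊆ Ioc y (y + H) := by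
      intro n hn
      rw [mem_Ioc] at hn ⊢
      omega
    have h1 : ∑ n ∈ Ioc y (y + H), G n - ∑ n ∈ Ioc (y + i - 1) (y + i + H - L), G n =
        ∑ n ∈ Ioc y (y + H) \ Ioc (y + i - 1) (y + i + H - L), G n := by
      rw [← Finset.sum_sdiff hsub]
      ring
    rw [h1]
    refine (norm_sum_le _ _).trans ?_
    have h2 : (Ioc y (y + H) \ Ioc (y + i - 1) (y + i + H - L)).card ≤ L := by
      rw [Finset.card_sdiff_of_subset hsub, Nat.card_Ioc, Nat.card_Ioc]
      omega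
    calc ∑ n ∈ Ioc y (y + H) \ Ioc (y + i - 1) (y + i + H - L), ‖G n‖
        ≤ ∑ _n ∈ Ioc y (y + H) \ Ioc (y + i - 1) (y + i + H - L), m :=
          sum_le_sum fun n hn => hm n (Finset.mem_sdiff.1 hn).1
      _ = (Ioc y (y + H) \ Ioc (y + i - 1) (y + i + H - L)).card * m := by
          rw [sum_const, nsmul_eq_mul]
      _ ≤ L * m := mul_le_mul_of_nonneg_right (by exact_mod_cast h2) hm0
  have e3 : (L : ℂ) * ∑ n ∈ Ioc y (y + H), G n =
      ∑ i ∈ Icc 1 L, (∑ n ∈ Ioc y (y + H), G n - ∑ n ∈ Ioc (y + i - 1) (y + i + H - L), G n) +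
        ∑ x ∈ Ico y (y + H - L + 1), ∑ n ∈ Ioc x (x + L), G n := by
    rw [e1, sum_sub_distrib, sum_const, Nat.card_Icc, nsmul_eq_mul]
    simp
  have e4 : (L : ℝ) * ‖∑ n ∈ Ioc y (y + H), G n‖ = ‖(L : ℂ) * ∑ n ∈ Ioc y (y + H), G n‖ := by
    rw [norm_mul, Complex.norm_natCast]
  rw [e4, e3]
  refine (norm_add_le _ _).trans ?_
  have e5 : ‖∑ i ∈ Icc 1 L, (∑ n ∈ Ioc y (y + H), G n -
      ∑ n ∈ Ioc (y + i - 1) (y + i + H - L), G n)‖ ≤ L * (L * m) := by
    refine (norm_sum_le _ _).trans ((sum_le_sum e2).trans ?_)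
    rw [sum_const, Nat.card_Icc, nsmul_eq_mul]
    simp
  have e6 : ‖∑ x ∈ Ico y (y + H - L + 1), ∑ n ∈ Ioc x (x + L), G n‖ ≤
      ∑ x ∈ Ico y (y + H - L + 1), ‖∑ n ∈ Ioc x (x + L), G n‖ := norm_sum_le _ _
  linarith

/-- the window for `α` from the pieces for `β` -/
theorem majA_win (g : ℕ → ℝ) (y H L : ℕ) (α β m : ℝ) (hL : 1 ≤ L) (hLH : L ≤ H)
    (hm : ∀ n ∈ Ioc y (y + H), |g n| ≤ m) :
    (L : ℝ) * ‖∑ n ∈ Ioc y (y + H), ((g n : ℝ) : ℂ) * ee (α * n)‖ ≤
      ∑ x ∈ Ico y (y + H - L + 1), ‖∑ n ∈ Ioc x (x + L), ((g n : ℝ) : ℂ) * ee (β * n)‖ +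
        H * (L * (m * (2 * Real.pi * (|α - β| * L)))) + L * (L * m) := by
  have hm0 : 0 ≤ m := by
    have := hm (y + 1) (by rw [mem_Ioc]; omega)
    exact (abs_nonneg _).trans this
  have h1 := majA_avg (fun n => ((g n : ℝ) : ℂ) * ee (α * n)) y H L m hL hLH (by
    intro n hn
    rw [norm_mul, Pool.Agent.GBQ.ee_norm, mul_one, Complex.norm_real, Real.norm_eq_abs]
    exact hm n hn)
  refine h1.trans ?_
  have h2 : ∀ x ∈ Ico y (y + H - L + 1), ‖∑ n ∈ Ioc x (x + L), ((g n : ℝ) : ℂ) * ee (α * n)‖ ≤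
      ‖∑ n ∈ Ioc x (x + L), ((g n : ℝ) : ℂ) * ee (β * n)‖ +
        L * (m * (2 * Real.pi * (|α - β| * L))) := by
    intro x hx
    rw [mem_Ico] at hx
    have e1 : ∑ n ∈ Ioc x (x + L), ((g n : ℝ) : ℂ) * ee (α * n) =
        ee ((α - β) * x) * ∑ n ∈ Ioc x (x + L), ((g n : ℝ) : ℂ) * ee (β * n) +
        ∑ n ∈ Ioc x (x + L), ((g n : ℝ) : ℂ) * (ee ((α - β) * x) * ee (β * n)) *
          (ee ((α - β) * ((n : ℝ) - x)) - 1) := by
      rw [mul_sum, ← sum_add_distrib]
      refine sum_congr rfl fun n _ => ?_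
      have : ee (α * n) = ee ((α - β) * x) * ee (β * n) * ee ((α - β) * ((n : ℝ) - x)) := by
        rw [← Pool.Agent.GBQ.ee_add, ← Pool.Agent.GBQ.ee_add]
        congr 1
        ring
      rw [this]
      ring
    rw [e1]
    refine (norm_add_le _ _).trans ?_
    rw [norm_mul, Pool.Agent.GBQ.ee_norm, one_mul]
    have e2 : ‖∑ n ∈ Ioc x (x + L), ((g n : ℝ) : ℂ) * (ee ((α - β) * x) * ee (β * n)) *
          (ee ((α - β) * ((n : ℝ) - x)) - 1)‖ ≤ L * (m * (2 * Real.pi * (|α - β| * L))) := by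
      refine (norm_sum_le _ _).trans ?_
      have e3 : ∀ n ∈ Ioc x (x + L), ‖((g n : ℝ) : ℂ) * (ee ((α - β) * x) * ee (β * n)) *
          (ee ((α - β) * ((n : ℝ) - x)) - 1)‖ ≤ m * (2 * Real.pi * (|α - β| * L)) := by
        intro n hn
        rw [mem_Ioc] at hn
        rw [norm_mul, norm_mul, norm_mul, Pool.Agent.GBQ.ee_norm, Pool.Agent.GBQ.ee_norm, mul_one,
          mul_one, Complex.norm_real, Real.norm_eq_abs]
        have f1 : |g n| ≤ m := hm n (by rw [mem_Ioc]; omega)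
        have f2 := majA_ee_sub_one ((α - β) * ((n : ℝ) - x))
        have f3 : |(α - β) * ((n : ℝ) - x)| ≤ |α - β| * L := by
          rw [abs_mul]
          apply mul_le_mul_of_nonneg_left _ (abs_nonneg _)
          rw [abs_le]
          have g1 : (x : ℝ) < n := by exact_mod_cast hn.1
          have g2 : (n : ℝ) ≤ x + L := by exact_mod_cast hn.2
          constructor <;> linarith [(Nat.cast_nonneg L : (0 : ℝ) ≤ L)]
        have f4 : ‖ee ((α - β) * ((n : ℝ) - x)) - 1‖ ≤ 2 * Real.pi * (|α - β| * L) :=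
          f2.trans (mul_le_mul_of_nonneg_left f3 (by positivity))
        exact mul_le_mul f1 f4 (norm_nonneg _) hm0
      refine (sum_le_sum e3).trans ?_
      rw [sum_const, Nat.card_Ioc, nsmul_eq_mul]
      simp
    linarith
  have h3 := sum_le_sum h2
  rw [sum_add_distrib, sum_const, Nat.card_Ico, nsmul_eq_mul] at h3
  have h4 : ((y + H - L + 1 - y : ℕ) : ℝ) ≤ H := by
    exact_mod_cast (show y + H - L + 1 - y ≤ H by omega)
  have h5 : ((y + H - L + 1 - y : ℕ) : ℝ) * (L * (m * (2 * Real.pi * (|α - β| * L)))) ≤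
      H * (L * (m * (2 * Real.pi * (|α - β| * L)))) :=
    mul_le_mul_of_nonneg_right h4 (by positivity)
  linarith

end Pool.Agent.CSH
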