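import Pool.Agent.CSH.St
import Pool.Agent.CSH.MajA
import Pool.Agent.NRP.Loc

/-!
# CSH / Maj: major arcs, almost all windows
-/

set_option autoImplicit false

namespace Pool.Agent.CSH

open Finset Filter
open Pool.Agent.GBQ (ee nd gm lam LamS zz rho pr)
open Pool.Agent.NRP (gI)

/-- the mean square over the full pieces -/
private theorem maj_sum_sq (z X L : ℕ) (β R : ℝ)
    (hR : ∑' x : ℤ, ‖∑ n ∈ Ioc x (x + L), ((gI z 0 (3 * X) n : ℝ) : ℂ) * ee (β * n)‖ ^ 2 ≤ R) :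
    ∑ x ∈ range (3 * X + 1 - L),
      ‖∑ n ∈ Ioc x (x + L), ((lam n - LamS z n : ℝ) : ℂ) * ee (β * n)‖ ^ 2 ≤ R := by
  set F : ℤ → ℝ := fun x => ‖∑ n ∈ Ioc x (x + L), ((gI z 0 (3 * X) n : ℝ) : ℂ) * ee (β * n)‖ ^ 2
    with hF
  have hsum : Summable F := by
    apply summable_of_ne_finset_zero (s := Icc (-(L : ℤ)) ((3 * X : ℕ) : ℤ))
    intro x hx
    simp only [hF]
    rw [Pool.Agent.NRP.loc_zero z 0 (3 * X) L β x (by
      rw [mem_Icc] at hx
      push_cast at hx ⊢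
      omega)]
    simp
  have h1 : ∑ x ∈ (range (3 * X + 1 - L)).image (fun x : ℕ => (x : ℤ)), F x ≤ ∑' x : ℤ, F x :=
    hsum.sum_le_tsum _ (fun x _ => by positivity)
  rw [sum_image (fun a _ b _ h => by exact_mod_cast h)] at h1
  refine le_trans (le_of_eq ?_) (h1.trans hR)
  refine sum_congr rfl fun x hx => ?_
  rw [mem_range] at hx
  simp only [hF]
  rw [Pool.Agent.NRP.loc_full z 0 (3 * X) L β x (Nat.zero_le _) (by omega)]

private theorem maj_markov (P : ℕ → ℝ) (hP : ∀ x, 0 ≤ P x) (X H L : ℕ) (S t : ℝ)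
    (hS : ∑ x ∈ range (3 * X + 1 - L), P x ≤ S) (hX : 2 * H ≤ X) (hL : 1 ≤ L) (hLH : L ≤ H) :
    (((range (2 * X + 1)).filter
      (fun y => t < ∑ x ∈ Ico y (y + H - L + 1), P x)).card : ℝ) * t ≤ H * S := by
  have h1 : (((range (2 * X + 1)).filter
      (fun y => t < ∑ x ∈ Ico y (y + H - L + 1), P x)).card : ℝ) * t ≤
      ∑ y ∈ range (2 * X + 1), ∑ x ∈ Ico y (y + H - L + 1), P x := by
    calc (((range (2 * X + 1)).filter
        (fun y => t < ∑ x ∈ Ico y (y + H - L + 1), P x)).card : ℝ) * t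
        = ∑ _y ∈ (range (2 * X + 1)).filter
          (fun y => t < ∑ x ∈ Ico y (y + H - L + 1), P x), t := by
          rw [sum_const, nsmul_eq_mul]
      _ ≤ ∑ y ∈ (range (2 * X + 1)).filter
          (fun y => t < ∑ x ∈ Ico y (y + H - L + 1), P x), ∑ x ∈ Ico y (y + H - L + 1), P x :=
          sum_le_sum fun y hy => (mem_filter.1 hy).2.le
      _ ≤ _ := sum_le_sum_of_subset_of_nonneg (filter_subset _ _)
          (fun y _ _ => sum_nonneg fun x _ => hP x)
  refine h1.trans ?_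
  have h2 : ∀ y ∈ range (2 * X + 1), ∑ x ∈ Ico y (y + H - L + 1), P x =
      ∑ x ∈ range (3 * X + 1 - L), if y ≤ x ∧ x < y + H - L + 1 then P x else 0 := by
    intro y hy
    rw [mem_range] at hy
    rw [← sum_filter]
    refine sum_congr ?_ fun _ _ => rfl
    ext x
    rw [mem_Ico, mem_filter, mem_range]
    omega
  rw [sum_congr rfl h2, sum_comm]
  have h3 : ∀ x ∈ range (3 * X + 1 - L),
      ∑ y ∈ range (2 * X + 1), (if y ≤ x ∧ x < y + H - L + 1 then P x else 0) ≤ H * P x := by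
    intro x _
    rw [← sum_filter, sum_const, nsmul_eq_mul]
    apply mul_le_mul_of_nonneg_right _ (hP x)
    have h4 : (range (2 * X + 1)).filter (fun y => y ≤ x ∧ x < y + H - L + 1) ⊆
        Icc (x + L - H) x := by
      intro y hy
      rw [mem_filter] at hy
      rw [mem_Icc]
      omega
    have h5 := card_le_card h4
    rw [Nat.card_Icc] at h5
    have h6 : ((range (2 * X + 1)).filter (fun y => y ≤ x ∧ x < y + H - L + 1)).card ≤ H := by
      omega
    exact_mod_cast h6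
  refine (sum_le_sum h3).trans ?_
  rw [← mul_sum]
  exact mul_le_mul_of_nonneg_left hS (Nat.cast_nonneg _)

/-- the frequency `a / q` depends on `a` modulo `q` only -/
private theorem maj_freq (a : ℤ) (q n : ℕ) (hq : 1 ≤ q) :
    ee ((a : ℝ) / q * n) = ee ((((a % (q : ℤ)).toNat : ℕ) : ℝ) / q * n) := by
  have hq0 : (q : ℝ) ≠ 0 := by positivity
  have h1 : 0 ≤ a % (q : ℤ) := Int.emod_nonneg _ (by omega)
  have h2 : (((a % (q : ℤ)).toNat : ℕ) : ℤ) = a % q := Int.toNat_of_nonneg h1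
  have h3 : (((a % (q : ℤ)).toNat : ℕ) : ℝ) = ((a % (q : ℤ) : ℤ) : ℝ) := by
    exact_mod_cast congrArg (fun z : ℤ => (z : ℝ)) h2
  have h4 : (a : ℝ) = q * ((a / q : ℤ) : ℝ) + ((a % (q : ℤ) : ℤ) : ℝ) := by
    have := Int.mul_ediv_add_emod a q
    exact_mod_cast this.symm
  rw [h3]
  have h5 : (a : ℝ) / q * n = ((a % (q : ℤ) : ℤ) : ℝ) / q * n + (((a / q : ℤ) * (n : ℤ) : ℤ) : ℝ) := by
    rw [h4]
    push_cast
    field_simp
    ring
  rw [h5, Pool.Agent.GBQ.ee_add_int]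

open Classical in
theorem thm_Maj (h : Pool.Agent.NRP.St_Loc) : St_Maj := by
  intro A D ε hε
  set E := 2 * A + 2 * D + 1 with hE
  obtain ⟨B₀, hB₀⟩ := h (2 * E) 1
  refine ⟨B₀, ?_⟩
  intro B hB
  have hlog : Tendsto (fun X : ℕ => Real.log X) atTop atTop :=
    Real.tendsto_log_atTop.comp tendsto_natCast_atTop_atTop
  have hpow : ∀ k : ℕ, ∀ c s : ℝ, 0 < c → 0 < s → ∀ᶠ X : ℕ in atTop,
      c * Real.log X ^ k ≤ (X : ℝ) ^ s := by
    intro k c s hc hs
    have h1 : ∀ᶠ x : ℝ in atTop, c * Real.log x ^ k ≤ x ^ s := by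
      have h2 := (isLittleO_log_rpow_rpow_atTop (s := s) (k : ℝ) hs).def
        (c := 1 / c) (by positivity)
      filter_upwards [h2, eventually_ge_atTop (1 : ℝ)] with x hx hx1
      have hl := Real.log_nonneg hx1
      rw [Real.rpow_natCast, Real.norm_eq_abs, Real.norm_eq_abs,
        abs_of_nonneg (pow_nonneg hl k), abs_of_nonneg (by positivity)] at hx
      calc c * Real.log x ^ k ≤ c * (1 / c * x ^ s) :=
            mul_le_mul_of_nonneg_left hx hc.le
        _ = x ^ s := by field_simp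
    exact tendsto_natCast_atTop_atTop.eventually h1
  filter_upwards [hB₀ B hB, Pool.Agent.NRP.loc_rho B, hpow (A + 1) (16 * Real.pi) ε (by positivity) hε,
    hpow (A + 1) 8 (1 / 4 + ε) (by norm_num) (by positivity),
    hlog.eventually (eventually_ge_atTop (4 : ℝ)), eventually_ge_atTop 16]
    with X hloc hr hp1 hp2 hl hX16
  intro H hH1 hH2
  set ℓ := Real.log X with hℓ
  have hℓ0 : 0 < ℓ := by linarith
  have hX0 : (0 : ℝ) < X := by positivity
  have hX16' : (16 : ℝ) ≤ X := by exact_mod_cast hX16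
  set L := Nat.sqrt X with hLdef
  have hL1 : 1 ≤ L := by
    rw [hLdef]
    exact Nat.sqrt_pos.2 (by omega)
  have hLs : (L : ℝ) ≤ Real.sqrt X := Real.nat_sqrt_le_real_sqrt
  have hLs2 : Real.sqrt X ≤ L + 1 := Real.real_sqrt_le_nat_sqrt_succ
  have hs4 : (4 : ℝ) ≤ Real.sqrt X := by
    rw [show (4 : ℝ) = Real.sqrt 16 by
      rw [show (16 : ℝ) = 4 ^ 2 by norm_num, Real.sqrt_sq (by norm_num)]]
    exact Real.sqrt_le_sqrt hX16'
  have hsqrt : Real.sqrt X = (X : ℝ) ^ (1 / 2 : ℝ) := Real.sqrt_eq_rpow _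
  have hX34 : (X : ℝ) ^ (3 / 4 + ε) = Real.sqrt X * (X : ℝ) ^ (1 / 4 + ε) := by
    rw [hsqrt, ← Real.rpow_add hX0]
    congr 1
    ring
  -- H is large against L
  have hHL : 8 * ℓ ^ (A + 1) * L ≤ H := by
    calc 8 * ℓ ^ (A + 1) * L ≤ (X : ℝ) ^ (1 / 4 + ε) * Real.sqrt X :=
          mul_le_mul hp2 hLs (Nat.cast_nonneg _) (by positivity)
      _ = (X : ℝ) ^ (3 / 4 + ε) := by rw [hX34, mul_comm]
      _ ≤ H := hH1
  have hℓpow : (1 : ℝ) ≤ ℓ ^ (A + 1) := one_le_pow₀ (by linarith)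
  have hLH : L ≤ H := by
    have : (L : ℝ) ≤ H := by
      refine le_trans ?_ hHL
      have : (0 : ℝ) ≤ L := Nat.cast_nonneg _
      nlinarith
    exact_mod_cast this
  have hH0 : (0 : ℝ) < H := by
    have : 1 ≤ H := hL1.trans hLH
    positivity
  have hL0 : (0 : ℝ) < L := by positivity
  -- bound for the function
  have hg : ∀ y ∈ range (2 * X + 1), ∀ n ∈ Ioc y (y + H),
      |(lam n - LamS (zz B X) n : ℝ)| ≤ 2 * ℓ := by
    intro y hy n hn
    rw [mem_range] at hy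
    rw [mem_Ioc] at hn
    have h1 := Pool.Agent.NRP.loc_gI (zz B X) 0 (3 * X) X (by omega) le_rfl hr (n : ℤ)
    unfold Pool.Agent.NRP.gI Pool.Agent.NRP.lamZ Pool.Agent.NRP.LamZ at h1
    rw [if_pos (by constructor <;> omega), if_pos (by omega), Int.toNat_natCast] at h1
    exact h1
  -- the pieces
  set P : ℕ → ℕ → ℕ → ℝ := fun q a x =>
    ‖∑ n ∈ Ioc x (x + L), ((lam n - LamS (zz B X) n : ℝ) : ℂ) * ee ((a : ℝ) / q * n)‖ with hP
  have hPsum : ∀ q a : ℕ, ∑ x ∈ range (3 * X + 1 - L), P q a x ≤ 2 * X * L / ℓ ^ E := by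
    intro q a
    have h1 := maj_sum_sq (zz B X) X L ((a : ℝ) / q) (X * (L : ℝ) ^ 2 / ℓ ^ (2 * E))
      (hloc 0 (3 * X) le_rfl L (by
        rw [pow_one, div_le_iff₀ hℓ0]
        nlinarith) (by
        rw [pow_one]
        nlinarith) ((a : ℝ) / q))
    have h2 : (∑ x ∈ range (3 * X + 1 - L), P q a x) ^ 2 ≤
        (range (3 * X + 1 - L)).card * ∑ x ∈ range (3 * X + 1 - L), P q a x ^ 2 :=
      sq_sum_le_card_mul_sum_sq
    have h3 : ((range (3 * X + 1 - L)).card : ℝ) ≤ 4 * X := by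
      rw [card_range]
      exact_mod_cast (show 3 * X + 1 - L ≤ 4 * X by omega)
    have h4 : (∑ x ∈ range (3 * X + 1 - L), P q a x) ^ 2 ≤
        4 * X * (X * (L : ℝ) ^ 2 / ℓ ^ (2 * E)) :=
      h2.trans (mul_le_mul h3 h1 (sum_nonneg fun x _ => sq_nonneg _) (by positivity))
    apply abs_le_of_sq_le_sq' _ (by positivity) |>.2
    refine h4.trans (le_of_eq ?_)
    rw [div_pow, ← pow_mul, mul_comm E 2]
    ring
  set t : ℝ := H * L / (2 * ℓ ^ A) with ht
  have ht0 : 0 < t := by positivity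
  set Bad : ℕ → ℕ → Finset ℕ := fun q a => (range (2 * X + 1)).filter
      (fun y => t < ∑ x ∈ Ico y (y + H - L + 1), P q a x) with hBad
  have hBadcard : ∀ q a : ℕ, ((Bad q a).card : ℝ) ≤ 4 * X * ℓ ^ A / ℓ ^ E := by
    intro q a
    have h1 := maj_markov (P q a) (fun x => norm_nonneg _) X H L _ t (hPsum q a) hH2 hL1 hLH
    have h2 : ((Bad q a).card : ℝ) * t ≤ (4 * X * ℓ ^ A / ℓ ^ E) * t := by
      refine h1.trans (le_of_eq ?_)
      rw [ht]
      field_simp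
      ring
    exact le_of_mul_le_mul_right h2 ht0
  set Q0 := ⌊ℓ ^ D⌋₊ with hQ0
  have hsub : (range (2 * X + 1)).filter (fun y => ∃ (q : ℕ) (a : ℤ) (α : ℝ), 1 ≤ q ∧
      (q : ℝ) ≤ ℓ ^ D ∧ |α - a / q| ≤ (X : ℝ) ^ (-(1 / 2 : ℝ) - ε) ∧
      H / ℓ ^ A < win (zz B X) y H α) ⊆
      (Icc 1 Q0).biUnion (fun q => (range q).biUnion (fun a => Bad q a)) := by
    intro y hy
    rw [mem_filter] at hy
    obtain ⟨hy, q, a, α, hq1, hq2, hα, hw⟩ := hy
    rw [mem_biUnion]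
    refine ⟨q, by rw [mem_Icc]; exact ⟨hq1, Nat.le_floor hq2⟩, ?_⟩
    rw [mem_biUnion]
    refine ⟨(a % (q : ℤ)).toNat, ?_, ?_⟩
    · rw [mem_range]
      have h1 : 0 ≤ a % (q : ℤ) := Int.emod_nonneg _ (by omega)
      have h2 : a % (q : ℤ) < q := Int.emod_lt_of_pos _ (by omega)
      omega
    · simp only [hBad]
      rw [mem_filter]
      refine ⟨hy, ?_⟩
      have h1 := majA_win (fun n => lam n - LamS (zz B X) n) y H L α ((a : ℝ) / q) (2 * ℓ) hL1 hLH
        (hg y hy)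
      have h2 : ∑ x ∈ Ico y (y + H - L + 1), ‖∑ n ∈ Ioc x (x + L),
          (((fun n => lam n - LamS (zz B X) n) n : ℝ) : ℂ) * ee ((a : ℝ) / q * n)‖ =
          ∑ x ∈ Ico y (y + H - L + 1), P q (a % (q : ℤ)).toNat x := by
        refine sum_congr rfl fun x _ => ?_
        simp only [hP]
        congr 1
        refine sum_congr rfl fun n _ => ?_
        rw [maj_freq a q n hq1]
      rw [h2] at h1
      have h3 : (L : ℝ) * (H / ℓ ^ A) < L * win (zz B X) y H α := mul_lt_mul_of_pos_left hw hL0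
      have h4 : (L : ℝ) * win (zz B X) y H α = (L : ℝ) * ‖∑ n ∈ Ioc y (y + H),
          (((fun n => lam n - LamS (zz B X) n) n : ℝ) : ℂ) * ee (α * n)‖ := rfl
      rw [h4] at h3
      -- error terms
      have h5 : (H : ℝ) * (L * (2 * ℓ * (2 * Real.pi * (|α - (a : ℝ) / q| * L)))) ≤
          H * L / (4 * ℓ ^ A) := by
        have e1 : |α - (a : ℝ) / q| * L ≤ (X : ℝ) ^ (-ε) := by
          calc |α - (a : ℝ) / q| * L ≤ (X : ℝ) ^ (-(1 / 2 : ℝ) - ε) * (X : ℝ) ^ (1 / 2 : ℝ) :=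
                mul_le_mul hα (hLs.trans (le_of_eq hsqrt)) (Nat.cast_nonneg _) (by positivity)
            _ = (X : ℝ) ^ (-ε) := by
                rw [← Real.rpow_add hX0]
                congr 1
                ring
        have e2 : 16 * Real.pi * ℓ ^ (A + 1) * (X : ℝ) ^ (-ε) ≤ 1 := by
          calc 16 * Real.pi * ℓ ^ (A + 1) * (X : ℝ) ^ (-ε) ≤ (X : ℝ) ^ ε * (X : ℝ) ^ (-ε) :=
                mul_le_mul_of_nonneg_right hp1 (by positivity)
            _ = 1 := by rw [← Real.rpow_add hX0]; simp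
        rw [le_div_iff₀ (by positivity)]
        calc (H : ℝ) * (L * (2 * ℓ * (2 * Real.pi * (|α - (a : ℝ) / q| * L)))) * (4 * ℓ ^ A)
            = H * L * (16 * Real.pi * ℓ ^ (A + 1) * (|α - (a : ℝ) / q| * L)) := by ring
          _ ≤ H * L * (16 * Real.pi * ℓ ^ (A + 1) * (X : ℝ) ^ (-ε)) := by
              apply mul_le_mul_of_nonneg_left _ (by positivity)
              exact mul_le_mul_of_nonneg_left e1 (by positivity)
          _ ≤ H * L * 1 := mul_le_mul_of_nonneg_left e2 (by positivity)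
          _ = H * L := mul_one _
      have h6 : (L : ℝ) * (L * (2 * ℓ)) ≤ H * L / (4 * ℓ ^ A) := by
        rw [le_div_iff₀ (by positivity)]
        calc (L : ℝ) * (L * (2 * ℓ)) * (4 * ℓ ^ A) = (8 * ℓ ^ (A + 1) * L) * L := by ring
          _ ≤ H * L := mul_le_mul_of_nonneg_right hHL hL0.le
      have h7 : (L : ℝ) * (H / ℓ ^ A) = H * L / (4 * ℓ ^ A) + H * L / (4 * ℓ ^ A) + t := by
        rw [ht]
        field_simp
        ring
      linarith
  have hcard : (((range (2 * X + 1)).filter (fun y => ∃ (q : ℕ) (a : ℤ) (α : ℝ), 1 ≤ q ∧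
      (q : ℝ) ≤ ℓ ^ D ∧ |α - a / q| ≤ (X : ℝ) ^ (-(1 / 2 : ℝ) - ε) ∧
      H / ℓ ^ A < win (zz B X) y H α)).card : ℝ) ≤
      ∑ q ∈ Icc 1 Q0, ∑ a ∈ range q, ((Bad q a).card : ℝ) := by
    have h1 := card_le_card hsub
    have h2 : ((Icc 1 Q0).biUnion (fun q => (range q).biUnion (fun a => Bad q a))).card ≤
        ∑ q ∈ Icc 1 Q0, ∑ a ∈ range q, (Bad q a).card := by
      refine card_biUnion_le.trans ?_
      exact sum_le_sum fun q _ => card_biUnion_le
    have h3 := h1.trans h2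
    exact_mod_cast h3
  refine hcard.trans ?_
  have h8 : ∑ q ∈ Icc 1 Q0, ∑ a ∈ range q, ((Bad q a).card : ℝ) ≤
      ∑ q ∈ Icc 1 Q0, (Q0 : ℝ) * (4 * X * ℓ ^ A / ℓ ^ E) := by
    refine sum_le_sum fun q hq => ?_
    rw [mem_Icc] at hq
    calc ∑ a ∈ range q, ((Bad q a).card : ℝ) ≤ ∑ _a ∈ range q, (4 * X * ℓ ^ A / ℓ ^ E) :=
          sum_le_sum fun a _ => hBadcard q a
      _ = q * (4 * X * ℓ ^ A / ℓ ^ E) := by rw [sum_const, card_range, nsmul_eq_mul]
      _ ≤ Q0 * (4 * X * ℓ ^ A / ℓ ^ E) :=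
          mul_le_mul_of_nonneg_right (by exact_mod_cast hq.2) (by positivity)
  refine h8.trans ?_
  rw [sum_const, Nat.card_Icc, nsmul_eq_mul]
  have h9 : ((Q0 + 1 - 1 : ℕ) : ℝ) ≤ ℓ ^ D := by
    simp only [Nat.add_sub_cancel]
    exact Nat.floor_le (by positivity)
  have h10 : (Q0 : ℝ) ≤ ℓ ^ D := Nat.floor_le (by positivity)
  calc ((Q0 + 1 - 1 : ℕ) : ℝ) * ((Q0 : ℝ) * (4 * X * ℓ ^ A / ℓ ^ E))
      ≤ ℓ ^ D * (ℓ ^ D * (4 * X * ℓ ^ A / ℓ ^ E)) := by
        apply mul_le_mul h9 _ (by positivity) (by positivity)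
        exact mul_le_mul_of_nonneg_right h10 (by positivity)
    _ = 4 * X / ℓ ^ (A + 1) := by
        rw [hE]
        field_simp
        ring
    _ ≤ X / ℓ ^ A := by
        rw [div_le_div_iff₀ (by positivity) (by positivity), pow_succ]
        nlinarith [mul_pos hX0 (pow_pos hℓ0 A)]

end Pool.Agent.CSH
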