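import Pool.Agent.CSH.St
import Pool.Agent.NRP.MinS
import Pool.Agent.GBQ.Sup
import Pool.Agent.GBQ.Bridge

/-!
# CSH / Sup: all frequencies, almost all windows
-/

set_option autoImplicit false

namespace Pool.Agent.CSH

open Finset Filter
open Pool.Agent.GBQ (ee nd gm lam LamS zz rho pr)

private theorem sup_log_pow (D : ℕ) (δ : ℝ) (hδ : 0 < δ) :
    ∀ᶠ X : ℕ in atTop, Real.log X ^ D ≤ (X : ℝ) ^ δ := by
  have h0 := isLittleO_log_rpow_rpow_atTop (s := δ) (D : ℝ) hδ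
  have h1 := (h0.comp_tendsto (tendsto_natCast_atTop_atTop (R := ℝ))).bound (c := 1) one_pos
  filter_upwards [h1, eventually_ge_atTop 1] with X hX hX1
  have hX1' : (1 : ℝ) ≤ X := by exact_mod_cast hX1
  have hL : 0 ≤ Real.log X := Real.log_nonneg hX1'
  simp only [Function.comp_apply, Real.rpow_natCast, one_mul] at hX
  rwa [Real.norm_of_nonneg (pow_nonneg hL D),
    Real.norm_of_nonneg (Real.rpow_nonneg (by linarith) _)] at hX

/-- the last step: `C S log^C N ≤ H / (16 L^A)` if `S ≤ 4 H / L^k` -/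
private theorem sup_step (A k C : ℕ) (L H S l : ℝ) (hL1 : 1 ≤ L) (hH : 0 ≤ H)
    (hS : S ≤ 4 * (H / L ^ k)) (hl0 : 0 ≤ l) (hl : l ≤ 2 * L) (hk : A + C + 1 ≤ k)
    (hLC : 64 * (C : ℝ) * 2 ^ C ≤ L) : C * S * l ^ C ≤ H / L ^ A / 16 := by
  have hL0 : 0 < L := by linarith
  have hC0 : (0 : ℝ) ≤ C := Nat.cast_nonneg C
  have h1 : l ^ C ≤ 2 ^ C * L ^ C := by
    rw [← mul_pow]
    exact pow_le_pow_left₀ hl0 hl C
  have h2 : H / L ^ k * L ^ C ≤ H / L ^ (A + 1) := by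
    rw [div_mul_eq_mul_div, div_le_div_iff₀ (pow_pos hL0 _) (pow_pos hL0 _), mul_assoc, ← pow_add]
    exact mul_le_mul_of_nonneg_left (pow_le_pow_right₀ hL1 (by omega)) hH
  calc C * S * l ^ C ≤ C * (4 * (H / L ^ k)) * (2 ^ C * L ^ C) := by
        refine mul_le_mul (mul_le_mul_of_nonneg_left hS hC0) h1 (pow_nonneg hl0 _) ?_
        positivity
    _ = 4 * C * 2 ^ C * (H / L ^ k * L ^ C) := by ring
    _ ≤ 4 * C * 2 ^ C * (H / L ^ (A + 1)) := mul_le_mul_of_nonneg_left h2 (by positivity)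
    _ ≤ L / 16 * (H / L ^ (A + 1)) := by
        refine mul_le_mul_of_nonneg_right ?_ (by positivity)
        linarith
    _ = H / L ^ A / 16 := by
        rw [pow_succ]
        field_simp

/-- the sum of `Λ` over a window on minor arcs -/
private theorem sup_lam (A k C₁ C₂ X H y q : ℕ) (L α : ℝ) (a : ℤ) (hL : L = Real.log X)
    (hX9 : 9 ≤ X) (hL1 : 1 ≤ L)
    (hC1 : 64 * (C₁ : ℝ) * 2 ^ C₁ ≤ L) (hC2 : 64 * (C₂ : ℝ) * 2 ^ C₂ ≤ L)
    (hk1 : A + C₁ + 1 ≤ k) (hk2 : A + C₂ + 1 ≤ k)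
    (hpow : 2 * L ^ k ≤ (X : ℝ) ^ (1 / 24 : ℝ)) (hLA : 64 * L ^ A ≤ (X : ℝ) ^ (1 / 24 : ℝ))
    (hV : ∀ (N H : ℕ) (α : ℝ) (a : ℤ) (q : ℕ), 3 ≤ N → H ≤ N →
      1 ≤ q → Int.gcd a q = 1 → |α - a / q| ≤ 1 / (q : ℝ) ^ 2 →
      ‖∑ n ∈ Ioc N (N + H), ((lam n : ℝ) : ℂ) * ee (α * n)‖ ≤
        C₁ * (H / Real.sqrt q + (N : ℝ) ^ (1 / 3 : ℝ) * Real.sqrt H + Real.sqrt (N * q)) *
          Real.log N ^ C₁)
    (hvin : ∀ (N : ℕ) (α : ℝ) (a : ℤ) (q : ℕ), 3 ≤ N → 1 ≤ q →
      Int.gcd a q = 1 → |α - a / q| ≤ 1 / (q : ℝ) ^ 2 →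
      ‖∑ n ∈ range (N + 1), ((lam n : ℝ) : ℂ) * ee (α * n)‖ ≤
        C₂ * (N / Real.sqrt q + (N : ℝ) ^ (5 / 6 : ℝ) + Real.sqrt (N * q)) * Real.log N ^ C₂)
    (hH1 : (X : ℝ) ^ (3 / 4 : ℝ) ≤ H) (hH2 : 2 * H ≤ X) (hy : y ≤ 2 * X)
    (hq1 : 1 ≤ q) (hcop : Int.gcd a q = 1) (hap : |α - a / q| ≤ 1 / (q : ℝ) ^ 2)
    (hq2 : L ^ (2 * k) ≤ q) (hq3 : (q : ℝ) * (X * L ^ (2 * k)) ≤ (H : ℝ) ^ 2) :
    ‖∑ n ∈ Ioc y (y + H), ((lam n : ℝ) : ℂ) * ee (α * n)‖ ≤ H / L ^ A / 4 := by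
  have hX9' : (9 : ℝ) ≤ X := by exact_mod_cast hX9
  have hX0 : (0 : ℝ) < X := by linarith
  have hX1 : (1 : ℝ) ≤ X := by linarith
  have hL0 : 0 < L := by linarith
  have hH0 : (0 : ℝ) < H := lt_of_lt_of_le (Real.rpow_pos_of_pos hX0 _) hH1
  have hH2' : 2 * (H : ℝ) ≤ X := by exact_mod_cast hH2
  have hq0 : (0 : ℝ) < q := by exact_mod_cast hq1
  have hy' : (y : ℝ) ≤ 2 * X := by exact_mod_cast hy
  obtain ⟨P, hP⟩ : ∃ P, P = L ^ k := ⟨_, rfl⟩
  have hPP : L ^ (2 * k) = P ^ 2 := by rw [mul_comm, pow_mul, hP]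
  have hP1 : 1 ≤ P := hP ▸ one_le_pow₀ hL1
  have hP0 : 0 < P := by linarith
  rw [hPP] at hq2 hq3
  rw [← hP] at hpow
  have hsq : P ≤ Real.sqrt q := Real.le_sqrt_of_sq_le hq2
  have hsq0 : 0 < Real.sqrt q := Real.sqrt_pos.2 hq0
  have hT0 : 0 ≤ (H : ℝ) / P := by positivity
  have hlog3 : Real.log ((3 * X : ℕ) : ℝ) ≤ 2 * L := by
    have hcast : ((3 * X : ℕ) : ℝ) = 3 * X := by push_cast; ring
    rw [hcast, Real.log_mul (by norm_num) hX0.ne', hL]
    have : Real.log 3 ≤ Real.log X := Real.log_le_log (by norm_num) (by linarith)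
    linarith
  have hlogm : ∀ m : ℕ, 1 ≤ m → m ≤ 3 * X → Real.log m ≤ 2 * L := by
    intro m hm1 hm
    refine le_trans ?_ hlog3
    exact Real.log_le_log (by exact_mod_cast hm1) (by exact_mod_cast hm)
  have hlog0 : ∀ m : ℕ, 1 ≤ m → 0 ≤ Real.log m := fun m hm =>
    Real.log_nonneg (by exact_mod_cast hm)
  -- `q ≤ H / (2 P ^ 2)`
  have hq4 : (q : ℝ) * (2 * P ^ 2) ≤ H := by
    have h1 : (q : ℝ) * (2 * P ^ 2) * H ≤ H * H := by
      calc (q : ℝ) * (2 * P ^ 2) * H = q * P ^ 2 * (2 * H) := by ring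
        _ ≤ q * P ^ 2 * X := mul_le_mul_of_nonneg_left hH2' (by positivity)
        _ = q * (X * P ^ 2) := by ring
        _ ≤ (H : ℝ) ^ 2 := hq3
        _ = H * H := sq _
    exact le_of_mul_le_mul_right h1 hH0
  have hX38 : (X : ℝ) ^ (3 / 8 : ℝ) ≤ Real.sqrt H := by
    apply Real.le_sqrt_of_sq_le
    rw [← Real.rpow_natCast, ← Real.rpow_mul hX0.le]
    norm_num
    exact hH1
  rcases le_or_gt H y with hc | hc
  · -- `H ≤ y`
    have hH3 : 3 ≤ H := by
      have h1 : (X : ℝ) ^ (1 / 2 : ℝ) ≤ (X : ℝ) ^ (3 / 4 : ℝ) :=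
        Real.rpow_le_rpow_of_exponent_le hX1 (by norm_num)
      have h2 : (3 : ℝ) ≤ (X : ℝ) ^ (1 / 2 : ℝ) := by
        rw [← Real.sqrt_eq_rpow]
        apply Real.le_sqrt_of_sq_le
        linarith
      have : (3 : ℝ) ≤ H := by linarith
      exact_mod_cast this
    have h1 := hV y H α a q (by omega) hc hq1 hcop hap
    have s1 : (H : ℝ) / Real.sqrt q ≤ H / P := div_le_div_of_nonneg_left hH0.le hP0 hsq
    have s2 : (y : ℝ) ^ (1 / 3 : ℝ) * Real.sqrt H ≤ H / P := by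
      rw [le_div_iff₀ hP0]
      have e1 : (y : ℝ) ^ (1 / 3 : ℝ) ≤ 2 * (X : ℝ) ^ (1 / 3 : ℝ) := by
        calc (y : ℝ) ^ (1 / 3 : ℝ) ≤ (2 * X : ℝ) ^ (1 / 3 : ℝ) :=
              Real.rpow_le_rpow (Nat.cast_nonneg y) hy' (by norm_num)
          _ = (2 : ℝ) ^ (1 / 3 : ℝ) * (X : ℝ) ^ (1 / 3 : ℝ) :=
              Real.mul_rpow (by norm_num) hX0.le
          _ ≤ 2 * (X : ℝ) ^ (1 / 3 : ℝ) := by
              refine mul_le_mul_of_nonneg_right ?_ (Real.rpow_nonneg hX0.le _)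
              calc (2 : ℝ) ^ (1 / 3 : ℝ) ≤ (2 : ℝ) ^ (1 : ℝ) :=
                    Real.rpow_le_rpow_of_exponent_le (by norm_num) (by norm_num)
                _ = 2 := Real.rpow_one _
      have e2 : 2 * (X : ℝ) ^ (1 / 3 : ℝ) * P ≤ Real.sqrt H := by
        calc 2 * (X : ℝ) ^ (1 / 3 : ℝ) * P = (X : ℝ) ^ (1 / 3 : ℝ) * (2 * P) := by ring
          _ ≤ (X : ℝ) ^ (1 / 3 : ℝ) * (X : ℝ) ^ (1 / 24 : ℝ) :=
              mul_le_mul_of_nonneg_left hpow (Real.rpow_nonneg hX0.le _)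
          _ = (X : ℝ) ^ (3 / 8 : ℝ) := by
              rw [← Real.rpow_add hX0]
              norm_num
          _ ≤ _ := hX38
      calc (y : ℝ) ^ (1 / 3 : ℝ) * Real.sqrt H * P ≤
            2 * (X : ℝ) ^ (1 / 3 : ℝ) * Real.sqrt H * P := by
              refine mul_le_mul_of_nonneg_right ?_ hP0.le
              exact mul_le_mul_of_nonneg_right e1 (Real.sqrt_nonneg _)
        _ = 2 * (X : ℝ) ^ (1 / 3 : ℝ) * P * Real.sqrt H := by ring
        _ ≤ Real.sqrt H * Real.sqrt H := mul_le_mul_of_nonneg_right e2 (Real.sqrt_nonneg _)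
        _ = H := Real.mul_self_sqrt hH0.le
    have s3 : Real.sqrt (y * q) ≤ 2 * (H / P) := by
      apply Real.sqrt_le_iff.2
      refine ⟨by positivity, ?_⟩
      have e1 : (y : ℝ) * q * P ^ 2 ≤ 2 * (H : ℝ) ^ 2 := by
        calc (y : ℝ) * q * P ^ 2 ≤ 2 * X * q * P ^ 2 := by
              refine mul_le_mul_of_nonneg_right ?_ (by positivity)
              exact mul_le_mul_of_nonneg_right hy' hq0.le
          _ = 2 * (q * (X * P ^ 2)) := by ring
          _ ≤ 2 * (H : ℝ) ^ 2 := by linarith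
      have e2 : (2 * ((H : ℝ) / P)) ^ 2 = 4 * (H : ℝ) ^ 2 / P ^ 2 := by
        field_simp
        ring
      rw [e2, le_div_iff₀ (by positivity)]
      have : 0 ≤ (H : ℝ) ^ 2 := sq_nonneg _
      linarith
    have h2 := sup_step A k C₁ L H
      (H / Real.sqrt q + (y : ℝ) ^ (1 / 3 : ℝ) * Real.sqrt H + Real.sqrt (y * q))
      (Real.log y) hL1 hH0.le (by rw [← hP]; linarith) (hlog0 y (by omega))
      (hlogm y (by omega) (by omega)) hk1 hC1
    have h3 : 0 ≤ (H : ℝ) / L ^ A := by positivity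
    linarith
  · -- `y < H`
    have hT : ∀ N : ℕ, N ≤ 2 * H → 
        ‖∑ n ∈ range (N + 1), ((lam n : ℝ) : ℂ) * ee (α * n)‖ ≤ H / L ^ A / 16 := by
      intro N hN
      have hN' : (N : ℝ) ≤ 2 * H := by exact_mod_cast hN
      rcases Nat.lt_or_ge N 3 with hN3 | hN3
      · have e1 : ‖∑ n ∈ range (N + 1), ((lam n : ℝ) : ℂ) * ee (α * n)‖ ≤
            ∑ _n ∈ range (N + 1), (1 : ℝ) := by
          refine norm_sum_le_of_le _ fun n hn => ?_
          rw [norm_mul, GBQ.ee_norm, mul_one, Complex.norm_real, Real.norm_eq_abs,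
            abs_of_nonneg (GBQ.lam_nonneg n)]
          refine (GBQ.lam_le_log n).trans ?_
          rw [mem_range] at hn
          have hn2 : n ≤ 2 := by omega
          rcases Nat.eq_zero_or_pos n with h0 | h0
          · rw [h0]; simp
          · have : Real.log n ≤ Real.log 2 :=
              Real.log_le_log (by exact_mod_cast h0) (by exact_mod_cast hn2)
            have := Real.log_two_lt_d9
            linarith
        rw [sum_const, card_range, nsmul_eq_mul, mul_one] at e1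
        have e2 : ((N + 1 : ℕ) : ℝ) ≤ 3 := by exact_mod_cast hN3
        have e3 : (64 : ℝ) * L ^ A ≤ H := by
          refine hLA.trans (le_trans ?_ hH1)
          exact Real.rpow_le_rpow_of_exponent_le hX1 (by norm_num)
        have e4 : (4 : ℝ) ≤ H / L ^ A / 16 := by
          rw [le_div_iff₀ (by norm_num), le_div_iff₀ (pow_pos hL0 _)]
          linarith
        linarith
      · have h1 := hvin N α a q hN3 hq1 hcop hap
        refine h1.trans ?_
        have s1 : (N : ℝ) / Real.sqrt q ≤ 2 * (H / P) := by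
          calc (N : ℝ) / Real.sqrt q ≤ 2 * H / Real.sqrt q :=
                div_le_div_of_nonneg_right hN' hsq0.le
            _ ≤ 2 * H / P := div_le_div_of_nonneg_left (by positivity) hP0 hsq
            _ = _ := by ring
        have s2 : (N : ℝ) ^ (5 / 6 : ℝ) ≤ H / P := by
          rw [le_div_iff₀ hP0]
          have e1 : (N : ℝ) ^ (5 / 6 : ℝ) ≤ 2 * (H : ℝ) ^ (5 / 6 : ℝ) := by
            calc (N : ℝ) ^ (5 / 6 : ℝ) ≤ (2 * H : ℝ) ^ (5 / 6 : ℝ) :=
                  Real.rpow_le_rpow (Nat.cast_nonneg N) hN' (by norm_num)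
              _ = (2 : ℝ) ^ (5 / 6 : ℝ) * (H : ℝ) ^ (5 / 6 : ℝ) :=
                  Real.mul_rpow (by norm_num) hH0.le
              _ ≤ 2 * (H : ℝ) ^ (5 / 6 : ℝ) := by
                  refine mul_le_mul_of_nonneg_right ?_ (Real.rpow_nonneg hH0.le _)
                  calc (2 : ℝ) ^ (5 / 6 : ℝ) ≤ (2 : ℝ) ^ (1 : ℝ) :=
                        Real.rpow_le_rpow_of_exponent_le (by norm_num) (by norm_num)
                    _ = 2 := Real.rpow_one _
          have e2 : 2 * P ≤ (H : ℝ) ^ (1 / 6 : ℝ) := by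
            calc 2 * P ≤ (X : ℝ) ^ (1 / 24 : ℝ) := hpow
              _ ≤ (X : ℝ) ^ (1 / 8 : ℝ) := Real.rpow_le_rpow_of_exponent_le hX1 (by norm_num)
              _ = ((X : ℝ) ^ (3 / 4 : ℝ)) ^ (1 / 6 : ℝ) := by
                  rw [← Real.rpow_mul hX0.le]
                  norm_num
              _ ≤ (H : ℝ) ^ (1 / 6 : ℝ) :=
                  Real.rpow_le_rpow (Real.rpow_nonneg hX0.le _) hH1 (by norm_num)
          calc (N : ℝ) ^ (5 / 6 : ℝ) * P ≤ 2 * (H : ℝ) ^ (5 / 6 : ℝ) * P :=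
                mul_le_mul_of_nonneg_right e1 hP0.le
            _ = (H : ℝ) ^ (5 / 6 : ℝ) * (2 * P) := by ring
            _ ≤ (H : ℝ) ^ (5 / 6 : ℝ) * (H : ℝ) ^ (1 / 6 : ℝ) :=
                mul_le_mul_of_nonneg_left e2 (Real.rpow_nonneg hH0.le _)
            _ = (H : ℝ) ^ (1 : ℝ) := by
                rw [← Real.rpow_add hH0]
                norm_num
            _ = H := Real.rpow_one _
        have s3 : Real.sqrt (N * q) ≤ H / P := by
          apply Real.sqrt_le_iff.2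
          refine ⟨by positivity, ?_⟩
          rw [div_pow, le_div_iff₀ (by positivity)]
          calc (N : ℝ) * q * P ^ 2 ≤ 2 * H * q * P ^ 2 := by
                refine mul_le_mul_of_nonneg_right ?_ (by positivity)
                exact mul_le_mul_of_nonneg_right hN' hq0.le
            _ = q * (2 * P ^ 2) * H := by ring
            _ ≤ H * H := mul_le_mul_of_nonneg_right hq4 hH0.le
            _ = (H : ℝ) ^ 2 := (sq _).symm
        have h2 := sup_step A k C₂ L H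
          (N / Real.sqrt q + (N : ℝ) ^ (5 / 6 : ℝ) + Real.sqrt (N * q))
          (Real.log N) hL1 hH0.le (by rw [← hP]; linarith) (hlog0 N (by omega))
          (hlogm N (by omega) (by omega)) hk2 hC2
        exact h2
    have h1 := hT (y + H) (by omega)
    have h2 := hT y (by omega)
    have h3 : ∑ n ∈ Ioc y (y + H), ((lam n : ℝ) : ℂ) * ee (α * n) =
        ∑ n ∈ range (y + H + 1), ((lam n : ℝ) : ℂ) * ee (α * n) -
        ∑ n ∈ range (y + 1), ((lam n : ℝ) : ℂ) * ee (α * n) := by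
      rw [eq_sub_iff_add_eq, ← sum_union]
      · congr 1
        ext x
        simp only [mem_union, mem_Ioc, mem_range]
        omega
      · rw [disjoint_left]
        intro x hx hx'
        simp only [mem_Ioc, mem_range] at hx hx'
        omega
    rw [h3]
    refine (norm_sub_le _ _).trans ?_
    have h4 : 0 ≤ (H : ℝ) / L ^ A := by positivity
    linarith

open Classical in
/-- see `St_Sup` in `St.lean` -/
theorem thm_Sup (hV : St_V) (hM : St_Maj) : St_Sup := by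
  intro A ε hε
  obtain ⟨C₁, hC₁⟩ := hV
  obtain ⟨C₂, hC₂⟩ := GBQ.thm_Vin
  obtain ⟨C₃, hC₃⟩ := NRP.thm_MinS (1 / 2) (by norm_num) (by norm_num)
  obtain ⟨k, hk⟩ : ∃ k, k = A + (C₁ + C₂ + C₃) + 2 := ⟨_, rfl⟩
  obtain ⟨B₀, hB₀⟩ := hM (A + 1) (2 * k) ε hε
  refine ⟨B₀ + 1, fun B hB => ?_⟩
  filter_upwards [hB₀ B (by omega), hC₃ (A + 1) B,
    GBQ.sup_log_ge (16 + 64 * (C₁ : ℝ) * 2 ^ C₁ + 64 * (C₂ : ℝ) * 2 ^ C₂),
    sup_log_pow (k + 1) (1 / 24) (by norm_num), sup_log_pow (A + 2) (1 / 24) (by norm_num),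
    sup_log_pow (2 * k) ε hε, sup_log_pow (2 * k) (1 / 2) (by norm_num),
    eventually_ge_atTop 9] with X hmaj hmin hlog hpk hpA hpε hph hX9
  intro H hH1 hH2
  have hX9' : (9 : ℝ) ≤ X := by exact_mod_cast hX9
  have hX0 : (0 : ℝ) < X := by linarith
  have hX1 : (1 : ℝ) ≤ X := by linarith
  have hc1 : 0 ≤ 64 * (C₁ : ℝ) * 2 ^ C₁ := by positivity
  have hc2 : 0 ≤ 64 * (C₂ : ℝ) * 2 ^ C₂ := by positivity
  obtain ⟨L, hL⟩ : ∃ L, L = Real.log X := ⟨_, rfl⟩
  rw [← hL] at hlog hpk hpA hpε hph hmaj hmin ⊢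
  have hL16 : 16 ≤ L := by linarith
  have hL0 : 0 < L := by linarith
  have hL1 : 1 ≤ L := by linarith
  have hH2' : 2 * (H : ℝ) ≤ X := by exact_mod_cast hH2
  have hH34 : (X : ℝ) ^ (3 / 4 : ℝ) ≤ H :=
    (Real.rpow_le_rpow_of_exponent_le hX1 (by linarith)).trans hH1
  have hH0 : (0 : ℝ) < H := lt_of_lt_of_le (Real.rpow_pos_of_pos hX0 _) hH34
  have hpow : 2 * L ^ k ≤ (X : ℝ) ^ (1 / 24 : ℝ) := by
    refine le_trans ?_ hpk
    rw [pow_succ]
    have := pow_pos hL0 k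
    nlinarith
  have hLA : 64 * L ^ A ≤ (X : ℝ) ^ (1 / 24 : ℝ) := by
    refine le_trans ?_ hpA
    rw [pow_add, mul_comm]
    refine mul_le_mul_of_nonneg_left ?_ (pow_pos hL0 A).le
    nlinarith
  have hzB : (zz B X : ℝ) ≤ L ^ B := by
    unfold zz
    rw [← hL]
    exact Nat.floor_le (by positivity)
  have hz2 : 2 ≤ zz B X := by
    unfold zz
    rw [← hL]
    apply Nat.le_floor
    have h1 : L ^ 1 ≤ L ^ B := pow_le_pow_right₀ hL1 (by omega)
    rw [pow_one] at h1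
    push_cast
    linarith
  have hsub : (range (2 * X + 1)).filter (fun y => ∃ α : ℝ, H / L ^ A < win (zz B X) y H α) ⊆
      (range (2 * X + 1)).filter (fun y => ∃ (q : ℕ) (a : ℤ) (α : ℝ), 1 ≤ q ∧
        (q : ℝ) ≤ L ^ (2 * k) ∧ |α - a / q| ≤ (X : ℝ) ^ (-(1 / 2 : ℝ) - ε) ∧
        H / L ^ (A + 1) < win (zz B X) y H α) := by
    intro y hy
    rw [mem_filter, mem_range] at hy ⊢
    obtain ⟨hy1, α, hα⟩ := hy
    refine ⟨hy1, ?_⟩
    -- Dirichlet
    have hHsq : (X : ℝ) ^ (3 / 2 + 2 * ε) ≤ (H : ℝ) ^ 2 := by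
      calc (X : ℝ) ^ (3 / 2 + 2 * ε) = ((X : ℝ) ^ (3 / 4 + ε)) ^ 2 := by
            rw [← Real.rpow_natCast, ← Real.rpow_mul hX0.le]
            congr 1
            push_cast
            ring
        _ ≤ (H : ℝ) ^ 2 := pow_le_pow_left₀ (Real.rpow_nonneg hX0.le _) hH1 2
    have hXL : (X : ℝ) * L ^ (2 * k) ≤ (H : ℝ) ^ 2 := by
      calc (X : ℝ) * L ^ (2 * k) ≤ X * (X : ℝ) ^ (1 / 2 : ℝ) :=
            mul_le_mul_of_nonneg_left hph hX0.le
        _ = (X : ℝ) ^ (3 / 2 : ℝ) := by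
            nth_rewrite 1 [← Real.rpow_one (X : ℝ)]
            rw [← Real.rpow_add hX0]
            norm_num
        _ ≤ (X : ℝ) ^ (3 / 2 + 2 * ε) :=
            Real.rpow_le_rpow_of_exponent_le hX1 (by linarith)
        _ ≤ _ := hHsq
    have hQ0 : 0 < (X : ℝ) * (X * L ^ (2 * k)) / (H : ℝ) ^ 2 := by positivity
    obtain ⟨a, q, hq1, hcop, hqX, hap, hb⟩ :=
      GBQ.sup_dirichlet α X ((X : ℝ) * (X * L ^ (2 * k)) / (H : ℝ) ^ 2) hQ0 (by
        rw [div_le_iff₀ (by positivity)]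
        exact mul_le_mul_of_nonneg_left hXL hX0.le)
    have hq0 : (0 : ℝ) < q := by exact_mod_cast hq1
    have hq3 : (q : ℝ) * (X * L ^ (2 * k)) ≤ (H : ℝ) ^ 2 := by
      have h1 : (q : ℝ) * (X * L ^ (2 * k)) * X ≤ (H : ℝ) ^ 2 * X := by
        have h2 : (q : ℝ) * ((X : ℝ) * (X * L ^ (2 * k)) / (H : ℝ) ^ 2) * (H : ℝ) ^ 2 ≤
            X * (H : ℝ) ^ 2 := mul_le_mul_of_nonneg_right hqX (by positivity)
        have h3 : (q : ℝ) * ((X : ℝ) * (X * L ^ (2 * k)) / (H : ℝ) ^ 2) * (H : ℝ) ^ 2 =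
            (q : ℝ) * (X * L ^ (2 * k)) * X := by
          field_simp
        rw [h3] at h2
        linarith
      exact le_of_mul_le_mul_right h1 hX0
    rcases le_or_gt (q : ℝ) (L ^ (2 * k)) with hcase | hcase
    · refine ⟨q, a, α, hq1, hcase, ?_, lt_of_le_of_lt ?_ hα⟩
      · have h1 : |α - a / q| ≤ X * L ^ (2 * k) / (H : ℝ) ^ 2 := by
          have h2 : |α - a / q| * X ≤ X * L ^ (2 * k) / (H : ℝ) ^ 2 * X := by
            refine hb.trans (le_of_eq ?_)
            ring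
          exact le_of_mul_le_mul_right h2 hX0
        refine h1.trans ?_
        rw [div_le_iff₀ (by positivity)]
        calc (X : ℝ) * L ^ (2 * k) ≤ X * (X : ℝ) ^ ε := mul_le_mul_of_nonneg_left hpε hX0.le
          _ = (X : ℝ) ^ (-(1 / 2 : ℝ) - ε) * (X : ℝ) ^ (3 / 2 + 2 * ε) := by
              nth_rewrite 1 [← Real.rpow_one (X : ℝ)]
              rw [← Real.rpow_add hX0, ← Real.rpow_add hX0]
              congr 1
              ring
          _ ≤ _ := mul_le_mul_of_nonneg_left hHsq (Real.rpow_nonneg hX0.le _)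
      · rw [pow_succ]
        refine div_le_div_of_nonneg_left hH0.le (pow_pos hL0 _) ?_
        exact le_mul_of_one_le_right (pow_pos hL0 _).le hL1
    · exfalso
      have h1 := sup_lam A k C₁ C₂ X H y q L α a hL hX9 hL1 (by linarith) (by linarith)
        (by omega) (by omega) hpow hLA hC₁ hC₂ hH34 hH2 (by omega) hq1 hcop hap hcase.le hq3
      have hP1 : 1 ≤ L ^ k := one_le_pow₀ hL1
      have hPP : L ^ (2 * k) = (L ^ k) ^ 2 := by rw [mul_comm, pow_mul]
      -- `q ≤ H / (2 P ^ 2)`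
      have hq4 : (q : ℝ) * (2 * L ^ (2 * k)) ≤ H := by
        have e1 : (q : ℝ) * (2 * L ^ (2 * k)) * H ≤ H * H := by
          calc (q : ℝ) * (2 * L ^ (2 * k)) * H = q * L ^ (2 * k) * (2 * H) := by ring
            _ ≤ q * L ^ (2 * k) * X := mul_le_mul_of_nonneg_left hH2' (by positivity)
            _ = q * (X * L ^ (2 * k)) := by ring
            _ ≤ (H : ℝ) ^ 2 := hq3
            _ = H * H := sq _
        exact le_of_mul_le_mul_right e1 hH0
      have hP2 : L ^ k ≤ L ^ (2 * k) := pow_le_pow_right₀ hL1 (by omega)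
      have hPk0 : 0 < L ^ k := pow_pos hL0 k
      have hqH : (q : ℝ) ≤ H / L ^ k := by
        rw [le_div_iff₀ hPk0]
        calc (q : ℝ) * L ^ k ≤ q * (2 * L ^ (2 * k)) := by
              refine mul_le_mul_of_nonneg_left ?_ hq0.le
              linarith
          _ ≤ H := hq4
      have hqH' : q ≤ H := by
        have : (q : ℝ) ≤ H := hqH.trans (div_le_self hH0.le hP1)
        exact_mod_cast this
      have hmin2 := hmin (zz B X) hz2 hzB y H
        ((Real.rpow_le_rpow_of_exponent_le hX1 (by norm_num)).trans hH34)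
        (by
          calc H ≤ 2 * H := by omega
            _ ≤ X := hH2
            _ ≤ X ^ 2 := Nat.le_self_pow (by norm_num) X) α a q hq1 hqH' hcop hap
      have g1 : (H : ℝ) / q ≤ H / L ^ k :=
        div_le_div_of_nonneg_left hH0.le hPk0 (hP2.trans hcase.le)
      have g2 : (X : ℝ) ^ ((1 / 2 : ℝ) / 2) ≤ H / L ^ k := by
        rw [le_div_iff₀ hPk0]
        calc (X : ℝ) ^ ((1 / 2 : ℝ) / 2) * L ^ k ≤
              (X : ℝ) ^ ((1 / 2 : ℝ) / 2) * (X : ℝ) ^ (1 / 24 : ℝ) := by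
                refine mul_le_mul_of_nonneg_left ?_ (Real.rpow_nonneg hX0.le _)
                linarith
          _ = (X : ℝ) ^ ((1 / 2 : ℝ) / 2 + 1 / 24) := (Real.rpow_add hX0 _ _).symm
          _ ≤ (X : ℝ) ^ (3 / 4 : ℝ) := Real.rpow_le_rpow_of_exponent_le hX1 (by norm_num)
          _ ≤ H := hH34
      have g3 : ((H : ℝ) / q + (X : ℝ) ^ ((1 / 2 : ℝ) / 2) + q) * L ^ C₃ ≤
          H / L ^ A * (3 / L) := by
        calc _ ≤ 3 * (H / L ^ k) * L ^ C₃ := by
              refine mul_le_mul_of_nonneg_right ?_ (by positivity)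
              linarith
          _ = 3 * (H / L ^ k * L ^ C₃) := by ring
          _ ≤ 3 * (H / L ^ (A + 1)) := by
              refine mul_le_mul_of_nonneg_left ?_ (by norm_num)
              rw [div_mul_eq_mul_div, div_le_div_iff₀ (pow_pos hL0 _) (pow_pos hL0 _), mul_assoc,
                ← pow_add]
              exact mul_le_mul_of_nonneg_left (pow_le_pow_right₀ hL1 (by omega)) hH0.le
          _ = _ := by
              rw [pow_succ]
              field_simp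
      have g4 : (H : ℝ) / L ^ (A + 1) = H / L ^ A * (1 / L) := by
        rw [pow_succ]
        field_simp
      have hHA : 0 < (H : ℝ) / L ^ A := by positivity
      have g5 : (H : ℝ) / L ^ A * (3 / L) + H / L ^ A * (1 / L) ≤ H / L ^ A * (1 / 4) := by
        rw [← mul_add]
        refine mul_le_mul_of_nonneg_left ?_ hHA.le
        rw [← add_div, div_le_div_iff₀ hL0 (by norm_num)]
        linarith
      have hsplit : ∑ n ∈ Ioc y (y + H), ((lam n - LamS (zz B X) n : ℝ) : ℂ) * ee (α * n) =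
          ∑ n ∈ Ioc y (y + H), ((lam n : ℝ) : ℂ) * ee (α * n) -
          ∑ n ∈ Ioc y (y + H), ((LamS (zz B X) n : ℝ) : ℂ) * ee (α * n) := by
        rw [← sum_sub_distrib]
        refine sum_congr rfl fun x _ => ?_
        push_cast
        ring
      unfold win at hα
      rw [hsplit] at hα
      have h5 := norm_sub_le (∑ n ∈ Ioc y (y + H), ((lam n : ℝ) : ℂ) * ee (α * n))
        (∑ n ∈ Ioc y (y + H), ((LamS (zz B X) n : ℝ) : ℂ) * ee (α * n))
      rw [g4] at hmin2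
      linarith
  have hcard := (card_le_card hsub)
  have hm := hmaj H hH1 hH2
  have h1 : (X : ℝ) / L ^ (A + 1) ≤ X / L ^ A := by
    rw [pow_succ]
    refine div_le_div_of_nonneg_left hX0.le (pow_pos hL0 _) ?_
    exact le_mul_of_one_le_right (pow_pos hL0 _).le hL1
  refine le_trans ?_ (hm.trans h1)
  exact_mod_cast hcard

end Pool.Agent.CSH
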