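import Pool.Agent.CSH.St
import Pool.Agent.BVX.V3

/-!
# CSH [V]: Vinogradov's estimate in short windows (after `Pool/Agent/BVX/V3.lean`)
-/

set_option autoImplicit false

namespace Pool.Agent.CSH

open Finset Filter Pool.Agent.Helper25 Pool.Agent.Helper95.MD
open Pool.Agent.GBQ (ee lam)

lemma v_ee (x : ℝ) : ee x = ex x := by
  unfold ee ex
  rw [mul_comm]

lemma v_geom {B : ℝ} (j K : ℕ) (h : ((K - j : ℕ) : ℝ) ≤ B) (β : ℝ) :
    ‖∑ k ∈ Ioc j K, ex (k * β)‖ ≤ mn B β := by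
  have h1 : ∑ k ∈ Ioc j K, ex (k * β) = ∑ i ∈ range (K - j), ex (β * (((j : ℝ) + 1) + i)) := by
    have h2 : Ioc j K = Ico (j + 1) (K + 1) := by
      ext x
      simp only [mem_Ioc, mem_Ico]
      omega
    rw [h2, Finset.sum_Ico_eq_sum_range]
    have h3 : K + 1 - (j + 1) = K - j := by omega
    rw [h3]
    refine sum_congr rfl fun i _ => ?_
    congr 1
    push_cast
    ring
  rw [h1]
  exact geom_le_mn (K - j) h β _

lemma v_log_geom {B : ℝ} (A K : ℕ) (h : ((K - A : ℕ) : ℝ) ≤ B) (β : ℝ) :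
    ‖∑ k ∈ Ioc A K, ((Real.log k : ℝ) : ℂ) * ex (k * β)‖ ≤ Real.log K * mn B β := by
  have hB : 0 ≤ B := le_trans (Nat.cast_nonneg _) h
  have htel : ∀ k : ℕ, 1 ≤ k → Real.log k = ∑ j ∈ Ico 1 k, (Real.log (j + 1) - Real.log j) := by
    intro k hk
    have h1 := Finset.sum_Ico_sub (fun j : ℕ => Real.log j) hk
    simp only [Nat.cast_add, Nat.cast_one, Real.log_one, sub_zero] at h1
    exact h1.symm
  have h1 : ∑ k ∈ Ioc A K, ((Real.log k : ℝ) : ℂ) * ex (k * β) =
      ∑ j ∈ Ico 1 K, ((Real.log (j + 1) - Real.log j : ℝ) : ℂ) *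
        ∑ k ∈ Ioc (max A j) K, ex (k * β) := by
    have h2 : ∀ k ∈ Ioc A K, ((Real.log k : ℝ) : ℂ) * ex (k * β) =
        ∑ j ∈ Ico 1 k, ((Real.log (j + 1) - Real.log j : ℝ) : ℂ) * ex (k * β) := by
      intro k hk
      rw [mem_Ioc] at hk
      rw [htel k (by omega), Complex.ofReal_sum, Finset.sum_mul]
    rw [Finset.sum_congr rfl h2]
    rw [Finset.sum_comm' (t' := Ico 1 K) (s' := fun j => Ioc (max A j) K)]
    · refine sum_congr rfl fun j _ => ?_
      rw [Finset.mul_sum]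
    · intro k j
      simp only [mem_Ico, mem_Ioc]
      omega
  rw [h1]
  rcases Nat.eq_zero_or_pos K with hK | hK
  · subst hK
    simp
  calc ‖∑ j ∈ Ico 1 K, ((Real.log (j + 1) - Real.log j : ℝ) : ℂ) *
        ∑ k ∈ Ioc (max A j) K, ex (k * β)‖
      ≤ ∑ j ∈ Ico 1 K, (Real.log (j + 1) - Real.log j) * mn B β := by
        refine (norm_sum_le _ _).trans (sum_le_sum fun j hj => ?_)
        rw [mem_Ico] at hj
        rw [norm_mul, Complex.norm_real, Real.norm_eq_abs]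
        have hj0 : (0 : ℝ) < j := by exact_mod_cast hj.1
        have h3 : Real.log j ≤ Real.log (j + 1) := Real.log_le_log hj0 (by linarith)
        have h4 : ((K - max A j : ℕ) : ℝ) ≤ B := by
          refine le_trans ?_ h
          exact_mod_cast Nat.sub_le_sub_left (le_max_left A j) K
        rw [abs_of_nonneg (by linarith)]
        exact mul_le_mul_of_nonneg_left (v_geom (max A j) K h4 β) (by linarith)
    _ = Real.log K * mn B β := by
        rw [← Finset.sum_mul, ← htel K hK]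

/-- the part of the window divisible by `m` -/
lemma v_win (N T m : ℕ) (hm : 1 ≤ m) (θ : ℝ) (g : ℕ → ℂ) :
    ∑ k ∈ Icc 1 (T / m), g k * (if N < m * k then ex (((m * k : ℕ) : ℝ) * θ) else 0) =
      ∑ k ∈ Ioc (N / m) (T / m), g k * ex (k * (m * θ)) := by
  simp only [mul_ite, mul_zero]
  rw [← sum_filter]
  have h1 : (Icc 1 (T / m)).filter (fun k => N < m * k) = Ioc (N / m) (T / m) := by
    ext k
    rw [mem_filter, mem_Icc, mem_Ioc, Nat.div_lt_iff_lt_mul (by omega), mul_comm k m]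
    constructor
    · rintro ⟨⟨_, h2⟩, h3⟩
      exact ⟨h3, h2⟩
    · rintro ⟨h3, h2⟩
      refine ⟨⟨?_, h2⟩, h3⟩
      by_contra h4
      have : k = 0 := by omega
      rw [this] at h3
      simp at h3
  rw [h1]
  refine sum_congr rfl fun k _ => ?_
  congr 2
  push_cast
  ring

/-- the length of the window divided by `m` -/
lemma v_len {N H m : ℕ} (hm : 1 ≤ m) (hmH : m ≤ H) :
    (((N + H) / m - N / m : ℕ) : ℝ) ≤ ((2 * H : ℕ) : ℝ) / m := by
  have hmR : (0 : ℝ) < m := by exact_mod_cast hm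
  have h1 : (N + H) / m - N / m ≤ H / m + 1 := by
    have h2 : (N + H) / m < N / m + H / m + 2 := by
      rw [Nat.div_lt_iff_lt_mul (by omega)]
      have h3 := Nat.lt_mul_div_succ N (by omega : 0 < m)
      have h4 := Nat.lt_mul_div_succ H (by omega : 0 < m)
      calc N + H < m * (N / m + 1) + m * (H / m + 1) := by omega
        _ = (N / m + H / m + 2) * m := by ring
    rw [Nat.sub_le_iff_le_add]
    generalize (N + H) / m = x at h2 ⊢
    generalize N / m = y at h2 ⊢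
    generalize H / m = w at h2 ⊢
    omega
  rw [le_div_iff₀ hmR]
  have h5 : (H / m + 1) * m ≤ 2 * H := by
    have h6 : H / m * m ≤ H := Nat.div_mul_le_self H m
    calc (H / m + 1) * m = H / m * m + m := by ring
      _ ≤ 2 * H := by omega
  have h7 : ((N + H) / m - N / m) * m ≤ 2 * H := (Nat.mul_le_mul_right m h1).trans h5
  exact_mod_cast h7

lemma v_dyadic {g : ℕ → ℂ} (V J : ℕ) :
    ∑ l ∈ Ico V (V * 2 ^ J), g l = ∑ i ∈ range J, ∑ l ∈ Ico (V * 2 ^ i) (2 * (V * 2 ^ i)), g l := by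
  induction J with
  | zero => simp
  | succ J ih =>
    rw [sum_range_succ, ← ih]
    have h1 : V ≤ V * 2 ^ J := Nat.le_mul_of_pos_right _ (by positivity)
    have h2 : V * 2 ^ J ≤ 2 * (V * 2 ^ J) := by omega
    have h3 : V * 2 ^ (J + 1) = 2 * (V * 2 ^ J) := by ring
    rw [h3, sum_Ico_consecutive g h1 h2]

/-- a dyadic block -/
noncomputable def v_B (θ : ℝ) (N H U M : ℕ) : ℂ :=
  ∑ l ∈ Ico M (2 * M), ∑ k ∈ Icc 1 ((N + H) / l), ((ArithmeticFunction.vonMangoldt l : ℝ) : ℂ) *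
    (MT.cU U k : ℂ) * (if N < l * k then ex (((l * k : ℕ) : ℝ) * θ) else 0)

lemma v_block_eq (θ : ℝ) {N H U M : ℕ} (hM : 1 ≤ M) (hHN : H ≤ N) :
    v_B θ N H U M = ∑ l ∈ Ico M (2 * M),
      ∑ k ∈ (Icc 1 (2 * N)).filter (fun k => N < l * k ∧ l * k ≤ N + H),
      (((if l ≤ 2 * N then ArithmeticFunction.vonMangoldt l else 0 : ℝ)) : ℂ) *
        (((MT.cU U k : ℤ) : ℝ) : ℂ) * ee (θ * ((l * k : ℕ) : ℝ)) := by
  unfold v_B
  refine sum_congr rfl fun l hl => ?_
  rw [mem_Ico] at hl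
  have hl0 : 0 < l := by omega
  simp only [mul_ite, mul_zero]
  rw [← sum_filter]
  have h1 : (Icc 1 ((N + H) / l)).filter (fun k => N < l * k) =
      (Icc 1 (2 * N)).filter (fun k => N < l * k ∧ l * k ≤ N + H) := by
    ext k
    rw [mem_filter, mem_filter, mem_Icc, mem_Icc, Nat.le_div_iff_mul_le hl0, mul_comm k l]
    constructor
    · rintro ⟨⟨h2, h3⟩, h4⟩
      refine ⟨⟨h2, ?_⟩, h4, h3⟩
      have h5 : k ≤ l * k := Nat.le_mul_of_pos_left k hl0
      omega
    · rintro ⟨⟨h2, _⟩, h4, h3⟩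
      exact ⟨⟨h2, h3⟩, h4⟩
  rw [h1]
  refine sum_congr rfl fun k hk => ?_
  rw [mem_filter, mem_Icc] at hk
  have h6 : l ≤ 2 * N := by
    have h7 : l ≤ l * k := Nat.le_mul_of_pos_right l (by omega)
    omega
  rw [if_pos h6, v_ee, mul_comm θ]
  push_cast
  rfl

lemma v_lam_le {n N : ℕ} (hN : 1 ≤ N) (h : n ≤ N) :
    |(ArithmeticFunction.vonMangoldt n : ℝ)| ≤ Real.log N := by
  rw [abs_of_nonneg ArithmeticFunction.vonMangoldt_nonneg]
  rcases Nat.eq_zero_or_pos n with h0 | h0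
  · rw [h0]
    simp only [ArithmeticFunction.map_zero]
    exact Real.log_natCast_nonneg N
  · refine ArithmeticFunction.vonMangoldt_le_log.trans ?_
    exact Real.log_le_log (by exact_mod_cast h0) (by exact_mod_cast h)

lemma v_block {C : ℕ} {θ : ℝ} {a : ℤ} {q N H U M : ℕ} (h2 : ∀ (N H M : ℕ) (α : ℝ) (a : ℤ) (q : ℕ)
    (b c : ℕ → ℝ), 3 ≤ N → 1 ≤ H →
    H ≤ N → 1 ≤ M → N ≤ 2 * H * M → 1 ≤ q → Int.gcd a q = 1 → |α - a / q| ≤ 1 / (q : ℝ) ^ 2 →
    (∀ l, |b l| ≤ Real.log (2 * N)) → (∀ k, |c k| ≤ k.divisors.card) →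
    ‖∑ l ∈ Ico M (2 * M), ∑ k ∈ (Icc 1 (2 * N)).filter (fun k => N < l * k ∧ l * k ≤ N + H),
      ((b l : ℝ) : ℂ) * ((c k : ℝ) : ℂ) * ee (α * ((l * k : ℕ) : ℝ))‖ ^ 2 ≤
      C * ((H : ℝ) * M + (N : ℝ) * H / M + (H : ℝ) ^ 2 / q + (N : ℝ) * q) * Real.log N ^ C)
    (hN : 3 ≤ N) (hHN : H ≤ N) (hq : 1 ≤ q) (hg : Int.gcd a q = 1)
    (hθ : |θ - a / q| ≤ 1 / (q : ℝ) ^ 2) (hUM : U + 1 ≤ M) {t L X : ℝ}
    (ht : 1 ≤ t) (ht3 : t ^ 3 = N) (hUt : t ≤ (U : ℝ) + 1) (htH : t ^ 2 ≤ H)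
    (hL : L = Real.log N) (hL1 : 1 ≤ L)
    (hX : X = (H : ℝ) / √q + t * √H + √(N * q : ℝ)) :
    ‖v_B θ N H U M‖ ≤ (1 + 3 * C) * L ^ C * X := by
  have hNR : (0 : ℝ) < N := by exact_mod_cast (by omega : 0 < N)
  have hqR : (0 : ℝ) < q := by exact_mod_cast (by omega : 0 < q)
  have hM : 1 ≤ M := by omega
  have hMR : (0 : ℝ) < M := by exact_mod_cast hM
  have hHR : (1 : ℝ) ≤ H := (one_le_pow₀ ht).trans htH
  have hH1 : 1 ≤ H := by exact_mod_cast hHR
  have ht0 : 0 < t := by linarith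
  have htM : t ≤ M := by
    have : ((U + 1 : ℕ) : ℝ) ≤ M := by exact_mod_cast hUM
    push_cast at this
    linarith
  have hX0 : 0 ≤ X := by rw [hX]; positivity
  rcases Nat.lt_or_ge (2 * N) (M * (U + 1)) with hlt | hge
  · -- empty block
    have hz : v_B θ N H U M = 0 := by
      unfold v_B
      refine sum_eq_zero fun l hl => sum_eq_zero fun k hk => ?_
      rw [mem_Ico] at hl
      rw [mem_Icc, Nat.le_div_iff_mul_le (by omega)] at hk
      have h3 : k ≤ U := by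
        by_contra h4
        have h5 : M * (U + 1) ≤ l * k := Nat.mul_le_mul hl.1 (by omega)
        have h6 : k * l = l * k := mul_comm k l
        omega
      rw [MT.cU_eq_zero U k h3]
      simp
    rw [hz, norm_zero]
    positivity
  · have hMt : (M : ℝ) ≤ 2 * t ^ 2 := by
      have h3 : (M : ℝ) * ((U : ℝ) + 1) ≤ 2 * N := by exact_mod_cast hge
      have h4 : t * M ≤ t * (2 * t ^ 2) := by
        have h5 : t * M ≤ (M : ℝ) * ((U : ℝ) + 1) := by
          rw [mul_comm t]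
          exact mul_le_mul_of_nonneg_left hUt hMR.le
        have h6 : t * (2 * t ^ 2) = 2 * t ^ 3 := by ring
        rw [h6, ht3]
        linarith
      exact le_of_mul_le_mul_left h4 ht0
    have hcond : N ≤ 2 * H * M := by
      have h3 : (N : ℝ) ≤ 2 * H * M := by
        have h4 : t ^ 2 * t ≤ H * M := mul_le_mul htH htM ht0.le (by linarith)
        have h5 : t ^ 2 * t = N := by rw [← ht3]; ring
        have h6 : 0 < (H : ℝ) * M := by positivity
        linarith
      exact_mod_cast h3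
    have h3 := h2 N H M θ a q (fun l => if l ≤ 2 * N then ArithmeticFunction.vonMangoldt l else 0)
      (fun k => ((MT.cU U k : ℤ) : ℝ)) hN hH1 hHN hM hcond hq hg hθ ?_ ?_
    · rw [← v_block_eq θ hM hHN, ← hL] at h3
      have hC0 : (0 : ℝ) ≤ C := Nat.cast_nonneg C
      have hs1 : ((H : ℝ) / √q) ^ 2 = (H : ℝ) ^ 2 / q := by
        rw [div_pow, Real.sq_sqrt hqR.le]
      have hs2 : (√(N * q : ℝ)) ^ 2 = (N : ℝ) * q := Real.sq_sqrt (by positivity)
      have hs3 : (t * √(H : ℝ)) ^ 2 = t ^ 2 * H := by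
        rw [mul_pow, Real.sq_sqrt (by linarith)]
      have p1 : 0 ≤ (H : ℝ) / √q := by positivity
      have p2 : 0 ≤ √(N * q : ℝ) := Real.sqrt_nonneg _
      have p3 : 0 ≤ t * √(H : ℝ) := by positivity
      have h4 : (N : ℝ) * H / M ≤ t ^ 2 * H := by
        rw [div_le_iff₀ hMR]
        have h5 : (N : ℝ) ≤ t ^ 2 * M := by
          rw [← ht3]
          have : t ^ 2 * t ≤ t ^ 2 * M := mul_le_mul_of_nonneg_left htM (by positivity)
          calc t ^ 3 = t ^ 2 * t := by ring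
            _ ≤ _ := this
        calc (N : ℝ) * H ≤ t ^ 2 * M * H := mul_le_mul_of_nonneg_right h5 (by linarith)
          _ = t ^ 2 * H * M := by ring
      have h5 : (H : ℝ) * M ≤ 2 * (t ^ 2 * H) := by
        calc (H : ℝ) * M ≤ H * (2 * t ^ 2) := mul_le_mul_of_nonneg_left hMt (by linarith)
          _ = 2 * (t ^ 2 * H) := by ring
      have h6 : (H : ℝ) * M + (N : ℝ) * H / M + (H : ℝ) ^ 2 / q + (N : ℝ) * q ≤ 3 * X ^ 2 := by
        have h7 : X ^ 2 = ((H : ℝ) / √q) ^ 2 + (t * √(H : ℝ)) ^ 2 + (√(N * q : ℝ)) ^ 2 +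
            2 * (((H : ℝ) / √q) * (t * √(H : ℝ)) + ((H : ℝ) / √q) * √(N * q : ℝ) +
              (t * √(H : ℝ)) * √(N * q : ℝ)) := by
          rw [hX]
          ring
        have h8 : 0 ≤ ((H : ℝ) / √q) * (t * √(H : ℝ)) + ((H : ℝ) / √q) * √(N * q : ℝ) +
              (t * √(H : ℝ)) * √(N * q : ℝ) := by positivity
        rw [hs1, hs2, hs3] at h7
        have h9 : 0 ≤ (H : ℝ) ^ 2 / q := by positivity
        have h10 : 0 ≤ (N : ℝ) * q := by positivity
        linarith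
      have h7 : (1 : ℝ) ≤ L ^ C := one_le_pow₀ hL1
      have h8 : ‖v_B θ N H U M‖ ^ 2 ≤ ((1 + 3 * C) * L ^ C * X) ^ 2 := by
        calc ‖v_B θ N H U M‖ ^ 2 ≤ C * ((H : ℝ) * M + (N : ℝ) * H / M + (H : ℝ) ^ 2 / q +
              (N : ℝ) * q) * L ^ C := h3
          _ ≤ C * (3 * X ^ 2) * L ^ C := by
              refine mul_le_mul_of_nonneg_right ?_ (by positivity)
              exact mul_le_mul_of_nonneg_left h6 hC0
          _ = (3 * C) * (X ^ 2 * L ^ C) := by ring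
          _ ≤ (1 + 3 * C) ^ 2 * (X ^ 2 * (L ^ C * L ^ C)) := by
              refine mul_le_mul ?_ ?_ (by positivity) (by positivity)
              · have e1 : (1 + 3 * (C : ℝ)) ^ 2 = 1 + 6 * C + 9 * (C * C) := by ring
                have e2 : 0 ≤ (C : ℝ) * C := mul_nonneg hC0 hC0
                rw [e1]
                linarith
              · refine mul_le_mul_of_nonneg_left ?_ (by positivity)
                exact le_mul_of_one_le_left (by positivity) h7
          _ = ((1 + 3 * C) * L ^ C * X) ^ 2 := by ring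
      exact le_of_sq_le_sq h8 (by positivity)
    · intro l
      split_ifs with h4
      · have := v_lam_le (by omega : 1 ≤ 2 * N) h4
        push_cast at this
        exact this
      · rw [abs_zero]
        apply Real.log_nonneg
        have : (3 : ℝ) ≤ N := by exact_mod_cast hN
        linarith
    · intro k
      have := MT.cU_abs_le U k
      exact_mod_cast this

theorem thm_V (h : St_V2) : St_V := by
  obtain ⟨C2, hII⟩ := h
  obtain ⟨C1, hC1, hI⟩ := Pool.Agent.BVX.typeI_sum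
  obtain ⟨C3, hC3⟩ := exists_nat_ge (18 * C1 + 9 * (1 + 3 * C2) + 2)
  refine ⟨C3 + C2 + 2, fun N H α a q hN hHN hq hg hα => ?_⟩
  have hcop : IsCoprime a (q : ℤ) := Int.isCoprime_iff_gcd_eq_one.2 hg
  have hNR3 : (3 : ℝ) ≤ N := by exact_mod_cast hN
  have hNR : (0 : ℝ) < N := by linarith
  have hqR : (0 : ℝ) < q := by exact_mod_cast (by omega : 0 < q)
  have hq1 : (1 : ℝ) ≤ q := by exact_mod_cast hq
  have hH0 : (0 : ℝ) ≤ H := Nat.cast_nonneg H
  have hHNR : (H : ℝ) ≤ N := by exact_mod_cast hHN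
  obtain ⟨L, hL⟩ : ∃ L, L = Real.log N := ⟨_, rfl⟩
  have hL1 : 1 ≤ L := by
    rw [hL, Real.le_log_iff_exp_le (by linarith)]
    exact (Real.exp_one_lt_d9.le.trans (by norm_num)).trans hNR3
  obtain ⟨t, htdef⟩ : ∃ t, t = (N : ℝ) ^ (1 / 3 : ℝ) := ⟨_, rfl⟩
  have ht3 : t ^ 3 = N := by
    rw [htdef, ← Real.rpow_natCast, ← Real.rpow_mul hNR.le]
    norm_num
  have ht1 : 1 ≤ t := by rw [htdef]; exact Real.one_le_rpow (by linarith) (by norm_num)
  have ht0 : 0 < t := by linarith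
  obtain ⟨X, hX⟩ : ∃ X, X = (H : ℝ) / √q + t * √H + √(N * q : ℝ) := ⟨_, rfl⟩
  have hX0 : 0 ≤ X := by rw [hX]; positivity
  rw [← htdef, ← hL, ← hX]
  have p1 : 0 ≤ (H : ℝ) / √q := by positivity
  have p2 : 0 ≤ √(N * q : ℝ) := Real.sqrt_nonneg _
  have p3 : 0 ≤ t * √(H : ℝ) := by positivity
  have hC30 : (0 : ℝ) ≤ C3 := Nat.cast_nonneg _
  have hC20 : (0 : ℝ) ≤ C2 := Nat.cast_nonneg _
  have hlog2 : Real.log (2 * N) ≤ 2 * L := by
    rw [Real.log_mul (by norm_num) hNR.ne', hL]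
    have : Real.log 2 ≤ Real.log N := Real.log_le_log (by norm_num) (by linarith)
    linarith
  -- enough
  have key : ∀ K : ℝ, K ≤ C3 → ∀ e : ℕ, e ≤ C3 + C2 + 2 → ∀ S : ℝ, S ≤ K * X * L ^ e →
      S ≤ ((C3 + C2 + 2 : ℕ) : ℝ) * X * L ^ (C3 + C2 + 2) := by
    intro K hK e he S hS
    refine hS.trans ?_
    have h1 : K * X ≤ ((C3 + C2 + 2 : ℕ) : ℝ) * X := by
      refine mul_le_mul_of_nonneg_right ?_ hX0
      push_cast
      linarith
    have h2 : L ^ e ≤ L ^ (C3 + C2 + 2) := pow_le_pow_right₀ hL1 he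
    exact mul_le_mul h1 h2 (by positivity) (by positivity)
  have htriv : ‖∑ n ∈ Ioc N (N + H), ((lam n : ℝ) : ℂ) * ee (α * n)‖ ≤ H * (2 * L) := by
    refine (norm_sum_le _ _).trans ?_
    have h1 : ∀ n ∈ Ioc N (N + H), ‖((lam n : ℝ) : ℂ) * ee (α * n)‖ ≤ 2 * L := by
      intro n hn
      rw [mem_Ioc] at hn
      rw [norm_mul, v_ee, norm_ex, mul_one, Complex.norm_real, Real.norm_eq_abs]
      have h2 := v_lam_le (n := n) (N := 2 * N) (by omega) (by omega)
      push_cast at h2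
      exact h2.trans hlog2
    refine (sum_le_card_nsmul _ _ _ h1).trans ?_
    rw [nsmul_eq_mul, Nat.card_Ioc]
    have : N + H - N = H := by omega
    rw [this]
  rcases lt_or_ge (H : ℝ) (t ^ 2) with hsmall | htH
  · -- short window
    refine key 2 (by linarith) 1 (by omega) _ (htriv.trans ?_)
    have h1 : √(H : ℝ) ≤ t := by
      rw [Real.sqrt_le_left ht0.le]
      exact hsmall.le
    have h2 : (H : ℝ) ≤ t * √(H : ℝ) := by
      have h3 : (H : ℝ) = √(H : ℝ) * √(H : ℝ) := (Real.mul_self_sqrt hH0).symm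
      calc (H : ℝ) = √(H : ℝ) * √(H : ℝ) := h3
        _ ≤ t * √(H : ℝ) := mul_le_mul_of_nonneg_right h1 (Real.sqrt_nonneg _)
    have h3 : (H : ℝ) ≤ X := by rw [hX]; linarith
    rw [pow_one]
    have h4 : (H : ℝ) * L ≤ X * L := mul_le_mul_of_nonneg_right h3 (by linarith)
    linarith
  rcases Nat.lt_or_ge N q with hbig | hqN
  · -- large denominator
    refine key 2 (by linarith) 1 (by omega) _ (htriv.trans ?_)
    have h2 : (H : ℝ) ≤ √(N * q : ℝ) := by
      apply Real.le_sqrt_of_sq_le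
      have : (N : ℝ) ≤ q := by exact_mod_cast hbig.le
      rw [sq]
      exact mul_le_mul hHNR (hHNR.trans this) hH0 hNR.le
    have h3 : (H : ℝ) ≤ X := by rw [hX]; linarith
    rw [pow_one]
    have h4 : (H : ℝ) * L ≤ X * L := mul_le_mul_of_nonneg_right h3 (by linarith)
    linarith
  -- main case
  have hqNR : (q : ℝ) ≤ N := by exact_mod_cast hqN
  have hH1R : (1 : ℝ) ≤ H := (one_le_pow₀ ht1).trans htH
  have hH1 : 1 ≤ H := by exact_mod_cast hH1R
  obtain ⟨U, hU, hU3, hU3'⟩ := Pool.Agent.BVX.v3_cube N (by omega)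
  have hUN : U ≤ N := (Nat.le_self_pow (by norm_num) U).trans hU3
  have hUR : (1 : ℝ) ≤ U := by exact_mod_cast hU
  have hUt : (U : ℝ) ≤ t := by
    have h1 : (U : ℝ) ^ 3 ≤ t ^ 3 := by rw [ht3]; exact_mod_cast hU3
    exact le_of_pow_le_pow_left₀ (by norm_num) ht0.le h1
  have htU : t ≤ (U : ℝ) + 1 := by
    have h1 : t ^ 3 ≤ ((U : ℝ) + 1) ^ 3 := by rw [ht3]; exact_mod_cast hU3'.le
    exact le_of_pow_le_pow_left₀ (by norm_num) (by positivity) h1
  have hUU : U * U ≤ N := by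
    calc U * U = U ^ 2 := by ring
      _ ≤ U ^ 3 := Nat.pow_le_pow_right hU (by norm_num)
      _ ≤ N := hU3
  have hUUt : (U : ℝ) * U ≤ t ^ 2 := by
    rw [sq]
    exact mul_le_mul hUt hUt (by linarith) ht0.le
  have hUUH : U * U ≤ H := by
    have h1 : ((U * U : ℕ) : ℝ) ≤ H := by
      push_cast
      exact hUUt.trans htH
    exact_mod_cast h1
  have hUH : U ≤ H := (Nat.le_mul_of_pos_left U hU).trans hUUH
  have htsH : t ^ 2 ≤ t * √(H : ℝ) := by
    have h1 : t ≤ √(H : ℝ) := Real.le_sqrt_of_sq_le htH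
    rw [sq]
    exact mul_le_mul_of_nonneg_left h1 ht0.le
  have hsq : √(q : ℝ) ≤ q := by
    rw [Real.sqrt_le_left hqR.le, sq]
    exact le_mul_of_one_le_left hqR.le hq1
  have hIX : ∀ D : ℕ, 1 ≤ D → D ≤ N → (D : ℝ) ≤ t ^ 2 →
      ∑ d ∈ Icc 1 D, mn (((2 * H : ℕ) : ℝ) / d) (d * α) ≤ 6 * C1 * X * L := by
    intro D hD hDN hDt
    refine (hI α a q hq hcop hα D (2 * H) hD (by omega)).trans ?_
    have hDR : (0 : ℝ) < D := by exact_mod_cast hD
    have h1 : 1 + Real.log ((q : ℝ) * D) ≤ 3 * L := by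
      rw [Real.log_mul hqR.ne' hDR.ne']
      have h2 : Real.log q ≤ L := by rw [hL]; exact Real.log_le_log hqR hqNR
      have h3 : Real.log D ≤ L := by
        rw [hL]
        exact Real.log_le_log hDR (by exact_mod_cast hDN)
      linarith
    have h1' : 0 ≤ 1 + Real.log ((q : ℝ) * D) := by
      have : 0 ≤ Real.log ((q : ℝ) * D) := by
        apply Real.log_nonneg
        have : (1 : ℝ) ≤ D := by exact_mod_cast hD
        exact one_le_mul_of_one_le_of_one_le hq1 this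
      linarith
    have h2 : ((2 * H : ℕ) : ℝ) / q + D + q ≤ 2 * X := by
      have h3 : (H : ℝ) / q ≤ (H : ℝ) / √q :=
        div_le_div_of_nonneg_left hH0 (Real.sqrt_pos.2 hqR) hsq
      have h4 : (q : ℝ) ≤ √(N * q : ℝ) := by
        apply Real.le_sqrt_of_sq_le
        rw [sq]
        exact mul_le_mul_of_nonneg_right hqNR hqR.le
      have h5 : ((2 * H : ℕ) : ℝ) / q = 2 * ((H : ℝ) / q) := by
        push_cast
        ring
      rw [h5, hX]
      linarith
    calc C1 * (((2 * H : ℕ) : ℝ) / q + D + q) * (1 + Real.log (q * D : ℝ))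
        ≤ C1 * (2 * X) * (3 * L) :=
          mul_le_mul (mul_le_mul_of_nonneg_left h2 hC1.le) h1 h1' (by positivity)
      _ = 6 * C1 * X * L := by ring
  have e0 : ∑ n ∈ Ioc N (N + H), ((lam n : ℝ) : ℂ) * ee (α * n) =
      ∑ n ∈ Icc 1 (N + H), ((ArithmeticFunction.vonMangoldt n : ℝ) : ℂ) *
        (if N < n then ex (n * α) else 0) := by
    simp only [mul_ite, mul_zero]
    rw [← sum_filter]
    have h1 : (Icc 1 (N + H)).filter (fun n => N < n) = Ioc N (N + H) := by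
      ext n
      simp only [mem_filter, mem_Icc, mem_Ioc]
      omega
    rw [h1]
    refine sum_congr rfl fun n _ => ?_
    rw [v_ee, mul_comm α]
    rfl
  rw [e0, MT.vaughan U U (N + H) (fun n => if N < n then ex (n * α) else 0)]
  have t0 : ‖∑ n ∈ (Icc 1 (N + H)).filter (fun n => n ≤ U),
      ((ArithmeticFunction.vonMangoldt n : ℝ) : ℂ) * (if N < n then ex (n * α) else 0)‖ ≤ 0 := by
    rw [sum_eq_zero, norm_zero]
    intro n hn
    rw [mem_filter] at hn
    rw [if_neg (by omega), mul_zero]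
  have t1 : ‖∑ m ∈ Icc 1 U, (ArithmeticFunction.moebius m : ℂ) *
      ∑ k ∈ Icc 1 ((N + H) / m), ((Real.log k : ℝ) : ℂ) *
        (if N < m * k then ex (((m * k : ℕ) : ℝ) * α) else 0)‖ ≤ 2 * L * (6 * C1 * X * L) := by
    refine (norm_sum_le _ _).trans ?_
    have h1 : ∀ m ∈ Icc 1 U, ‖(ArithmeticFunction.moebius m : ℂ) *
        ∑ k ∈ Icc 1 ((N + H) / m), ((Real.log k : ℝ) : ℂ) *
          (if N < m * k then ex (((m * k : ℕ) : ℝ) * α) else 0)‖ ≤
        2 * L * mn (((2 * H : ℕ) : ℝ) / m) (m * α) := by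
      intro m hm
      rw [mem_Icc] at hm
      have hmR : (0 : ℝ) < m := by exact_mod_cast hm.1
      rw [norm_mul, v_win N (N + H) m hm.1 α]
      have h3 := v_log_geom (N / m) ((N + H) / m) (v_len hm.1 (by omega)) ((m : ℝ) * α)
      have hmn : 0 ≤ mn (((2 * H : ℕ) : ℝ) / m) (m * α) := mn_nonneg (by positivity) _
      have h4 : Real.log (((N + H) / m : ℕ) : ℝ) ≤ 2 * L := by
        rcases Nat.eq_zero_or_pos ((N + H) / m) with h0 | h0
        · rw [h0]
          simp only [Nat.cast_zero, Real.log_zero]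
          linarith
        · refine le_trans ?_ hlog2
          refine Real.log_le_log (by exact_mod_cast h0) ?_
          have : (N + H) / m ≤ 2 * N := (Nat.div_le_self _ _).trans (by omega)
          exact_mod_cast this
      calc _ ≤ 1 * (Real.log (((N + H) / m : ℕ) : ℝ) * mn (((2 * H : ℕ) : ℝ) / m) (m * α)) :=
            mul_le_mul (Pool.Agent.BVX.v3_mu m) h3 (norm_nonneg _) (by norm_num)
        _ ≤ 2 * L * mn (((2 * H : ℕ) : ℝ) / m) (m * α) := by
            rw [one_mul]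
            exact mul_le_mul_of_nonneg_right h4 hmn
    refine (sum_le_sum h1).trans ?_
    rw [← Finset.mul_sum]
    exact mul_le_mul_of_nonneg_left (hIX U hU hUN
      (hUt.trans (le_self_pow₀ ht1 (by norm_num)))) (by linarith)
  have t2 : ‖∑ m ∈ Icc 1 U, ∑ l ∈ Icc 1 U, (ArithmeticFunction.moebius m : ℂ) *
      ((ArithmeticFunction.vonMangoldt l : ℝ) : ℂ) *
      ∑ k ∈ Icc 1 ((N + H) / (m * l)),
        (if N < m * l * k then ex (((m * l * k : ℕ) : ℝ) * α) else 0)‖ ≤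
      L * (6 * C1 * X * L) := by
    refine (norm_sum_le _ _).trans ?_
    have h1 : ∀ m ∈ Icc 1 U, ‖∑ l ∈ Icc 1 U, (ArithmeticFunction.moebius m : ℂ) *
        ((ArithmeticFunction.vonMangoldt l : ℝ) : ℂ) *
        ∑ k ∈ Icc 1 ((N + H) / (m * l)),
          (if N < m * l * k then ex (((m * l * k : ℕ) : ℝ) * α) else 0)‖ ≤
        ∑ l ∈ Icc 1 U, ArithmeticFunction.vonMangoldt l *
          mn (((2 * H : ℕ) : ℝ) / ((m * l : ℕ) : ℝ)) (((m * l : ℕ) : ℝ) * α) := by
      intro m hm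
      rw [mem_Icc] at hm
      refine (norm_sum_le _ _).trans (sum_le_sum fun l hl => ?_)
      rw [mem_Icc] at hl
      have hml : 1 ≤ m * l := Nat.mul_pos hm.1 hl.1
      have hmlH : m * l ≤ H := (Nat.mul_le_mul hm.2 hl.2).trans hUUH
      have e1 := v_win N (N + H) (m * l) hml α (fun _ => 1)
      simp only [one_mul] at e1
      rw [e1]
      have h3 := v_geom (N / (m * l)) ((N + H) / (m * l)) (v_len hml hmlH)
        (((m * l : ℕ) : ℝ) * α)
      rw [norm_mul, norm_mul]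
      have h4 : ‖((ArithmeticFunction.vonMangoldt l : ℝ) : ℂ)‖ =
          ArithmeticFunction.vonMangoldt l := by
        rw [Complex.norm_real, Real.norm_eq_abs, abs_of_nonneg ArithmeticFunction.vonMangoldt_nonneg]
      rw [h4]
      have h5 : (0 : ℝ) ≤ ArithmeticFunction.vonMangoldt l :=
        ArithmeticFunction.vonMangoldt_nonneg
      calc _ ≤ 1 * ArithmeticFunction.vonMangoldt l *
            mn (((2 * H : ℕ) : ℝ) / ((m * l : ℕ) : ℝ)) (((m * l : ℕ) : ℝ) * α) :=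
            mul_le_mul (mul_le_mul_of_nonneg_right (Pool.Agent.BVX.v3_mu m) h5) h3
              (norm_nonneg _) (by positivity)
        _ = _ := by rw [one_mul]
    refine (sum_le_sum h1).trans ?_
    have h2 := Pool.Agent.BVX.v3_group U
      (fun t => mn (((2 * H : ℕ) : ℝ) / (t : ℝ)) ((t : ℝ) * α))
      (fun t => mn_nonneg (by positivity) _)
    refine h2.trans ?_
    have h3 : ∑ t ∈ Icc 1 (U * U), Real.log t * mn (((2 * H : ℕ) : ℝ) / (t : ℝ)) ((t : ℝ) * α) ≤
        ∑ t ∈ Icc 1 (U * U), L * mn (((2 * H : ℕ) : ℝ) / (t : ℝ)) ((t : ℝ) * α) := by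
      refine sum_le_sum fun t ht => ?_
      rw [mem_Icc] at ht
      refine mul_le_mul_of_nonneg_right ?_ (mn_nonneg (by positivity) _)
      rw [hL]
      exact Real.log_le_log (by exact_mod_cast ht.1) (by exact_mod_cast ht.2.trans hUU)
    refine h3.trans ?_
    rw [← Finset.mul_sum]
    refine mul_le_mul_of_nonneg_left (hIX (U * U) (Nat.mul_pos hU hU) hUU ?_) (by linarith)
    push_cast
    exact hUUt
  obtain ⟨J, hJ, hJL⟩ := Pool.Agent.BVX.v3_J (2 * N) (by omega)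
  have hJL' : (J : ℝ) ≤ 9 * L := by
    refine hJL.trans ?_
    push_cast
    linarith
  have t3 : ‖∑ l ∈ Ioc U (N + H), ∑ k ∈ Icc 1 ((N + H) / l),
      ((ArithmeticFunction.vonMangoldt l : ℝ) : ℂ) *
      (MT.cU U k : ℂ) * (if N < l * k then ex (((l * k : ℕ) : ℝ) * α) else 0)‖ ≤
      9 * L * ((1 + 3 * C2) * L ^ C2 * X) := by
    have hsub : Ioc U (N + H) ⊆ Ico (U + 1) ((U + 1) * 2 ^ J) := by
      intro l hl
      rw [mem_Ioc] at hl
      rw [mem_Ico]
      refine ⟨by omega, ?_⟩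
      have h1 : 1 * 2 ^ J < (U + 1) * 2 ^ J := Nat.mul_lt_mul_of_pos_right (by omega) (by positivity)
      omega
    rw [sum_subset hsub, v_dyadic]
    · refine (norm_sum_le _ _).trans ?_
      have h1 : ∀ i ∈ range J, ‖∑ l ∈ Ico ((U + 1) * 2 ^ i) (2 * ((U + 1) * 2 ^ i)),
          ∑ k ∈ Icc 1 ((N + H) / l), ((ArithmeticFunction.vonMangoldt l : ℝ) : ℂ) *
          (MT.cU U k : ℂ) * (if N < l * k then ex (((l * k : ℕ) : ℝ) * α) else 0)‖ ≤
          (1 + 3 * C2) * L ^ C2 * X := by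
        intro i _
        exact v_block hII hN hHN hq hg hα (Nat.le_mul_of_pos_right _ (by positivity)) ht1 ht3 htU
          htH hL hL1 hX
      refine (sum_le_card_nsmul _ _ _ h1).trans ?_
      rw [nsmul_eq_mul, card_range]
      exact mul_le_mul_of_nonneg_right hJL' (by positivity)
    · intro l hl hl'
      rw [mem_Ico] at hl
      rw [mem_Ioc] at hl'
      have h0 : (N + H) / l = 0 := Nat.div_eq_of_lt (by omega)
      rw [h0]
      simp
  refine key (18 * C1 + 9 * (1 + 3 * C2)) (by linarith) (C2 + 2) (by omega) _ ?_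
  calc _ ≤ 0 + 2 * L * (6 * C1 * X * L) + L * (6 * C1 * X * L) +
        9 * L * ((1 + 3 * C2) * L ^ C2 * X) := by
        refine (norm_add_le _ _).trans (add_le_add ?_ t3)
        refine (norm_sub_le _ _).trans (add_le_add ?_ t2)
        exact (norm_add_le _ _).trans (add_le_add t0 t1)
    _ = 18 * C1 * X * L ^ 2 + 9 * (1 + 3 * C2) * X * L ^ (C2 + 1) := by
        rw [pow_succ]
        ring
    _ ≤ 18 * C1 * X * L ^ (C2 + 2) + 9 * (1 + 3 * C2) * X * L ^ (C2 + 2) := by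
        have h1 : L ^ 2 ≤ L ^ (C2 + 2) := pow_le_pow_right₀ hL1 (by omega)
        have h2 : L ^ (C2 + 1) ≤ L ^ (C2 + 2) := pow_le_pow_right₀ hL1 (by omega)
        have h3 : 18 * C1 * X * L ^ 2 ≤ 18 * C1 * X * L ^ (C2 + 2) :=
          mul_le_mul_of_nonneg_left h1 (by positivity)
        have h4 : 9 * (1 + 3 * C2) * X * L ^ (C2 + 1) ≤ 9 * (1 + 3 * C2) * X * L ^ (C2 + 2) :=
          mul_le_mul_of_nonneg_left h2 (by positivity)
        linarith
    _ = (18 * C1 + 9 * (1 + 3 * C2)) * X * L ^ (C2 + 2) := by ring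

end Pool.Agent.CSH
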