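import Pool.Agent.CSH.V2
import Pool.Agent.CSH.V
import Pool.Agent.CSH.Maj
import Pool.Agent.CSH.Sup
import Pool.Agent.CSH.Cell
import Pool.Agent.CSH.Err
import Pool.Agent.CSH.MM
import Pool.Agent.CSH.First
import Pool.Agent.CSH.Core
import Pool.Agent.CSH.Fin
import Pool.Agent.CSH.Loc
import Pool.Agent.TSH.Four
import Pool.Agent.TSH.BT2

/-!
# CSH: assembly
-/

set_option autoImplicit false

namespace Pool.Agent.CSH

open Finset Pool.Agent.TSH

theorem asm_err : St_Err :=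
  thm_Err (thm_Sup (thm_V thm_V2) (thm_Maj asm_loc)) thm_Cell thm_CellB

theorem asm_core : St_Core :=
  thm_Core (thm_First asm_err thm_MM) TSH.thm_Four TSH.thm_BT2

open Classical in
theorem final (C : ℕ) (ε : ℝ) (hε : 0 < ε) : ∃ c : ℝ, 0 < c ∧ ∃ n₀ : ℕ, ∀ n H Z : ℕ, n₀ ≤ n →
    (n : ℝ) ^ (3 / 4 + ε) ≤ H → H ≤ Z → (Z : ℝ) ≤ n * Real.log n →
    ∀ K : Finset ℕ, (∀ k ∈ K, 1 ≤ k ∧ (k : ℝ) ≤ c * Z / Real.log n) →
      (n : ℝ) / Real.log n ^ C ≤ K.card →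
      c * H * max (1 / Real.log (Real.log (Real.log n)) ^ 2)
          (K.card * Real.log n / (Z * Real.log (Real.log (Real.log n)))) ≤
        (((Icc 1 H).filter (fun h => c * K.card / Real.log n ^ 2 ≤ numDec K h n)).card : ℝ) :=
  final' asm_core C ε hε

end Pool.Agent.CSH
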