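import Mathlib
import Pool.Agent.CSH.St
import Pool.Agent.CSH.First

set_option autoImplicit false

/-!
# CSH / FirstS: the first moment for the shifts in an interval (after CSH/First.lean)
-/

namespace Pool.Agent.CSH

open Finset Filter
open Pool.Agent.GBQ (ee nd gm lam LamS zz rho pr badPP bad_card_pp)
open Pool.Agent.TSH (Fam rr RR yL L3 lam_le_log lam_nonneg RR_mono sum_rr one_le_RR)

/-- [FirstS] `St_First` for the shifts in `(s, s + H]` -/
def St_FirstS : Prop := ∀ (A : ℕ) (ε : ℝ), 0 < ε → ∃ c : ℝ, 0 < c ∧ ∀ᶠ X : ℕ in atTop,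
  ∀ (H Z s : ℕ) (K : Finset ℕ) (a b : ℕ → ℕ), (X : ℝ) ^ (3 / 4 + ε) ≤ H → H ≤ Z → 16 * Z ≤ X →
  16 * s ≤ X → Fam X Z K a b → Mono K a b → (X : ℝ) / Real.log X ^ A ≤ K.card →
  c * H / Real.log X ^ 2 * ∑ k ∈ K, RR (yL X) (b k - a k) ≤
    ∑ h ∈ Icc 1 H, (rr K (fun k => a k + s) (fun k => b k + s) h : ℝ)

theorem thm_FirstS (hE : St_Err) (hM : St_MM) : St_FirstS := by
  intro A ε hε
  refine ⟨1 / 32, by norm_num, ?_⟩
  obtain ⟨B₀, hB₀⟩ := hE (A + 2) ε hε
  obtain ⟨B, hB⟩ : ∃ B : ℕ, B = B₀ + 2 := ⟨_, rfl⟩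
  have hlogT : Tendsto (fun X : ℕ => Real.log X) atTop atTop :=
    Real.tendsto_log_atTop.comp tendsto_natCast_atTop_atTop
  filter_upwards [hB₀ B (by omega), hM B (3 / 4 + ε) (by positivity), eventually_ge_atTop 3,
    hlogT.eventually_ge_atTop 16, first_ev,
    hlogT.eventually ((Real.isLittleO_pow_log_id_atTop (n := 2)).bound (show (0 : ℝ) < 1 / 2 by
      norm_num))] with X hEX hMX hX3' hlog16 hev hll H Z s K a b hH hHZ hZX hsX hF hmono hK
  have hX3 : (3 : ℝ) ≤ X := by exact_mod_cast hX3'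
  have hX0 : (0 : ℝ) < X := by linarith
  obtain ⟨L, hL⟩ : ∃ L : ℝ, L = Real.log X := ⟨_, rfl⟩
  rw [← hL] at hK hlog16 hev
  have hL1 : 1 ≤ L := by linarith
  have hL0 : 0 < L := by linarith
  -- sizes
  have hsq : Real.sqrt X = (X : ℝ) ^ (1 / 2 : ℝ) := Real.sqrt_eq_rpow _
  have hX34 : (X : ℝ) ^ (3 / 4 : ℝ) ≤ H := by
    refine le_trans ?_ hH
    exact Real.rpow_le_rpow_of_exponent_le (by linarith) (by linarith)
  have hroot : 192 * (Real.sqrt X * L ^ 3) ≤ H := by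
    refine le_trans ?_ hX34
    have e1 : (X : ℝ) ^ (3 / 4 : ℝ) = (X : ℝ) ^ (1 / 2 : ℝ) * (X : ℝ) ^ (1 / 4 : ℝ) := by
      rw [← Real.rpow_add hX0]
      norm_num
    rw [e1, hsq]
    have e2 : 0 ≤ (X : ℝ) ^ (1 / 2 : ℝ) := Real.rpow_nonneg hX0.le _
    calc 192 * ((X : ℝ) ^ (1 / 2 : ℝ) * L ^ 3) = (X : ℝ) ^ (1 / 2 : ℝ) * (192 * L ^ 3) := by ring
      _ ≤ _ := mul_le_mul_of_nonneg_left hev e2
  have hs1 : 1 ≤ Real.sqrt X := by
    rw [Real.one_le_sqrt]
    linarith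
  have hH192 : (192 : ℝ) ≤ H := by
    have h1 : (1 : ℝ) ≤ L ^ 3 := one_le_pow₀ hL1
    have h2 : (1 : ℝ) ≤ Real.sqrt X * L ^ 3 := by nlinarith
    linarith
  have hH192' : 192 ≤ H := by exact_mod_cast hH192
  -- the limit of the preliminary sieve
  obtain ⟨z, hz⟩ : ∃ z : ℕ, z = zz B X := ⟨_, rfl⟩
  have hzle : (z : ℝ) ≤ L ^ B := by
    rw [hz, hL]
    unfold zz
    exact Nat.floor_le (by rw [← hL]; positivity)
  have hzge : L ^ B < z + 1 := by
    rw [hz, hL]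
    unfold zz
    exact Nat.lt_floor_add_one _
  have hLB : L ≤ L ^ B := by
    calc L = L ^ 1 := (pow_one L).symm
      _ ≤ L ^ B := pow_le_pow_right₀ hL1 (by omega)
  have hz2 : 2 ≤ z := by
    have : (2 : ℝ) ≤ z := by linarith
    exact_mod_cast this
  have hyz : yL X ≤ z := by
    have h1 : (yL X : ℝ) < Real.log (Real.log X) ^ 2 + 1 := by
      unfold yL
      exact Nat.ceil_lt_add_one (by positivity)
    have h2 : Real.log (Real.log X) ^ 2 ≤ L - 2 := by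
      rw [Real.norm_of_nonneg (by positivity), id, Real.norm_of_nonneg (by rw [← hL]; exact hL0.le),
        ← hL] at hll
      rw [← hL]
      linarith
    have h3 : (yL X : ℝ) < z + 1 := by linarith
    have h4 : yL X < z + 1 := by exact_mod_cast h3
    omega
  -- the families
  have hD1 : ∀ k ∈ K, a k + s < b k + s ∧ b k + s ≤ X ∧ b k + s + H ≤ X ∧
      2 ∣ (b k + s) - (a k + s) := by
    intro k hk
    have e1 := hF.sa k hk
    have e2 := hF.lb k hk
    have e3 := hF.ub k hk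
    have e4 := hF.sq k hk
    refine ⟨by omega, by omega, by omega, ?_⟩
    have e5 : a k ≠ 2 := by
      intro h
      rw [h] at e4
      omega
    have e6 := (hF.pa k hk).eq_two_or_odd
    have e7 := (hF.pb k hk).eq_two_or_odd
    have e8 := (hF.pa k hk).two_le
    omega
  have herr := hEX H K (fun k => a k + s) (fun k => b k + s) hH (by omega)
    (fun k hk => ⟨(hD1 k hk).1, (hD1 k hk).2.1⟩) (fun k hk k' hk' h =>
      ⟨Nat.add_lt_add_right (hmono k hk k' hk' h).1 s, Nat.add_lt_add_right (hmono k hk k' hk' h).2 s⟩)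
  rw [← hL, ← hz] at herr
  have hmain : ∀ k ∈ K, (H : ℝ) / 8 * RR (yL X) (b k - a k) ≤
      ∑ h ∈ Icc 1 H, LamS z (a k + s + h) * LamS z (b k + s + h) := by
    intro k hk
    obtain ⟨e1, e2, e3, e4⟩ := hD1 k hk
    refine le_trans ?_ (hMX z hz2 (by rw [← hL]; exact hzle) H (a k + s) (b k + s) hH e1 e2 e4)
    rw [Nat.add_sub_add_right]
    exact mul_le_mul_of_nonneg_left (RR_mono hyz _) (by positivity)
  obtain ⟨T, hT⟩ : ∃ T : ℝ, T = ∑ k ∈ K, RR (yL X) (b k - a k) := ⟨_, rfl⟩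
  obtain ⟨κ, hκ⟩ : ∃ κ : ℝ, κ = K.card := ⟨_, rfl⟩
  rw [← hκ] at hK
  have hκ0 : 0 ≤ κ := by rw [hκ]; exact Nat.cast_nonneg _
  have hκT : κ ≤ T := by
    rw [hT, hκ]
    calc (K.card : ℝ) = ∑ _k ∈ K, (1 : ℝ) := by rw [Finset.sum_const, nsmul_eq_mul, mul_one]
      _ ≤ _ := Finset.sum_le_sum fun k _ => one_le_RR _ _
  have hup : ∑ k ∈ K, ∑ h ∈ Icc 1 H, lam (a k + s + h) * lam (b k + s + h) ≤
      L ^ 2 * (∑ h ∈ Icc 1 H, (rr K (fun k => a k + s) (fun k => b k + s) h : ℝ) + κ * (6 * (Real.sqrt X * L))) := by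
    have h1 : ∀ k ∈ K, ∑ h ∈ Icc 1 H, lam (a k + s + h) * lam (b k + s + h) ≤ L ^ 2 *
        ((((Icc 1 H).filter (fun h => (a k + s + h).Prime ∧ (b k + s + h).Prime)).card : ℝ) +
          6 * (Real.sqrt X * L)) := by
      intro k hk
      obtain ⟨e1, e2, e3, e4⟩ := hD1 k hk
      rw [hL]
      exact first_le (by omega) e1.le e3
    refine (Finset.sum_le_sum h1).trans (le_of_eq ?_)
    rw [sum_rr, ← Finset.mul_sum, Finset.sum_add_distrib, Finset.sum_const, nsmul_eq_mul, hκ]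
  have hlow : (H : ℝ) / 8 * T - X * H / L ^ (A + 2) ≤
      ∑ k ∈ K, ∑ h ∈ Icc 1 H, lam (a k + s + h) * lam (b k + s + h) := by
    have h1 := Finset.sum_le_sum hmain
    rw [← Finset.mul_sum, ← hT] at h1
    have h2 : ∑ k ∈ K, ∑ h ∈ Icc 1 H, LamS z (a k + s + h) * LamS z (b k + s + h) -
        ∑ k ∈ K, ∑ h ∈ Icc 1 H, lam (a k + s + h) * lam (b k + s + h) ≤ X * H / L ^ (A + 2) := by
      rw [← Finset.sum_sub_distrib]
      refine le_trans (Finset.sum_le_sum fun k _ => ?_) herr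
      rw [abs_sub_comm]
      exact le_abs_self _
    linarith
  have hE1 : (X : ℝ) * H / L ^ (A + 2) ≤ H * κ / 16 := by
    have h1 : (X : ℝ) * H / L ^ (A + 2) = (X / L ^ A) * H / L ^ 2 := by
      rw [pow_add]
      field_simp
    rw [h1]
    have h2 : (16 : ℝ) ≤ L ^ 2 := by nlinarith
    calc (X / L ^ A) * H / L ^ 2 ≤ κ * H / L ^ 2 := by
          apply div_le_div_of_nonneg_right _ (by positivity)
          exact mul_le_mul_of_nonneg_right hK (Nat.cast_nonneg _)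
      _ ≤ κ * H / 16 := div_le_div_of_nonneg_left (by positivity) (by norm_num) h2
      _ = _ := by ring
  have hE2 : L ^ 2 * (κ * (6 * (Real.sqrt X * L))) ≤ H * κ / 32 := by
    calc L ^ 2 * (κ * (6 * (Real.sqrt X * L))) = κ * (192 * (Real.sqrt X * L ^ 3)) / 32 := by ring
      _ ≤ κ * H / 32 := by
          apply div_le_div_of_nonneg_right _ (by norm_num)
          exact mul_le_mul_of_nonneg_left hroot hκ0
      _ = _ := by ring
  rw [← hT, ← hL]
  have h1 : (H : ℝ) * κ ≤ H * T := mul_le_mul_of_nonneg_left hκT (by linarith)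
  have h2 : (H : ℝ) / 32 * T ≤ L ^ 2 * ∑ h ∈ Icc 1 H, (rr K (fun k => a k + s) (fun k => b k + s) h : ℝ) := by
    rw [mul_add] at hup
    linarith
  have h3 : 1 / 32 * (H : ℝ) / L ^ 2 * T = (H / 32 * T) / L ^ 2 := by ring
  rw [h3, div_le_iff₀ (by positivity)]
  linarith

end Pool.Agent.CSH
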