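import Mathlib
import Pool.Agent.CSH.St
import Pool.Agent.TSH.Four

set_option autoImplicit false

/-!
# CSH / FourS: the sieve of dimension four for the shifts in an interval (after TSH/Four.lean)
-/

namespace Pool.Agent.CSH

open Finset Filter
open Pool.Agent.Helper90.Straus (pr mem_pr g Sys surv mem_surv sieve_upper)
open Pool.Agent.PC.BlockB (log_le_prod one_sub_pos log_sq_le)
open Pool.Agent.GBQ (rho)
open Pool.Agent.TSH

/-- [FourS] `TSH.St_Four` for the shifts in `(s, s + X1]` -/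
def St_FourS : Prop := ∃ (C : ℝ) (X₀ : ℕ), 0 < C ∧ ∀ X1 s y a a' b b' : ℕ, X₀ ≤ X1 → 2 ≤ y →
  (y : ℝ) ≤ Real.log X1 → a.Prime → a'.Prime → b.Prime → b'.Prime → X1 < a ^ 2 → X1 < a' ^ 2 →
  a ≠ a' → b ≠ b' → a < b → a' < b → a < b' → a' < b' →
  big y (Nat.dist a a') ≤ y → big y (Nat.dist b b') ≤ y → big y (b - a) ≤ y →
  big y (b - a') ≤ y → big y (b' - a) ≤ y → big y (b' - a') ≤ y →
  (((Icc 1 X1).filter (fun h => (a + s + h).Prime ∧ (a' + s + h).Prime ∧ (b + s + h).Prime ∧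
      (b' + s + h).Prime)).card : ℝ) ≤
    C * X1 / Real.log X1 ^ 4 * RR y (b - a) *
      min ((rho y)⁻¹ ^ 2) ((rho y)⁻¹ * RR y (Nat.dist a a') * RR y (b - a'))

/-- `TSH.St_Four` for the shifts in `(s, s + X1]` -/
theorem thm_FourS : St_FourS := by
  obtain ⟨c, R₀, hc2, hs⟩ := sieve_upper (κ := 4) (by norm_num)
  refine ⟨(2 * Real.exp 36 + 256) * (2 * c) ^ 4, (2 ^ 2 ^ R₀) ^ c, by positivity, ?_⟩
  intro X1 s y a a' b b' hX hy hyX ha ha' hb hb' hax ha'x haa hbb hab ha'b hab' ha'b' k1 k2 k3 k4 k5 k6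
  -- the sieving range
  obtain ⟨R, hR, hRL, hRL'⟩ : ∃ R, R₀ ≤ R ∧ (2 ^ 2 ^ R) ^ c ≤ X1 ∧
      X1 < (2 ^ 2 ^ (R + 1)) ^ c := by
    have hex : ∃ i, X1 < (2 ^ 2 ^ (R₀ + i)) ^ c := by
      refine ⟨X1, ?_⟩
      calc X1 < 2 ^ X1 := Nat.lt_two_pow_self
        _ ≤ 2 ^ 2 ^ (R₀ + X1) := by
          apply Nat.pow_le_pow_right (by norm_num)
          calc X1 ≤ 2 ^ X1 := Nat.lt_two_pow_self.le
            _ ≤ 2 ^ (R₀ + X1) := Nat.pow_le_pow_right (by norm_num) (by omega)
        _ = (2 ^ 2 ^ (R₀ + X1)) ^ 1 := (pow_one _).symm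
        _ ≤ (2 ^ 2 ^ (R₀ + X1)) ^ c := Nat.pow_le_pow_right Nat.one_le_two_pow (by omega)
    classical
    obtain ⟨i, hi⟩ : ∃ i, i = Nat.find hex := ⟨_, rfl⟩
    have hi1 : X1 < (2 ^ 2 ^ (R₀ + i)) ^ c := by
      rw [hi]
      exact Nat.find_spec hex
    have hi0 : i ≠ 0 := by
      intro h0
      rw [h0] at hi1
      simp only [add_zero] at hi1
      omega
    have hi2 : ¬ X1 < (2 ^ 2 ^ (R₀ + (i - 1))) ^ c := Nat.find_min hex (by omega)
    refine ⟨R₀ + (i - 1), by omega, not_lt.1 hi2, ?_⟩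
    have h5 : R₀ + (i - 1) + 1 = R₀ + i := by omega
    rw [h5]
    exact hi1
  obtain ⟨z, hz⟩ : ∃ z : ℕ, z = 2 ^ 2 ^ R := ⟨_, rfl⟩
  have hzz : 2 ^ 2 ^ (R + 1) = z ^ 2 := by
    rw [hz, ← pow_mul]
    congr 1
  have hz2 : 2 ≤ z := by
    rw [hz]
    calc 2 = 2 ^ 1 := rfl
      _ ≤ 2 ^ 2 ^ R := Nat.pow_le_pow_right (by norm_num) Nat.one_le_two_pow
  rw [hzz] at hRL'
  have hzc : (2 : ℝ) ^ 2 ^ R = z := by
    rw [hz]
    push_cast
    rfl
  have hzX : z ^ 2 ≤ X1 := by
    rw [← hz] at hRL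
    exact (Nat.pow_le_pow_right (by omega) hc2).trans hRL
  have hbig : ∀ q : ℕ, q.Prime → X1 < q ^ 2 → z < q := by
    intro q _ hq
    by_contra hcon
    have : q ^ 2 ≤ z ^ 2 := Nat.pow_le_pow_left (not_lt.1 hcon) 2
    omega
  have hza := hbig a ha hax
  have hza' := hbig a' ha' ha'x
  have hzb : z < b := hza.trans hab
  have hzb' : z < b' := hza.trans hab'
  have hnd : ∀ q : ℕ, q.Prime → z < q → ∀ p, p.Prime → p < z → ¬ p ∣ q := by
    intro q hq hzq p hp hpz hd
    have := (Nat.prime_dvd_prime_iff_eq hp hq).1 hd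
    omega
  have hS : Sys 4 (Om4 z a a' b b') := sys_Om4 (hnd a ha hza) (hnd a' ha' hza') (hnd b hb hzb)
    (hnd b' hb' hzb')
  have hmain := hs R hR (Om4 z a a' b b') hS (1 + s) X1 hRL
  rw [← hz, hzc] at hmain
  -- the survivors
  have hcount0 : ((Icc 1 X1).filter (fun h => (a + s + h).Prime ∧ (a' + s + h).Prime ∧
      (b + s + h).Prime ∧ (b' + s + h).Prime)).card ≤
      (surv (Om4 z a a' b b') z (1 + s) X1).card := by
    apply Finset.card_le_card_of_injOn (fun h => s + h)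
    · intro n hn
      rw [Finset.mem_coe, mem_filter, mem_Icc] at hn
      obtain ⟨⟨n1, n2⟩, q1, q2, q3, q4⟩ := hn
      rw [add_assoc] at q1 q2 q3 q4
      show s + n ∈ (surv (Om4 z a a' b b') z (1 + s) X1 : Set ℕ)
      rw [Finset.mem_coe, mem_surv]
      refine ⟨⟨by omega, by omega⟩, fun p hp hpz hmem => ?_⟩
      unfold Om4 at hmem
      rw [if_pos hpz] at hmem
      simp only [mem_insert, mem_singleton] at hmem
      have hp0 := hp.pos
      rcases hmem with h5 | h5 | h5 | h5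
      · have := (Nat.prime_dvd_prime_iff_eq hp q1).1 (fcl_dvd a hp0 h5)
        omega
      · have := (Nat.prime_dvd_prime_iff_eq hp q2).1 (fcl_dvd a' hp0 h5)
        omega
      · have := (Nat.prime_dvd_prime_iff_eq hp q3).1 (fcl_dvd b hp0 h5)
        omega
      · have := (Nat.prime_dvd_prime_iff_eq hp q4).1 (fcl_dvd b' hp0 h5)
        omega
    · intro x _ x' _ h
      have h' : s + x = s + x' := h
      omega
  have hcount := (show (((Icc 1 X1).filter (fun h => (a + s + h).Prime ∧ (a' + s + h).Prime ∧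
    (b + s + h).Prime ∧ (b' + s + h).Prime)).card : ℝ) ≤
      ((surv (Om4 z a a' b b') z (1 + s) X1).card : ℝ) by exact_mod_cast hcount0).trans hmain
  -- the product
  have hy1 : 1 ≤ y := by omega
  have D1 : 0 < Nat.dist a a' := Nat.dist_pos_of_ne haa
  have D2 : 0 < Nat.dist b b' := Nat.dist_pos_of_ne hbb
  have hT : ∏ p ∈ (pr 2 z).filter (fun p => ¬ p ≤ y), TT a a' b b' p ^ 3 ≤ Real.exp 36 := by
    have e : ∀ D, 0 < D → big y D ≤ y →
        0 ≤ ∏ p ∈ (pr 2 z).filter (fun p => ¬ p ≤ y), ff D p ∧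
        ∏ p ∈ (pr 2 z).filter (fun p => ¬ p ≤ y), ff D p ≤ Real.exp 2 := by
      intro D hD hk
      refine ⟨Finset.prod_nonneg fun p hp => ?_, ff_big hD hy1 hk⟩
      have := one_le_ff D (mem_pr.1 (mem_filter.1 hp).1).2
      linarith
    rw [Finset.prod_pow]
    have h36 : Real.exp 36 = (Real.exp 2 * Real.exp 2 * Real.exp 2 * Real.exp 2 * Real.exp 2 *
        Real.exp 2) ^ 3 := by
      rw [← Real.exp_add, ← Real.exp_add, ← Real.exp_add, ← Real.exp_add, ← Real.exp_add,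
        ← Real.exp_nat_mul]
      norm_num
    rw [h36]
    unfold TT
    simp only [Finset.prod_mul_distrib]
    obtain ⟨f1, g1⟩ := e _ D1 k1
    obtain ⟨f2, g2⟩ := e _ D2 k2
    obtain ⟨f3, g3⟩ := e (b - a) (by omega) k3
    obtain ⟨f4, g4⟩ := e (b - a') (by omega) k4
    obtain ⟨f5, g5⟩ := e (b' - a) (by omega) k5
    obtain ⟨f6, g6⟩ := e (b' - a') (by omega) k6
    apply pow_le_pow_left₀ (by positivity)
    apply mul_le_mul _ g6 f6 (by positivity)
    apply mul_le_mul _ g5 f5 (by positivity)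
    apply mul_le_mul _ g4 f4 (by positivity)
    apply mul_le_mul _ g3 f3 (by positivity)
    exact mul_le_mul g1 g2 f2 (by positivity)
  have hpp : ∀ p ∈ pr 2 z, p.Prime ∧ p < z := fun p hp => ⟨(mem_pr.1 hp).2, (mem_pr.1 hp).1.2⟩
  have hfp : ∀ D, ∀ p ∈ pr 2 z, 0 < ff D p := fun D p hp => by
    have := one_le_ff D (hpp p hp).1
    linarith
  have hvp : ∀ p ∈ pr 2 z, 0 < (1 - 1 / (p : ℝ))⁻¹ := fun p hp => by
    have := (fac_bd (hpp p hp).1).1
    linarith
  have hTT : ∀ p ∈ pr 2 z, 0 ≤ TT a a' b b' p ^ 3 := by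
    intro p hp
    unfold TT
    have f1 := hfp (Nat.dist a a') p hp
    have f2 := hfp (Nat.dist b b') p hp
    have f3 := hfp (b - a) p hp
    have f4 := hfp (b - a') p hp
    have f5 := hfp (b' - a) p hp
    have f6 := hfp (b' - a') p hp
    positivity
  have hV1 : ∏ p ∈ pr 2 z, (1 - g (Om4 z a a' b b') p) ≤
      (∏ p ∈ pr 2 z, (1 - 1 / (p : ℝ))) ^ 4 * ((((rho y)⁻¹) ^ 2 * RR y (b - a)) * Real.exp 36) := by
    apply prod_bound (y := y) _ (fun p => ((1 - 1 / (p : ℝ))⁻¹) ^ 2 * ff (b - a) p)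
      (fun p => TT a a' b b' p ^ 3)
    · exact fun p hp => loc_nonneg hS (hpp p hp).1
    · intro p hp
      have := hfp (b - a) p hp
      have := hvp p hp
      positivity
    · exact hTT
    · exact fun p hp _ => loc_one (hpp p hp).1 (hpp p hp).2 hab
    · exact fun p hp _ => loc_big (hpp p hp).1 (hpp p hp).2 hab ha'b hab' ha'b'
    · rw [Finset.prod_mul_distrib, Finset.prod_pow]
      apply mul_le_mul
      · apply pow_le_pow_left₀ _ (inv_small y z)
        exact Finset.prod_nonneg fun p hp => (hvp p (mem_filter.1 hp).1).le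
      · exact ff_small (by omega)
      · exact Finset.prod_nonneg fun p hp => (hfp _ p (mem_filter.1 hp).1).le
      · positivity
    · exact hT
  have hV2 : ∏ p ∈ pr 2 z, (1 - g (Om4 z a a' b b') p) ≤
      (∏ p ∈ pr 2 z, (1 - 1 / (p : ℝ))) ^ 4 * (((rho y)⁻¹ * (RR y (b - a) *
        RR y (Nat.dist a a') * RR y (b - a'))) * Real.exp 36) := by
    apply prod_bound (y := y) _ (fun p => (1 - 1 / (p : ℝ))⁻¹ * (ff (b - a) p *
      ff (Nat.dist a a') p * ff (b - a') p)) (fun p => TT a a' b b' p ^ 3)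
    · exact fun p hp => loc_nonneg hS (hpp p hp).1
    · intro p hp
      have := hfp (b - a) p hp
      have := hfp (Nat.dist a a') p hp
      have := hfp (b - a') p hp
      have := hvp p hp
      positivity
    · exact hTT
    · exact fun p hp _ => loc_two (hpp p hp).1 (hpp p hp).2 hab ha'b
    · exact fun p hp _ => loc_big (hpp p hp).1 (hpp p hp).2 hab ha'b hab' ha'b'
    · simp only [Finset.prod_mul_distrib]
      have hnn : ∀ D, 0 ≤ ∏ p ∈ (pr 2 z).filter (fun p => p ≤ y), ff D p := fun D =>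
        Finset.prod_nonneg fun p hp => (hfp _ p (mem_filter.1 hp).1).le
      have hr := Pool.Agent.GBQ.rho_pos y
      have r1 := one_le_RR y (b - a)
      have r2 := one_le_RR y (Nat.dist a a')
      have r3 := one_le_RR y (b - a')
      have n1 := hnn (b - a)
      have n2 := hnn (Nat.dist a a')
      have n3 := hnn (b - a')
      apply mul_le_mul (inv_small y z)
      · apply mul_le_mul _ (ff_small (by omega)) n3 (by positivity)
        exact mul_le_mul (ff_small (by omega)) (ff_small D1) n2 (by positivity)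
      · positivity
      · exact (inv_pos.2 hr).le
    · exact hT
  -- the end
  have hlogz : 0 < Real.log z := Real.log_pos (by exact_mod_cast (show 1 < z by omega))
  have hz0 : (0 : ℝ) < z := by exact_mod_cast (show 0 < z by omega)
  have hX0 : 1 < X1 := by nlinarith
  have hX1 : (1 : ℝ) < X1 := by exact_mod_cast hX0
  have hlogX : 0 < Real.log X1 := Real.log_pos hX1
  have hinv : 1 / (z : ℝ) ≤ 256 * (1 / Real.log z) ^ 4 := by
    rw [one_div_pow, mul_one_div, div_le_div_iff₀ hz0 (by positivity)]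
    have := log_four_le (x := z) (by exact_mod_cast (show 1 ≤ z by omega))
    linarith
  have hlogLz : Real.log X1 ≤ 2 * c * Real.log z := by
    have h1 : (X1 : ℝ) ≤ (z : ℝ) ^ (2 * c) := by
      rw [pow_mul]
      exact_mod_cast hRL'.le
    calc Real.log X1 ≤ Real.log ((z : ℝ) ^ (2 * c)) := Real.log_le_log (by linarith) h1
      _ = 2 * c * Real.log z := by
        rw [Real.log_pow]
        push_cast
        ring
  have hfrac : (1 / Real.log z) ^ 4 ≤ (2 * c) ^ 4 / Real.log X1 ^ 4 := by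
    rw [← div_pow]
    apply pow_le_pow_left₀ (by positivity)
    rw [div_le_div_iff₀ hlogz hlogX]
    linarith
  have hP4 := P_four_le hz2
  have hend : ∀ W : ℝ, 1 ≤ W → ∏ p ∈ pr 2 z, (1 - g (Om4 z a a' b b') p) ≤
      (∏ p ∈ pr 2 z, (1 - 1 / (p : ℝ))) ^ 4 * (W * Real.exp 36) →
      (((Icc 1 X1).filter (fun h => (a + s + h).Prime ∧ (a' + s + h).Prime ∧ (b + s + h).Prime ∧
      (b' + s + h).Prime)).card : ℝ) ≤ (2 * Real.exp 36 + 256) * (2 * c) ^ 4 * X1 /
        Real.log X1 ^ 4 * W := by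
    intro W hW hV
    have g1 : ∏ p ∈ pr 2 z, (1 - g (Om4 z a a' b b') p) ≤
        (1 / Real.log z) ^ 4 * (W * Real.exp 36) :=
      hV.trans (mul_le_mul_of_nonneg_right hP4 (by positivity))
    have g2 : (X1 : ℝ) * (2 * ∏ p ∈ pr 2 z, (1 - g (Om4 z a a' b b') p)) ≤
        X1 * (2 * ((1 / Real.log z) ^ 4 * (W * Real.exp 36))) :=
      mul_le_mul_of_nonneg_left (mul_le_mul_of_nonneg_left g1 (by norm_num)) (by linarith)
    have g3 : (X1 : ℝ) / z ≤ X1 * (256 * (1 / Real.log z) ^ 4 * W) := by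
      calc (X1 : ℝ) / z = X1 * (1 / z) := by ring
        _ ≤ X1 * (256 * (1 / Real.log z) ^ 4 * W) := by
          apply mul_le_mul_of_nonneg_left _ (by linarith)
          exact hinv.trans (le_mul_of_one_le_right (by positivity) hW)
    have g4 : (((Icc 1 X1).filter (fun h => (a + s + h).Prime ∧ (a' + s + h).Prime ∧ (b + s + h).Prime ∧
      (b' + s + h).Prime)).card : ℝ) ≤ X1 * (2 * Real.exp 36 + 256) * W * (1 / Real.log z) ^ 4 := by
      have e : (X1 : ℝ) * (2 * Real.exp 36 + 256) * W * (1 / Real.log z) ^ 4 =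
        X1 * (2 * ((1 / Real.log z) ^ 4 * (W * Real.exp 36))) +
          X1 * (256 * (1 / Real.log z) ^ 4 * W) := by ring
      rw [e]
      linarith
    refine g4.trans ?_
    calc (X1 : ℝ) * (2 * Real.exp 36 + 256) * W * (1 / Real.log z) ^ 4 ≤
        X1 * (2 * Real.exp 36 + 256) * W * ((2 * c) ^ 4 / Real.log X1 ^ 4) :=
          mul_le_mul_of_nonneg_left hfrac (by positivity)
      _ = _ := by ring
  have r1 := one_le_RR y (b - a)
  have r2 := one_le_RR y (Nat.dist a a')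
  have r3 := one_le_RR y (b - a')
  have r4 := Pool.Agent.GBQ.one_le_rho_inv y
  have hW1 : 1 ≤ ((rho y)⁻¹) ^ 2 * RR y (b - a) :=
    one_le_mul_of_one_le_of_one_le (one_le_pow₀ r4) r1
  have hW2 : 1 ≤ (rho y)⁻¹ * (RR y (b - a) * RR y (Nat.dist a a') * RR y (b - a')) :=
    one_le_mul_of_one_le_of_one_le r4 (one_le_mul_of_one_le_of_one_le
      (one_le_mul_of_one_le_of_one_le r1 r2) r3)
  have E1 := hend _ hW1 hV1
  have E2 := hend _ hW2 hV2
  rcases min_choice (((rho y)⁻¹) ^ 2) ((rho y)⁻¹ * RR y (Nat.dist a a') * RR y (b - a')) with h | h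
  · rw [h]
    refine E1.trans (le_of_eq ?_)
    ring
  · rw [h]
    refine E2.trans (le_of_eq ?_)
    ring

end Pool.Agent.CSH
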