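import Mathlib
import Pool.Agent.CSH.St
import Pool.Agent.CSH.Fin
import Pool.Agent.CSH.CoreS
import Pool.Agent.TSH.Final

set_option autoImplicit false

/-!
# CSH / FinS: the theorem for arbitrary sets of `k` and the shifts in an interval (after CSH/Fin.lean)
-/

namespace Pool.Agent.CSH

open Finset Filter
open Pool.Agent.TSH
open Pool.Agent.Helper20.TwinIndex (pr pr_prime pr_strictMono pr_mono pi_pr lt_pr)

open Classical in
theorem thm_SS (hCore : CSH.St_CoreS) (C : ℕ) (ε : ℝ) (hε : 0 < ε) : ∃ c : ℝ, 0 < c ∧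
    ∀ᶠ n : ℕ in atTop, ∀ H Z s : ℕ,
    (n : ℝ) ^ (3 / 4 + ε) ≤ H → H ≤ Z →
    (n : ℝ) / Real.log n ^ C ≤ Z → (Z : ℝ) ≤ n * Real.log n → (s : ℝ) ≤ n * Real.log n →
    ∀ K : Finset ℕ,
    (∀ k ∈ K, 1 ≤ k ∧ (k : ℝ) ≤ c * Z / Real.log n) → (n : ℝ) / Real.log n ^ C ≤ K.card →
    c * H * max (1 / L3 n ^ 2) (K.card * Real.log n / (Z * L3 n)) ≤
      (((Icc 1 H).filter (fun h => c * K.card / Real.log n ^ 2 ≤
        (rr K (fun k => pr k + s) (fun k => bn n k + s) h : ℝ))).card : ℝ) := by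
  obtain ⟨c₀, hc₀, h1⟩ := hCore (C + 4) (ε / 2) (by linarith)
  obtain ⟨N₀, hN₀⟩ := eventually_atTop.1 h1
  obtain ⟨c, hc⟩ : ∃ c : ℝ, c = min (1 / 480) (c₀ / 300) := ⟨_, rfl⟩
  have hc0 : 0 < c := by rw [hc]; positivity
  have hca : c ≤ 1 / 480 := by rw [hc]; exact min_le_left _ _
  have hcb : c ≤ c₀ / 300 := by rw [hc]; exact min_le_right _ _
  refine ⟨c, hc0, ?_⟩
  have hlogT : Tendsto (fun X : ℕ => Real.log X) atTop atTop :=
    Real.tendsto_log_atTop.comp tendsto_natCast_atTop_atTop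
  filter_upwards [eventually_ge_atTop (N₀ + 400), hlogT.eventually_ge_atTop 10000,
    tl (C + 1) (1 / 2) (by norm_num), L3_le, tl 3 1 one_pos, tendsto_L3.eventually_ge_atTop 1, pow_small ε hε] with
    n hn hlog htl hL3 htl3 hL31 hsm H Z s hHn hHZ hH1 hH2 hs2 K hK1 hK2
  have hn400 : 400 ≤ n := by omega
  have hn' : (400 : ℝ) ≤ n := by exact_mod_cast hn400
  have hH0 : (0 : ℝ) ≤ Z := Nat.cast_nonneg Z
  have hlog' : (10000 : ℝ) ≤ Real.log n := hlog
  obtain ⟨L, hL⟩ : ∃ L : ℝ, L = Real.log n := ⟨_, rfl⟩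
  rw [← hL] at hH1 hK2 htl hlog' htl3 hH2 hs2
  have hL1 : 1 ≤ L := by linarith
  have hL0 : 0 < L := by linarith
  have hsqn : Real.sqrt n * Real.sqrt n = n := Real.mul_self_sqrt (by linarith)
  have hsqn0 : 0 < Real.sqrt n := Real.sqrt_pos.2 (by linarith)
  obtain ⟨κ, hκ⟩ : ∃ κ : ℝ, κ = K.card := ⟨_, rfl⟩
  rw [← hκ] at hK2 ⊢
  -- remove the small `k`
  obtain ⟨K1, hK1d⟩ : ∃ K1 : Finset ℕ, K1 = K.filter (fun k => Z < pr k ^ 2) := ⟨_, rfl⟩
  have hrem : κ / 2 ≤ K1.card := by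
    have h2 : ((K.filter (fun k => ¬ Z < pr k ^ 2)).card : ℝ) ≤ Real.sqrt n * L := by
      have h3 : (K.filter (fun k => ¬ Z < pr k ^ 2)).card ≤ (Icc 1 (Nat.sqrt Z)).card := by
        apply Finset.card_le_card
        intro k hk
        obtain ⟨e1, e2⟩ := mem_filter.1 hk
        have e3 := (hK1 k e1).1
        have e4 := lt_pr e3
        rw [Finset.mem_Icc]
        refine ⟨e3, ?_⟩
        rw [Nat.le_sqrt]
        have e5 : k * k ≤ pr k ^ 2 := by
          rw [sq]
          exact Nat.mul_le_mul e4.le e4.le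
        omega
      rw [Nat.card_Icc, Nat.add_sub_cancel] at h3
      calc ((K.filter (fun k => ¬ Z < pr k ^ 2)).card : ℝ) ≤ (Nat.sqrt Z : ℕ) := by
            exact_mod_cast h3
        _ ≤ Real.sqrt Z := Real.nat_sqrt_le_real_sqrt
        _ ≤ Real.sqrt (n * L) := Real.sqrt_le_sqrt hH2
        _ ≤ Real.sqrt (n * L ^ 2) := by
            apply Real.sqrt_le_sqrt
            apply mul_le_mul_of_nonneg_left _ (by linarith)
            calc L = L ^ 1 := (pow_one L).symm
              _ ≤ L ^ 2 := pow_le_pow_right₀ hL1 (by norm_num)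
        _ = Real.sqrt n * L := by
            rw [Real.sqrt_mul (by linarith), Real.sqrt_sq hL0.le]
    have h4 : (K.card : ℝ) = (K1.card : ℝ) +
        ((K.filter (fun k => ¬ Z < pr k ^ 2)).card : ℝ) := by
      rw [hK1d]
      exact_mod_cast (Finset.card_filter_add_card_filter_not (s := K) _).symm
    have h5 : Real.sqrt n * L ≤ κ / 2 := by
      have h6 : 2 * (Real.sqrt n * L) ≤ n / L ^ C := by
        rw [le_div_iff₀ (by positivity)]
        calc 2 * (Real.sqrt n * L) * L ^ C = 2 * Real.sqrt n * L ^ (C + 1) := by ring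
          _ ≤ 2 * Real.sqrt n * (1 / 2 * Real.sqrt n) :=
              mul_le_mul_of_nonneg_left htl (by positivity)
          _ = Real.sqrt n * Real.sqrt n := by ring
          _ = n := hsqn
      linarith
    rw [← hκ] at h4
    linarith
  -- blocks
  obtain ⟨V, hV⟩ : ∃ V : ℝ, V = n * L ^ 2 / 200 := ⟨_, rfl⟩
  have hVn : 50 * (n : ℝ) ≤ V := by
    rw [hV]
    have e1 : (10000 : ℝ) ≤ L ^ 2 := by
      have : L ^ 1 ≤ L ^ 2 := pow_le_pow_right₀ hL1 (by norm_num)
      rw [pow_one] at this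
      exact hlog'.trans this
    rw [le_div_iff₀ (by norm_num)]
    have e2 : (n : ℝ) * 10000 ≤ n * L ^ 2 := mul_le_mul_of_nonneg_left e1 (Nat.cast_nonneg n)
    have e3 : 50 * (n : ℝ) * 200 = n * 10000 := by ring
    rw [e3]
    exact e2
  have hkn : ∀ k ∈ K, 2 * k ≤ n := by
    intro k hk
    have h2 := (hK1 k hk).2
    rw [← hL] at h2
    have h3 : c * Z / L ≤ n / 480 := by
      rw [div_le_iff₀ hL0]
      have h3 : c * Z ≤ 1 / 480 * (n * L) := mul_le_mul hca hH2 hH0 (by norm_num)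
      linarith
    have h5 : (2 : ℝ) * k ≤ n := by linarith
    exact_mod_cast h5
  have hblock : ∀ k ∈ K1, ∃ i ∈ range 34,
      V * (3 / 2) ^ i ≤ (bn n k : ℝ) ∧ (bn n k : ℝ) < V * (3 / 2) ^ (i + 1) := by
    intro k hk
    rw [hK1d] at hk
    have e1 := (mem_filter.1 hk).1
    have e2 := hkn k e1
    obtain ⟨e3, e4⟩ := pp_bd (m := n - k) hn400 (by omega) (by omega)
    rw [← hL] at e3 e4
    apply block (by linarith)
    · unfold bn
      rw [hV]
      linarith
    · unfold bn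
      rw [hV]
      linarith
  obtain ⟨i, hi, hcard⟩ := pigeon K1 (fun i k => V * (3 / 2) ^ i ≤ (bn n k : ℝ) ∧
    (bn n k : ℝ) < V * (3 / 2) ^ (i + 1)) (by norm_num : 0 < 34) hblock
  have hi34 := mem_range.1 hi
  obtain ⟨K2, hK2d⟩ : ∃ K2 : Finset ℕ, K2 = K1.filter (fun k => V * (3 / 2) ^ i ≤ (bn n k : ℝ) ∧
    (bn n k : ℝ) < V * (3 / 2) ^ (i + 1)) := ⟨_, rfl⟩
  rw [← hK2d] at hcard
  push_cast at hcard
  have hK2K : K2 ⊆ K := by
    rw [hK2d, hK1d]
    exact (Finset.filter_subset _ _).trans (Finset.filter_subset _ _)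
  have hκ2 : κ / 68 ≤ K2.card := by linarith
  obtain ⟨X, hX⟩ : ∃ X : ℕ, X = ⌈3 * (V * (3 / 2) ^ i)⌉₊ := ⟨_, rfl⟩
  obtain ⟨W, hW⟩ : ∃ W : ℝ, W = V * (3 / 2) ^ i := ⟨_, rfl⟩
  have hpow1 : (1 : ℝ) ≤ (3 / 2) ^ i := one_le_pow₀ (by norm_num)
  have hpow2 : ((3 : ℝ) / 2) ^ i ≤ 650000 := by
    calc ((3 : ℝ) / 2) ^ i ≤ (3 / 2) ^ 33 := pow_le_pow_right₀ (by norm_num) (by omega)
      _ ≤ 650000 := by norm_num
  have hV0 : 0 < V := by linarith
  have hWV : V ≤ W := by
    rw [hW]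
    exact le_mul_of_one_le_right hV0.le hpow1
  have hWV2 : W ≤ 650000 * V := by
    rw [hW, mul_comm]
    exact mul_le_mul_of_nonneg_right hpow2 hV0.le
  have hX1 : (X : ℝ) < 3 * W + 1 := by
    rw [hX, ← hW]
    exact Nat.ceil_lt_add_one (by linarith)
  have hX2 : 3 * W ≤ (X : ℝ) := by
    rw [hX, ← hW]
    exact Nat.le_ceil _
  have hXn : 150 * (n : ℝ) ≤ X := by linarith
  have hXn' : 16 * Z ≤ X := by
    have h2 : (16 : ℝ) * (n * L) ≤ 3 * V := by
      rw [hV]
      have h3 : (n * L) * 10000 ≤ (n * L) * L := mul_le_mul_of_nonneg_left hlog' (by positivity)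
      have h4 : 3 * (n * L ^ 2 / 200) = 3 / 200 * ((n * L) * L) := by ring
      rw [h4]
      have h5 : 0 ≤ (n : ℝ) * L := by positivity
      linarith
    have : (16 : ℝ) * Z ≤ X := by linarith
    exact_mod_cast this
  have hXs : 16 * s ≤ X := by
    have h2 : (16 : ℝ) * (n * L) ≤ 3 * V := by
      rw [hV]
      have h3 : (n * L) * 10000 ≤ (n * L) * L := mul_le_mul_of_nonneg_left hlog' (by positivity)
      have h4 : 3 * (n * L ^ 2 / 200) = 3 / 200 * ((n * L) * L) := by ring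
      rw [h4]
      have h5 : 0 ≤ (n : ℝ) * L := by positivity
      linarith
    have : (16 : ℝ) * s ≤ X := by linarith
    exact_mod_cast this
  have hnX : n ≤ X := by
    have : (n : ℝ) ≤ X := by linarith
    exact_mod_cast this
  have hXup : (X : ℝ) ≤ n * L ^ 3 := by
    have h2 : (X : ℝ) ≤ 10000 * (n * L ^ 2) := by
      have h3 : (X : ℝ) ≤ 1950000 * V + 1 := by linarith
      rw [hV] at h3
      have h4 : (1 : ℝ) ≤ n * L ^ 2 := by
        have e1 : (1 : ℝ) ≤ L ^ 2 := one_le_pow₀ hL1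
        have e2 : (1 : ℝ) ≤ n := by linarith only [hn']
        calc (1 : ℝ) = 1 * 1 := (one_mul 1).symm
          _ ≤ n * L ^ 2 := mul_le_mul e2 e1 zero_le_one (Nat.cast_nonneg n)
      linarith
    calc (X : ℝ) ≤ 10000 * (n * L ^ 2) := h2
      _ ≤ L * (n * L ^ 2) := mul_le_mul_of_nonneg_right hlog' (by positivity)
      _ = n * L ^ 3 := by ring
  have hlX1 : L ≤ Real.log X := by
    rw [hL]
    apply Real.log_le_log (by linarith)
    linarith
  have hlX2 : Real.log X ≤ 2 * L := by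
    have h2 : (X : ℝ) ≤ (n : ℝ) ^ 2 := by
      refine hXup.trans ?_
      rw [sq]
      apply mul_le_mul_of_nonneg_left _ (by linarith)
      have h3 : Real.sqrt n ≤ n := by
        have : 1 ≤ Real.sqrt n := by
          rw [Real.one_le_sqrt]
          linarith only [hn']
        exact (le_mul_of_one_le_right hsqn0.le this).trans_eq hsqn
      linarith
    have h3 := Real.log_le_log (by linarith : (0 : ℝ) < X) h2
    rw [Real.log_pow, ← hL] at h3
    push_cast at h3
    exact h3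
  have hXC : (X : ℝ) / Real.log X ^ (C + 4) ≤ n / L ^ (C + 1) := by
    calc (X : ℝ) / Real.log X ^ (C + 4) ≤ X / L ^ (C + 4) := by
          apply div_le_div_of_nonneg_left (by linarith) (by positivity)
          exact pow_le_pow_left₀ hL0.le hlX1 _
      _ ≤ (n * L ^ 3) / L ^ (C + 4) := div_le_div_of_nonneg_right hXup (by positivity)
      _ = n / L ^ (C + 1) := by
          rw [show C + 4 = (C + 1) + 3 by ring, pow_add]
          field_simp
  have hXC2 : (n : ℝ) / L ^ (C + 1) ≤ (n / L ^ C) / 68 := by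
    rw [pow_succ, div_div, div_le_div_iff₀ (by positivity) (by positivity)]
    have : L ^ C * 68 ≤ L ^ C * L := mul_le_mul_of_nonneg_left (by linarith) (by positivity)
    exact mul_le_mul_of_nonneg_left this (Nat.cast_nonneg n)
  have hfam := fam_block (n := n) (H := Z) (X := X) (K := K2) (c := c) (V := V) (i := i) hc0 hca
    hn400 (by rw [← hL]; exact hH2) (by rw [← hL]; exact hL1) (by linarith) hX
    (fun k hk => hK1 k (hK2K hk))
    (by
      intro k hk
      rw [hK2d, hK1d] at hk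
      exact (mem_filter.1 (mem_filter.1 hk).1).2)
    (by
      intro k hk
      rw [hK2d] at hk
      exact (mem_filter.1 hk).2)
  have hnC : 0 ≤ (n : ℝ) / L ^ C := by positivity
  have hHX : (X : ℝ) ^ (3 / 4 + ε / 2) ≤ H := by
    refine le_trans ?_ hHn
    have e1 : (X : ℝ) ^ (3 / 4 + ε / 2) ≤ (n * L ^ 3) ^ (3 / 4 + ε / 2) :=
      Real.rpow_le_rpow (Nat.cast_nonneg _) hXup (by linarith)
    have e2 : (n * L ^ 3) ^ (3 / 4 + ε / 2) =
        (n : ℝ) ^ (3 / 4 + ε / 2) * (L ^ 3) ^ (3 / 4 + ε / 2) :=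
      Real.mul_rpow (Nat.cast_nonneg _) (by positivity)
    rw [← hL] at hsm
    calc (X : ℝ) ^ (3 / 4 + ε / 2) ≤ (n : ℝ) ^ (3 / 4 + ε / 2) * (L ^ 3) ^ (3 / 4 + ε / 2) := by
          rw [← e2]
          exact e1
      _ ≤ (n : ℝ) ^ (3 / 4 + ε / 2) * (n : ℝ) ^ (ε / 2) :=
          mul_le_mul_of_nonneg_left hsm (by positivity)
      _ = (n : ℝ) ^ (3 / 4 + ε) := by
          rw [← Real.rpow_add (by linarith)]
          congr 1
          ring
  have hMono : Mono K2 pr (bn n) := by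
    intro k hk k' hk' h
    have h1 := hkn k' (hK2K hk')
    refine ⟨pr_strictMono (hK1 k (hK2K hk)).1 h, bn_lt h (by omega)⟩
  have hmain := hN₀ X (by omega) H Z s K2 pr (bn n) hHX hHZ hXn' hXs hfam hMono (by linarith)
    (by linarith)
  obtain ⟨hL3a, hL3b⟩ := hL3 X hnX (by rw [← hL]; exact hlX2)
  have hL3n : 0 < L3 n := by linarith
  have hκ0 : 0 ≤ κ := by rw [hκ]; exact Nat.cast_nonneg _
  -- comparison of the sets
  have hset : (((Icc 1 H).filter (fun h => c₀ * K2.card / Real.log X ^ 2 ≤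
      (rr K2 (fun k => pr k + s) (fun k => bn n k + s) h : ℝ))).card : ℝ) ≤
      (((Icc 1 H).filter (fun h => c * κ / L ^ 2 ≤
        (rr K (fun k => pr k + s) (fun k => bn n k + s) h : ℝ))).card : ℝ) := by
    norm_cast
    apply Finset.card_le_card
    intro h hh
    obtain ⟨e1, e2⟩ := mem_filter.1 hh
    rw [mem_filter]
    refine ⟨e1, ?_⟩
    have e3 : ((rr K2 (fun k => pr k + s) (fun k => bn n k + s) h : ℕ) : ℝ) ≤
        (rr K (fun k => pr k + s) (fun k => bn n k + s) h : ℕ) := by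
      exact_mod_cast rr_mono hK2K (fun k => pr k + s) (fun k => bn n k + s) h
    refine le_trans ?_ (e2.trans e3)
    have e4 : Real.log X ^ 2 ≤ (2 * L) ^ 2 := pow_le_pow_left₀ (by linarith) hlX2 2
    calc c * κ / L ^ 2 ≤ c₀ / 300 * κ / L ^ 2 := by
          apply div_le_div_of_nonneg_right _ (by positivity)
          exact mul_le_mul_of_nonneg_right hcb hκ0
      _ ≤ c₀ * (κ / 68) / (2 * L) ^ 2 := by
          rw [div_le_div_iff₀ (by positivity) (by positivity)]
          have e5 : 0 ≤ c₀ * κ * L ^ 2 := by positivity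
          calc c₀ / 300 * κ * (2 * L) ^ 2 = c₀ * κ * L ^ 2 * (1 / 75) := by ring
            _ ≤ c₀ * κ * L ^ 2 * (1 / 68) := mul_le_mul_of_nonneg_left (by norm_num) e5
            _ = c₀ * (κ / 68) * L ^ 2 := by ring
      _ ≤ c₀ * K2.card / Real.log X ^ 2 := by
          apply div_le_div₀ (by positivity) _ (by
            have : 0 < Real.log X := by linarith
            positivity) e4
          exact mul_le_mul_of_nonneg_left hκ2 hc₀.le
  rw [← hL]
  refine le_trans ?_ (hmain.trans hset)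
  have hHr0 : (0 : ℝ) ≤ H := Nat.cast_nonneg H
  have hZ0 : (0 : ℝ) < Z := by
    refine lt_of_lt_of_le ?_ hH1
    positivity
  have hmax : max (1 / L3 n ^ 2) (κ * L / (Z * L3 n)) ≤
      300 * max (1 / L3 X ^ 2) (K2.card * Real.log X / (Z * L3 X)) := by
    rw [mul_max_of_nonneg _ _ (by norm_num : (0 : ℝ) ≤ 300)]
    apply max_le_max
    · have h2 : L3 X ^ 2 ≤ (2 * L3 n) ^ 2 := pow_le_pow_left₀ hL3a.le hL3b 2
      have h3 : 1 / (2 * L3 n) ^ 2 ≤ 1 / L3 X ^ 2 := by
        apply div_le_div_of_nonneg_left zero_le_one (by positivity) h2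
      have h4 : 1 / (2 * L3 n) ^ 2 = 1 / L3 n ^ 2 / 4 := by
        field_simp
        ring
      have h5 : 0 ≤ 1 / L3 X ^ 2 := by positivity
      rw [h4] at h3
      linarith
    · have h3 : (κ / 68) * L / (Z * (2 * L3 n)) ≤ K2.card * Real.log X / (Z * L3 X) := by
        apply div_le_div₀ (by
          have : 0 < Real.log X := by linarith
          positivity) _ (by positivity) (mul_le_mul_of_nonneg_left hL3b hZ0.le)
        exact mul_le_mul hκ2 hlX1 hL0.le (Nat.cast_nonneg _)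
      have h4 : (κ / 68) * L / (Z * (2 * L3 n)) = κ * L / (Z * L3 n) / 136 := by
        field_simp
        ring
      have h5 : 0 ≤ (K2.card : ℝ) * Real.log X / (Z * L3 X) := by
        have : 0 < Real.log X := by linarith
        positivity
      rw [h4] at h3
      linarith
  calc c * H * max (1 / L3 n ^ 2) (κ * L / (Z * L3 n))
      ≤ (c₀ / 300) * H * (300 * max (1 / L3 X ^ 2) (K2.card * Real.log X / (Z * L3 X))) := by
        apply mul_le_mul (mul_le_mul_of_nonneg_right hcb hHr0) hmax _ (by positivity)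
        exact le_max_of_le_left (by positivity)
    _ = c₀ * H * max (1 / L3 X ^ 2) (K2.card * Real.log X / (Z * L3 X)) := by ring

open Classical in
/-- The form which is handed in. -/
theorem finalS' (hCore : CSH.St_CoreS) (C : ℕ) (ε : ℝ) (hε : 0 < ε) : ∃ c : ℝ, 0 < c ∧ ∃ n₀ : ℕ,
    ∀ n H Z s : ℕ, n₀ ≤ n →
    (n : ℝ) ^ (3 / 4 + ε) ≤ H → H ≤ Z → (Z : ℝ) ≤ n * Real.log n → (s : ℝ) ≤ n * Real.log n →
    ∀ K : Finset ℕ, (∀ k ∈ K, 1 ≤ k ∧ (k : ℝ) ≤ c * Z / Real.log n) →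
      (n : ℝ) / Real.log n ^ C ≤ K.card →
      c * H * max (1 / Real.log (Real.log (Real.log n)) ^ 2)
          (K.card * Real.log n / (Z * Real.log (Real.log (Real.log n)))) ≤
        (((Ioc s (s + H)).filter (fun h => c * K.card / Real.log n ^ 2 ≤ numDec K h n)).card : ℝ) := by
  obtain ⟨c₁, hc₁, h1⟩ := thm_SS hCore C ε hε
  obtain ⟨d, hd⟩ : ∃ d : ℝ, d = min c₁ (1 / 2) := ⟨_, rfl⟩
  have hd0 : 0 < d := by rw [hd]; positivity
  have hda : d ≤ c₁ := by rw [hd]; exact min_le_left _ _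
  have hdb : d ≤ 1 / 2 := by rw [hd]; exact min_le_right _ _
  have hlogT : Tendsto (fun X : ℕ => Real.log X) atTop atTop :=
    Real.tendsto_log_atTop.comp tendsto_natCast_atTop_atTop
  have hev := (h1.and ((hlogT.eventually_ge_atTop d).and
    ((hlogT.eventually_ge_atTop 1).and ((tendsto_L3.eventually_ge_atTop 1).and
      (eventually_ge_atTop 3)))))
  obtain ⟨n₀, hn₀⟩ := eventually_atTop.1 hev
  refine ⟨d, hd0, n₀, fun n H Z s hn hHn hHZ hZ hs K hK hKc => ?_⟩
  obtain ⟨h1, hl1, hl2, hL3, hn3⟩ := hn₀ n hn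
  obtain ⟨ℓ, hℓ⟩ : ∃ ℓ : ℝ, ℓ = L3 n := ⟨_, rfl⟩
  have hℓ' : Real.log (Real.log (Real.log n)) = ℓ := by rw [hℓ]; rfl
  rw [← hℓ] at hL3 h1
  rw [hℓ']
  have hℓ0 : 0 < ℓ := by linarith
  obtain ⟨L, hL⟩ : ∃ L : ℝ, L = Real.log n := ⟨_, rfl⟩
  rw [← hL] at h1 hl1 hl2 hZ hs hK hKc ⊢
  have hL0 : 0 < L := by linarith
  have hn' : (3 : ℝ) ≤ n := by exact_mod_cast hn3
  have hZ0 : (0 : ℝ) ≤ Z := Nat.cast_nonneg Z
  have hH0 : (0 : ℝ) ≤ H := Nat.cast_nonneg H
  have hkn : ∀ k : ℕ, (k : ℝ) ≤ d * Z / L → k < n := by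
    intro k hk
    have h2 : d * Z / L ≤ n / 2 := by
      rw [div_le_iff₀ hL0]
      have h3 : d * Z ≤ 1 / 2 * (n * L) := mul_le_mul hdb hZ hZ0 (by norm_num)
      linarith
    have h3 : (k : ℝ) < n := by linarith
    exact_mod_cast h3
  have hZl : (n : ℝ) / L ^ C ≤ Z := by
    refine hKc.trans ?_
    have h1 : K ⊆ Icc 1 ⌊d * Z / L⌋₊ := fun k hk =>
      Finset.mem_Icc.2 ⟨(hK k hk).1, Nat.le_floor (hK k hk).2⟩
    have h2 : (K.card : ℝ) ≤ d * Z / L := by
      have h3 := Finset.card_le_card h1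
      rw [Nat.card_Icc, Nat.add_sub_cancel] at h3
      have h4 : (K.card : ℝ) ≤ (⌊d * Z / L⌋₊ : ℕ) := by exact_mod_cast h3
      exact h4.trans (Nat.floor_le (by positivity))
    refine h2.trans ?_
    rw [div_le_iff₀ hL0, mul_comm]
    exact mul_le_mul_of_nonneg_left hl1 hZ0
  have h2 := h1 H Z s hHn hHZ hZl hZ hs K (fun k hk => ⟨(hK k hk).1, (hK k hk).2.trans (by
      apply div_le_div_of_nonneg_right _ hL0.le
      exact mul_le_mul_of_nonneg_right hda hZ0)⟩) hKc
  have h3 : d * H * max (1 / ℓ ^ 2) (K.card * L / (Z * ℓ)) ≤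
      c₁ * H * max (1 / ℓ ^ 2) (K.card * L / (Z * ℓ)) := by
    apply mul_le_mul_of_nonneg_right (mul_le_mul_of_nonneg_right hda hH0)
    exact le_max_of_le_left (by positivity)
  refine h3.trans (h2.trans ?_)
  norm_cast
  apply Finset.card_le_card_of_injOn (fun h => s + h)
  · intro h hh
    rw [Finset.mem_coe, mem_filter, Finset.mem_Icc] at hh
    obtain ⟨⟨e1, e1'⟩, e2⟩ := hh
    show s + h ∈ (((Ioc s (s + H)).filter (fun h => d * K.card / L ^ 2 ≤ numDec K h n) : Finset ℕ) : Set ℕ)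
    rw [Finset.mem_coe, mem_filter, Finset.mem_Ioc]
    refine ⟨⟨by omega, by omega⟩, ?_⟩
    have e3 : rr K (fun k => pr k + s) (fun k => bn n k + s) h ≤ numDec K (s + h) n := by
      have e5 : rr K (fun k => pr k + s) (fun k => bn n k + s) h = rr K pr (bn n) (s + h) := by
        unfold rr
        simp only [add_assoc]
      rw [e5]
      exact rr_le_numDec (fun k hk => ⟨(hK k hk).1, hkn k (hK k hk).2⟩) (s + h)
    have e4 : ((rr K (fun k => pr k + s) (fun k => bn n k + s) h : ℕ) : ℝ) ≤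
        (numDec K (s + h) n : ℕ) := by exact_mod_cast e3
    refine le_trans ?_ (e2.trans e4)
    apply div_le_div_of_nonneg_right _ (by positivity)
    exact mul_le_mul_of_nonneg_right hda (Nat.cast_nonneg _)
  · intro x _ x' _ h
    have h' : s + x = s + x' := h
    omega

end Pool.Agent.CSH
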