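import Pool.Agent.CSH.All
import Pool.Agent.CSH.FourS
import Pool.Agent.CSH.FirstS
import Pool.Agent.CSH.CoreS
import Pool.Agent.CSH.FinS

/-!
# CSH: assembly for the shifts in an interval
-/

set_option autoImplicit false

namespace Pool.Agent.CSH

open Finset Pool.Agent.TSH

theorem asm_coreS : St_CoreS :=
  thm_CoreS (thm_FirstS asm_err thm_MM) thm_FourS TSH.thm_BT2

open Classical in
theorem finalS (C : ℕ) (ε : ℝ) (hε : 0 < ε) : ∃ c : ℝ, 0 < c ∧ ∃ n₀ : ℕ, ∀ n H Z s : ℕ, n₀ ≤ n →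
    (n : ℝ) ^ (3 / 4 + ε) ≤ H → H ≤ Z → (Z : ℝ) ≤ n * Real.log n → (s : ℝ) ≤ n * Real.log n →
    ∀ K : Finset ℕ, (∀ k ∈ K, 1 ≤ k ∧ (k : ℝ) ≤ c * Z / Real.log n) →
      (n : ℝ) / Real.log n ^ C ≤ K.card →
      c * H * max (1 / Real.log (Real.log (Real.log n)) ^ 2)
          (K.card * Real.log n / (Z * Real.log (Real.log (Real.log n)))) ≤
        (((Ioc s (s + H)).filter (fun h => c * K.card / Real.log n ^ 2 ≤ numDec K h n)).card : ℝ) :=
  finalS' asm_coreS C ε hε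

end Pool.Agent.CSH
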