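import Pool.Agent.CSH.St

/-!
# CSH: module ErrC, the sum over the cells (helper26)
-/

set_option autoImplicit false

namespace Pool.Agent.CSH

open Finset Filter
open Pool.Agent.GBQ (ee nd gm lam LamS zz rho pr)

/-- the cell of `k` -/
def cel (X W : ℕ) (a b : ℕ → ℕ) (k : ℕ) : ℕ := a k / W + (X / W - b k / W)

private theorem ec_cel {X W : ℕ} {a b : ℕ → ℕ} {K : Finset ℕ} (hm : Mono K a b)
    (hb : ∀ k ∈ K, b k ≤ X) {k k' : ℕ} (hk : k ∈ K) (hk' : k' ∈ K)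
    (h : cel X W a b k = cel X W a b k') : a k / W = a k' / W ∧ b k / W = b k' / W := by
  have key : ∀ i ∈ K, ∀ j ∈ K, i < j → cel X W a b i = cel X W a b j →
      a i / W = a j / W ∧ b i / W = b j / W := by
    intro i hi j hj hij he
    obtain ⟨h1, h2⟩ := hm i hi j hj hij
    have h3 : a i / W ≤ a j / W := Nat.div_le_div_right h1.le
    have h4 : b j / W ≤ b i / W := Nat.div_le_div_right h2.le
    have h5 : b i / W ≤ X / W := Nat.div_le_div_right (hb i hi)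
    unfold cel at he
    omega
  rcases lt_trichotomy k k' with h1 | h1 | h1
  · exact key k hk k' hk' h1 h
  · rw [h1]
    exact ⟨rfl, rfl⟩
  · obtain ⟨h2, h3⟩ := key k' hk' k hk h1 h.symm
    exact ⟨h2.symm, h3.symm⟩

private theorem ec_near {W x y : ℕ} (hW : 0 < W) (h : x / W = y / W) : x ≤ y + W := by
  have h1 : x < W * (x / W + 1) := Nat.lt_mul_div_succ x hW
  have h2 : W * (y / W) ≤ y := Nat.mul_div_le y W
  rw [h] at h1
  rw [Nat.mul_add, Nat.mul_one] at h1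
  omega

/-- sum over the cells -/
private theorem ec_sum {X W : ℕ} (hW : 0 < W) {a b : ℕ → ℕ} {K : Finset ℕ}
    (hm : Mono K a b) (hb : ∀ k ∈ K, a k < b k ∧ b k ≤ X) (F : ℕ → ℝ) (c₁ c₂ : ℝ)
    (hc₂ : 0 ≤ c₂)
    (hF : ∀ G : Finset ℕ, G ⊆ K → ∀ k₀ ∈ G, (∀ k ∈ G, a k ≤ a k₀ + W ∧ a k₀ ≤ a k + W ∧
      b k ≤ b k₀ + W ∧ b k₀ ≤ b k + W) → ∑ k ∈ G, F k ≤ c₁ * G.card + Real.sqrt G.card * c₂) :
    ∑ k ∈ K, F k ≤ c₁ * K.card + Real.sqrt ((2 * X / W + 2) * K.card) * c₂ := by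
  classical
  obtain ⟨V, hV⟩ : ∃ V : ℕ, V = 2 * (X / W) + 1 := ⟨_, rfl⟩
  have h1 : ∀ k ∈ K, cel X W a b k ∈ range V := by
    intro k hk
    obtain ⟨e1, e2⟩ := hb k hk
    have e3 : a k / W ≤ X / W := Nat.div_le_div_right (by omega)
    rw [mem_range, hV]
    unfold cel
    have e4 : a k / W + (X / W - b k / W) ≤ X / W + X / W :=
      Nat.add_le_add e3 (Nat.sub_le _ _)
    exact lt_of_le_of_lt e4 (by omega)
  have h2 := Finset.sum_fiberwise_of_maps_to h1 F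
  rw [← h2]
  have h3 : ∀ v ∈ range V, ∑ k ∈ K.filter (fun k => cel X W a b k = v), F k ≤
      c₁ * ((K.filter (fun k => cel X W a b k = v)).card : ℝ) +
      Real.sqrt ((K.filter (fun k => cel X W a b k = v)).card : ℝ) * c₂ := by
    intro v _
    obtain ⟨G, hG⟩ : ∃ G : Finset ℕ, G = K.filter (fun k => cel X W a b k = v) := ⟨_, rfl⟩
    rw [← hG]
    rcases G.eq_empty_or_nonempty with h4 | ⟨k₀, hk₀⟩
    · rw [h4]
      simp
    · apply hF G (by rw [hG]; exact Finset.filter_subset _ _) k₀ hk₀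
      intro k hk
      rw [hG, mem_filter] at hk hk₀
      obtain ⟨e1, e2⟩ := ec_cel hm (fun k hk => (hb k hk).2) hk.1 hk₀.1 (hk.2.trans hk₀.2.symm)
      exact ⟨ec_near hW e1, ec_near hW e1.symm, ec_near hW e2, ec_near hW e2.symm⟩
  refine (Finset.sum_le_sum h3).trans ?_
  rw [Finset.sum_add_distrib, ← Finset.mul_sum, ← Finset.sum_mul]
  have hcardN : ∑ v ∈ range V, (K.filter (fun k => cel X W a b k = v)).card = K.card :=
    (Finset.card_eq_sum_card_fiberwise h1).symm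
  have hcard : ∑ v ∈ range V, ((K.filter (fun k => cel X W a b k = v)).card : ℝ) = K.card := by
    exact_mod_cast hcardN
  have hWr : (0 : ℝ) < W := by exact_mod_cast hW
  have hVr : (V : ℝ) ≤ 2 * X / W + 2 := by
    rw [hV]
    push_cast
    have e1 : ((X / W : ℕ) : ℝ) ≤ (X : ℝ) / W := Nat.cast_div_le
    have e3 : 2 * (X : ℝ) / W = 2 * (X / W) := by ring
    rw [e3]
    linarith
  have hsq : ∑ v ∈ range V, Real.sqrt ((K.filter (fun k => cel X W a b k = v)).card : ℝ) ≤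
      Real.sqrt ((2 * X / W + 2) * K.card) := by
    apply Real.le_sqrt_of_sq_le
    have e1 := Finset.sum_mul_sq_le_sq_mul_sq (range V) (fun _ => (1 : ℝ))
      (fun v => Real.sqrt ((K.filter (fun k => cel X W a b k = v)).card : ℝ))
    have e2 : ∑ v ∈ range V, Real.sqrt ((K.filter (fun k => cel X W a b k = v)).card : ℝ) ^ 2 =
        K.card := by
      rw [← hcard]
      apply Finset.sum_congr rfl
      intro v _
      exact Real.sq_sqrt (Nat.cast_nonneg _)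
    rw [e2] at e1
    simp only [one_mul, one_pow, Finset.sum_const, Finset.card_range, nsmul_eq_mul, mul_one] at e1
    exact e1.trans (mul_le_mul_of_nonneg_right hVr (Nat.cast_nonneg _))
  rw [hcard]
  have e2 := mul_le_mul_of_nonneg_right hsq hc₂
  linarith

private theorem ec_mono {G K : Finset ℕ} {a b : ℕ → ℕ} (hG : G ⊆ K) (h : Mono K a b) :
    Mono G a b := fun k hk k' hk' hlt => h k (hG hk) k' (hG hk') hlt

/-- all cells, the large values of `g` at `a k + h` -/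
theorem cells (h1 : St_Cell) (K : Finset ℕ) (a b : ℕ → ℕ) (X H W : ℕ) (g f : ℕ → ℝ) (m S : ℝ)
    (hH : 1 ≤ H) (hW : 1 ≤ W) (hm : 0 ≤ m) (hS : 0 ≤ S) (hmono : Mono K a b)
    (hab : ∀ k ∈ K, a k < b k ∧ b k ≤ X) (hg : ∀ n, |g n| ≤ m) (hf : ∀ n, |f n| ≤ m)
    (hs : ∀ k ∈ K, ∀ α : ℝ,
      ‖∑ n ∈ Ioc (a k) (a k + H), ((g n : ℝ) : ℂ) * ee (α * n)‖ ≤ S) :
    ∑ k ∈ K, |∑ h ∈ Icc 1 H, g (a k + h) * f (b k + h)| ≤
      2 * W * m ^ 2 * K.card +
        Real.sqrt ((2 * X / W + 2) * K.card) * (S * (Real.sqrt (H + 4 * W) * m)) := by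
  apply ec_sum hW hmono hab (fun k => |∑ h ∈ Icc 1 H, g (a k + h) * f (b k + h)|)
    (2 * W * m ^ 2) (S * (Real.sqrt (H + 4 * W) * m)) (by positivity)
  intro G hG k₀ hk₀ hnear
  exact h1 G a b k₀ H W g f m S hk₀ hH hm hS (ec_mono hG hmono) (fun k hk => (hab k (hG hk)).1)
    hnear hg hf (hs k₀ (hG hk₀))

/-- all cells, the large values of `g` at `b k + h` -/
theorem cellsB (h2 : St_CellB) (K : Finset ℕ) (a b : ℕ → ℕ) (X H W : ℕ) (g f : ℕ → ℝ) (m S : ℝ)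
    (hH : 1 ≤ H) (hW : 1 ≤ W) (hm : 0 ≤ m) (hS : 0 ≤ S) (hmono : Mono K a b)
    (hab : ∀ k ∈ K, a k < b k ∧ b k ≤ X) (hg : ∀ n, |g n| ≤ m) (hf : ∀ n, |f n| ≤ m)
    (hs : ∀ k ∈ K, ∀ α : ℝ,
      ‖∑ n ∈ Ioc (b k) (b k + H), ((g n : ℝ) : ℂ) * ee (α * n)‖ ≤ S) :
    ∑ k ∈ K, |∑ h ∈ Icc 1 H, f (a k + h) * g (b k + h)| ≤
      2 * W * m ^ 2 * K.card +
        Real.sqrt ((2 * X / W + 2) * K.card) * (S * (Real.sqrt (H + 4 * W) * m)) := by
  apply ec_sum hW hmono hab (fun k => |∑ h ∈ Icc 1 H, f (a k + h) * g (b k + h)|)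
    (2 * W * m ^ 2) (S * (Real.sqrt (H + 4 * W) * m)) (by positivity)
  intro G hG k₀ hk₀ hnear
  exact h2 G a b k₀ H W g f m S hk₀ hH hm hS (ec_mono hG hmono) (fun k hk => (hab k (hG hk)).1)
    hnear hg hf (hs k₀ (hG hk₀))

end Pool.Agent.CSH
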