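import Pool.Agent.CSH.St
import Pool.Agent.Helper95.MDKer
import Pool.Agent.MT.Vaughan

/-!
# CSH [V2]: the type II block in a short window

The direct way: for a fixed `k` the `k'` with `|k - k'| ≤ H / M` are at most `2 H / M + 1` consecutive
integers, so the row sum is at most `((2 H / M + 1) / q + 1) (4 B + q (1 + log q))`, `B = 2 H M / N + 1`
(`Helper95.MD.cover_le`).
-/

set_option autoImplicit false

namespace Pool.Agent.CSH

open Finset Filter
open Pool.Agent.GBQ (ee)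
open Pool.Agent.Helper25 (ex ex_add norm_ex)
open Pool.Agent.Helper95.MD (mn mn_nonneg mn_neg mn_le geom_le_mn cover_le)

theorem v2_ee (x : ℝ) : ee x = ex x := by
  unfold ee ex
  rw [mul_comm]

theorem v2_conj_ex (x : ℝ) : (starRingEnd ℂ) (ex x) = ex (-x) := by
  unfold ex
  rw [← Complex.exp_conj, map_mul, Complex.conj_I, Complex.conj_ofReal]
  congr 1
  push_cast
  ring

/-- the window -/
def VW (N H l k : ℕ) : Prop := N < l * k ∧ l * k ≤ N + H

instance (N H l k : ℕ) : Decidable (VW N H l k) := by unfold VW; infer_instance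

/-- the kernel -/
noncomputable def vE (N H M : ℕ) (θ : ℝ) (k k' : ℕ) : ℝ :=
  if k ≤ k' + H / M ∧ k' ≤ k + H / M then
    mn (2 * (H : ℝ) * M / N + 1) (((k : ℝ) - k') * θ) else 0

theorem v2_B_nonneg (N H M : ℕ) : (0 : ℝ) ≤ 2 * (H : ℝ) * M / N + 1 := by positivity

theorem vE_nonneg (N H M : ℕ) (θ : ℝ) (k k' : ℕ) : 0 ≤ vE N H M θ k k' := by
  unfold vE
  split_ifs
  · exact mn_nonneg (v2_B_nonneg N H M) _
  · exact le_rfl

theorem vE_symm (N H M : ℕ) (θ : ℝ) (k k' : ℕ) : vE N H M θ k k' = vE N H M θ k' k := by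
  unfold vE
  have h1 : ((k : ℝ) - k') * θ = -(((k' : ℝ) - k) * θ) := by ring
  rw [h1, mn_neg]
  by_cases h : k ≤ k' + H / M ∧ k' ≤ k + H / M
  · rw [if_pos h, if_pos ⟨h.2, h.1⟩]
  · rw [if_neg h, if_neg (fun h' => h ⟨h'.2, h'.1⟩)]

/-- the inner sum over `l` -/
theorem v2_inner (N H M k k' : ℕ) (hN : 1 ≤ N) (hM : 1 ≤ M) (hk : 1 ≤ k) (hk' : 1 ≤ k') (θ : ℝ) :
    ‖∑ l ∈ Ico M (2 * M), (if VW N H l k ∧ VW N H l k' then ex ((((k : ℝ) - k') * θ) * l)
      else 0)‖ ≤ vE N H M θ k k' := by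
  rw [← Finset.sum_filter]
  by_cases hne : ((Ico M (2 * M)).filter (fun l => VW N H l k ∧ VW N H l k')).Nonempty
  · obtain ⟨l₀, hl₀⟩ := hne
    rw [mem_filter, mem_Ico] at hl₀
    obtain ⟨⟨hMl, hlM⟩, ⟨h1, h2⟩, h3, h4⟩ := hl₀
    have hc : k ≤ k' + H / M ∧ k' ≤ k + H / M := by
      constructor
      · by_contra hcon
        push Not at hcon
        have h5 : H / M + 1 ≤ k - k' := by omega
        have h6 : H < M * (H / M + 1) := Nat.lt_mul_div_succ H (by omega)
        have h7 : M * (H / M + 1) ≤ l₀ * (k - k') := Nat.mul_le_mul hMl h5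
        rw [Nat.mul_sub] at h7
        omega
      · by_contra hcon
        push Not at hcon
        have h5 : H / M + 1 ≤ k' - k := by omega
        have h6 : H < M * (H / M + 1) := Nat.lt_mul_div_succ H (by omega)
        have h7 : M * (H / M + 1) ≤ l₀ * (k' - k) := Nat.mul_le_mul hMl h5
        rw [Nat.mul_sub] at h7
        omega
    unfold vE
    rw [if_pos hc]
    have h8 : (Ico M (2 * M)).filter (fun l => VW N H l k ∧ VW N H l k') =
        Ico (max M (max (N / k + 1) (N / k' + 1)))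
          (min (2 * M) (min ((N + H) / k + 1) ((N + H) / k' + 1))) := by
      ext l
      unfold VW
      rw [mem_filter, mem_Ico, mem_Ico, max_le_iff, max_le_iff, lt_min_iff, lt_min_iff,
        Nat.succ_le_iff, Nat.succ_le_iff, Nat.lt_succ_iff, Nat.lt_succ_iff,
        Nat.div_lt_iff_lt_mul (by omega), Nat.div_lt_iff_lt_mul (by omega),
        Nat.le_div_iff_mul_le (by omega), Nat.le_div_iff_mul_le (by omega)]
      tauto
    rw [h8, Finset.sum_Ico_eq_sum_range]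
    set u := max M (max (N / k + 1) (N / k' + 1)) with hu
    set v := min (2 * M) (min ((N + H) / k + 1) ((N + H) / k' + 1)) with hv
    have hNr : (0 : ℝ) < N := by exact_mod_cast hN
    have hkr : (0 : ℝ) < k := by exact_mod_cast hk
    have h9 : v - u ≤ (N + H) / k - N / k := by omega
    have h10 : ((v - u : ℕ) : ℝ) ≤ 2 * (H : ℝ) * M / N + 1 := by
      have h11 : ((v - u : ℕ) : ℝ) ≤ (((N + H) / k : ℕ) : ℝ) - ((N / k : ℕ) : ℝ) := by
        have h12 : N / k ≤ (N + H) / k := Nat.div_le_div_right (by omega)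
        have h13 : (((N + H) / k - N / k : ℕ) : ℝ) =
            (((N + H) / k : ℕ) : ℝ) - ((N / k : ℕ) : ℝ) := Nat.cast_sub h12
        rw [← h13]
        exact_mod_cast h9
      have h14 : (((N + H) / k : ℕ) : ℝ) ≤ ((N : ℝ) + H) / k := by
        have := @Nat.cast_div_le ℝ _ _ _ (N + H) k
        push_cast at this
        exact this
      have h15 : (N : ℝ) / k ≤ ((N / k : ℕ) : ℝ) + 1 := by
        rw [div_le_iff₀ hkr]
        have h16 : N < k * (N / k + 1) := Nat.lt_mul_div_succ N (by omega)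
        have h17 : (N : ℝ) ≤ (k : ℝ) * (((N / k : ℕ) : ℝ) + 1) := by exact_mod_cast h16.le
        linarith
      have h18 : (H : ℝ) / k ≤ 2 * H * M / N := by
        rw [div_le_div_iff₀ hkr hNr]
        have h19 : N ≤ 2 * M * k := by
          have h20 : l₀ * k ≤ 2 * M * k := Nat.mul_le_mul_right k (by omega)
          omega
        have h21 : (N : ℝ) ≤ 2 * M * k := by exact_mod_cast h19
        have h22 : (0 : ℝ) ≤ H := Nat.cast_nonneg H
        nlinarith
      have h23 : ((N : ℝ) + H) / k = N / k + H / k := add_div _ _ _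
      linarith
    have h24 := geom_le_mn (B := 2 * (H : ℝ) * M / N + 1) (v - u) h10 (((k : ℝ) - k') * θ) (u : ℝ)
    refine le_trans (le_of_eq ?_) h24
    congr 1
    apply Finset.sum_congr rfl
    intro i _
    push_cast
    rfl
  · rw [not_nonempty_iff_eq_empty] at hne
    rw [hne, sum_empty, norm_zero]
    exact vE_nonneg N H M θ k k'

/-- the row sum -/
theorem v2_row {θ : ℝ} {a : ℤ} {q : ℕ} (hq : 1 ≤ q) (hc : IsCoprime a (q : ℤ))
    (hθ : |θ - a / q| ≤ 1 / (q : ℝ) ^ 2) (N H M K k : ℕ) :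
    ∑ k' ∈ Icc 1 K, vE N H M θ k k' ≤
      (((2 * (H / M) + 1 : ℕ) : ℝ) / q + 1) *
        (4 * (2 * (H : ℝ) * M / N + 1) + q * (1 + Real.log q)) ∧
    ∑ k' ∈ Icc 1 K, vE N H M θ k k' ≤
      ((2 * (H / M) + 1 : ℕ) : ℝ) * (2 * (H : ℝ) * M / N + 1) := by
  set D := H / M with hD
  set B : ℝ := 2 * (H : ℝ) * M / N + 1 with hB
  have hB0 : 0 ≤ B := v2_B_nonneg N H M
  set g : ℕ → ℝ := fun i => mn B (-(D : ℝ) * θ + i * θ) with hg
  set F := (Icc 1 K).filter (fun k' => k ≤ k' + D ∧ k' ≤ k + D) with hF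
  have e1 : ∑ k' ∈ Icc 1 K, vE N H M θ k k' = ∑ k' ∈ F, g (k' + D - k) := by
    rw [hF, Finset.sum_filter]
    apply Finset.sum_congr rfl
    intro k' _
    unfold vE
    rw [← hD, ← hB]
    split_ifs with h
    · rw [hg]
      simp only
      rw [Nat.cast_sub h.1, ← mn_neg]
      congr 1
      push_cast
      ring
    · rfl
  have hinj : Set.InjOn (fun k' => k' + D - k) (F : Set ℕ) := by
    intro x hx y hy hxy
    rw [hF, Finset.mem_coe, mem_filter] at hx hy
    simp only at hxy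
    omega
  have e2 : ∑ k' ∈ F, g (k' + D - k) = ∑ i ∈ F.image (fun k' => k' + D - k), g i := by
    rw [Finset.sum_image hinj]
  have h1 : F.image (fun k' => k' + D - k) ⊆ range (2 * D + 1) := by
    intro i hi
    rw [mem_image] at hi
    obtain ⟨x, hx, rfl⟩ := hi
    rw [hF, mem_filter] at hx
    rw [mem_range]
    omega
  have h2 : ∑ i ∈ F.image (fun k' => k' + D - k), g i ≤ ∑ i ∈ range (2 * D + 1), g i :=
    sum_le_sum_of_subset_of_nonneg h1 (fun i _ _ => mn_nonneg hB0 _)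
  rw [e1, e2]
  constructor
  · exact h2.trans (cover_le hq hc hθ (-(D : ℝ) * θ) hB0 (2 * D + 1))
  · refine h2.trans ?_
    calc ∑ i ∈ range (2 * D + 1), g i ≤ ∑ _i ∈ range (2 * D + 1), B :=
          sum_le_sum (fun i _ => mn_le _ _)
      _ = ((2 * D + 1 : ℕ) : ℝ) * B := by
          rw [sum_const, card_range, nsmul_eq_mul]

/-- Cauchy and Schwarz, opening the square -/
theorem v2_main (N H M K : ℕ) (θ : ℝ) (x y : ℕ → ℝ) (hN : 1 ≤ N) (hM : 1 ≤ M) (R : ℝ)
    (hR : ∀ k, ∑ k' ∈ Icc 1 K, vE N H M θ k k' ≤ R) :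
    ‖∑ m ∈ Ico M (2 * M), ∑ k ∈ (Icc 1 K).filter (fun k => VW N H m k),
        ((x m : ℝ) : ℂ) * ((y k : ℝ) : ℂ) * ex (m * k * θ)‖ ^ 2 ≤
      (∑ m ∈ Ico M (2 * M), x m ^ 2) * ((∑ k ∈ Icc 1 K, y k ^ 2) * R) := by
  classical
  set T : ℕ → ℂ := fun m => ∑ k ∈ (Icc 1 K).filter (fun k => VW N H m k),
    ((y k : ℝ) : ℂ) * ex (m * k * θ) with hT
  have e1 : ∑ m ∈ Ico M (2 * M), ∑ k ∈ (Icc 1 K).filter (fun k => VW N H m k),
      ((x m : ℝ) : ℂ) * ((y k : ℝ) : ℂ) * ex (m * k * θ) =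
      ∑ m ∈ Ico M (2 * M), ((x m : ℝ) : ℂ) * T m := by
    apply Finset.sum_congr rfl
    intro m _
    rw [hT, Finset.mul_sum]
    apply Finset.sum_congr rfl
    intro k _
    ring
  have h1 : ‖∑ m ∈ Ico M (2 * M), ((x m : ℝ) : ℂ) * T m‖ ≤ ∑ m ∈ Ico M (2 * M), |x m| * ‖T m‖ := by
    refine (norm_sum_le _ _).trans (Finset.sum_le_sum fun m _ => ?_)
    rw [norm_mul, Complex.norm_real, Real.norm_eq_abs]
  have h2 : (∑ m ∈ Ico M (2 * M), |x m| * ‖T m‖) ^ 2 ≤
      (∑ m ∈ Ico M (2 * M), |x m| ^ 2) * ∑ m ∈ Ico M (2 * M), ‖T m‖ ^ 2 :=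
    Finset.sum_mul_sq_le_sq_mul_sq _ _ _
  have e3 : ∀ m, ((‖T m‖ ^ 2 : ℝ) : ℂ) = ∑ k ∈ Icc 1 K, ∑ k' ∈ Icc 1 K,
      (((y k : ℝ) : ℂ) * ((y k' : ℝ) : ℂ)) *
        (if VW N H m k ∧ VW N H m k' then ex ((((k : ℝ) - k') * θ) * m) else 0) := by
    intro m
    rw [← Complex.normSq_eq_norm_sq, ← Complex.mul_conj]
    simp only [hT]
    rw [map_sum, Finset.sum_mul_sum, Finset.sum_filter]
    apply Finset.sum_congr rfl
    intro k _
    split_ifs with hp
    · rw [Finset.sum_filter]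
      apply Finset.sum_congr rfl
      intro k' _
      by_cases hp' : VW N H m k'
      · rw [if_pos hp', if_pos ⟨hp, hp'⟩, map_mul, v2_conj_ex, Complex.conj_ofReal]
        have h3 : (((k : ℝ) - k') * θ) * m = (m * k * θ : ℝ) + (-(m * k' * θ : ℝ)) := by ring
        rw [h3, ex_add]
        ring
      · rw [if_neg hp', if_neg (fun h => hp' h.2), mul_zero]
    · symm
      apply Finset.sum_eq_zero
      intro k' _
      rw [if_neg (fun h => hp h.1), mul_zero]
  have e4 : ((∑ m ∈ Ico M (2 * M), ‖T m‖ ^ 2 : ℝ) : ℂ) = ∑ k ∈ Icc 1 K, ∑ k' ∈ Icc 1 K,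
      (((y k : ℝ) : ℂ) * ((y k' : ℝ) : ℂ)) * ∑ m ∈ Ico M (2 * M),
        (if VW N H m k ∧ VW N H m k' then ex ((((k : ℝ) - k') * θ) * m) else 0) := by
    rw [Complex.ofReal_sum, Finset.sum_congr rfl (fun m _ => e3 m), Finset.sum_comm]
    apply Finset.sum_congr rfl
    intro k _
    rw [Finset.sum_comm]
    apply Finset.sum_congr rfl
    intro k' _
    rw [Finset.mul_sum]
  have h3 : ∑ m ∈ Ico M (2 * M), ‖T m‖ ^ 2 ≤ ∑ k ∈ Icc 1 K, ∑ k' ∈ Icc 1 K,
      (|y k| * |y k'|) * vE N H M θ k k' := by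
    have e5 : ∑ m ∈ Ico M (2 * M), ‖T m‖ ^ 2 =
        ‖((∑ m ∈ Ico M (2 * M), ‖T m‖ ^ 2 : ℝ) : ℂ)‖ := by
      rw [Complex.norm_real, Real.norm_of_nonneg]
      exact Finset.sum_nonneg (fun _ _ => by positivity)
    rw [e5, e4]
    refine (norm_sum_le _ _).trans (Finset.sum_le_sum (fun k hk => ?_))
    refine (norm_sum_le _ _).trans (Finset.sum_le_sum (fun k' hk' => ?_))
    rw [norm_mul, norm_mul, Complex.norm_real, Complex.norm_real, Real.norm_eq_abs,
      Real.norm_eq_abs]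
    exact mul_le_mul_of_nonneg_left
      (v2_inner N H M k k' hN hM (mem_Icc.1 hk).1 (mem_Icc.1 hk').1 θ) (by positivity)
  have h4 : ∑ k ∈ Icc 1 K, ∑ k' ∈ Icc 1 K, (|y k| * |y k'|) * vE N H M θ k k' ≤
      (∑ k ∈ Icc 1 K, y k ^ 2) * R := by
    have h8 : ∑ k ∈ Icc 1 K, ∑ k' ∈ Icc 1 K, (|y k| * |y k'|) * vE N H M θ k k' ≤
        ∑ k ∈ Icc 1 K, ∑ k' ∈ Icc 1 K, (y k ^ 2 / 2 * vE N H M θ k k' +
          y k' ^ 2 / 2 * vE N H M θ k' k) := by
      refine Finset.sum_le_sum fun k _ => Finset.sum_le_sum fun k' _ => ?_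
      rw [vE_symm N H M θ k' k, ← add_mul]
      apply mul_le_mul_of_nonneg_right _ (vE_nonneg N H M θ k k')
      nlinarith [sq_nonneg (|y k| - |y k'|), sq_abs (y k), sq_abs (y k')]
    refine h8.trans ?_
    have h10 : ∑ k ∈ Icc 1 K, ∑ k' ∈ Icc 1 K, (y k ^ 2 / 2 * vE N H M θ k k' +
          y k' ^ 2 / 2 * vE N H M θ k' k) =
        ∑ k ∈ Icc 1 K, y k ^ 2 * ∑ k' ∈ Icc 1 K, vE N H M θ k k' := by
      simp only [Finset.sum_add_distrib]
      rw [Finset.sum_comm (s := Icc 1 K) (t := Icc 1 K)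
        (f := fun k k' => y k' ^ 2 / 2 * vE N H M θ k' k),
        ← Finset.sum_add_distrib]
      apply Finset.sum_congr rfl
      intro k _
      rw [← Finset.mul_sum]
      ring
    rw [h10, Finset.sum_mul]
    exact Finset.sum_le_sum fun k _ => mul_le_mul_of_nonneg_left (hR k) (by positivity)
  rw [e1]
  have e6 : ∑ m ∈ Ico M (2 * M), x m ^ 2 = ∑ m ∈ Ico M (2 * M), |x m| ^ 2 :=
    Finset.sum_congr rfl (fun m _ => (sq_abs (x m)).symm)
  rw [e6]
  calc ‖∑ m ∈ Ico M (2 * M), ((x m : ℝ) : ℂ) * T m‖ ^ 2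
      ≤ (∑ m ∈ Ico M (2 * M), |x m| * ‖T m‖) ^ 2 :=
        pow_le_pow_left₀ (norm_nonneg _) h1 2
    _ ≤ (∑ m ∈ Ico M (2 * M), |x m| ^ 2) * ∑ m ∈ Ico M (2 * M), ‖T m‖ ^ 2 := h2
    _ ≤ (∑ m ∈ Ico M (2 * M), |x m| ^ 2) * ((∑ k ∈ Icc 1 K, y k ^ 2) * R) := by
        apply mul_le_mul_of_nonneg_left _ (Finset.sum_nonneg fun _ _ => by positivity)
        exact h3.trans h4

/-- the numbers, `q ≤ N` -/
theorem v2_num1 (N H M q L D : ℝ) (hN : 1 ≤ N) (hH : 0 ≤ H) (hM : 1 ≤ M) (hq : 1 ≤ q)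
    (hL : 1 ≤ L) (hD : D ≤ H / M) :
    2 * N * (((2 * D + 1) / q + 1) * (4 * (2 * H * M / N + 1) + q * (2 * L))) ≤
      32 * (H * M + N * H / M + H ^ 2 / q + N * q) * L := by
  have hN0 : 0 < N := by linarith
  have hM0 : 0 < M := by linarith
  have hq0 : 0 < q := by linarith
  have hL0 : 0 < L := by linarith
  have h0 : (0 : ℝ) ≤ 4 * (2 * H * M / N + 1) + q * (2 * L) := by positivity
  have h1 : 2 * N * (((2 * D + 1) / q + 1) * (4 * (2 * H * M / N + 1) + q * (2 * L))) ≤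
      2 * N * (((2 * (H / M) + 1) / q + 1) * (4 * (2 * H * M / N + 1) + q * (2 * L))) := by
    gcongr
  refine h1.trans ?_
  have e : 2 * N * (((2 * (H / M) + 1) / q + 1) * (4 * (2 * H * M / N + 1) + q * (2 * L))) =
      32 * (H ^ 2 / q) + 16 * (N * H / M) * (1 / q) + 8 * (N * H / M) * L +
      16 * (H * M) * (1 / q) + 16 * (H * M) + 8 * N * (1 / q) + 8 * N + 4 * N * L +
      4 * (N * q) * L := by
    field_simp
    ring
  rw [e]
  have hq1 : 1 / q ≤ 1 := by
    rw [div_le_one hq0]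
    exact hq
  have hq2 : 0 ≤ 1 / q := by positivity
  have a1 : 0 ≤ N * H / M := by positivity
  have a2 : 0 ≤ H * M := by positivity
  have a3 : 0 ≤ H ^ 2 / q := by positivity
  have a4 : N ≤ N * q := by nlinarith
  have a5 : 0 ≤ N * q := by positivity
  have b1 : 16 * (N * H / M) * (1 / q) ≤ 16 * (N * H / M) * L := by
    apply mul_le_mul_of_nonneg_left (hq1.trans hL)
    positivity
  have b2 : 16 * (H * M) * (1 / q) ≤ 16 * (H * M) * L := by
    apply mul_le_mul_of_nonneg_left (hq1.trans hL)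
    positivity
  have b3 : 16 * (H * M) ≤ 16 * (H * M) * L := le_mul_of_one_le_right (by positivity) hL
  have b4 : 8 * N * (1 / q) ≤ 8 * (N * q) * L := by
    have c1 : 8 * N * (1 / q) ≤ 8 * N := by nlinarith
    have c2 : 8 * (N * q) ≤ 8 * (N * q) * L := le_mul_of_one_le_right (by positivity) hL
    linarith
  have b5 : 8 * N ≤ 8 * (N * q) * L := by
    have c2 : 8 * (N * q) ≤ 8 * (N * q) * L := le_mul_of_one_le_right (by positivity) hL
    linarith
  have b6 : 4 * N * L ≤ 4 * (N * q) * L := by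
    have : 0 ≤ L := hL0.le
    nlinarith
  have b7 : 32 * (H ^ 2 / q) ≤ 32 * (H ^ 2 / q) * L := le_mul_of_one_le_right (by positivity) hL
  have a1' : 0 ≤ N * H / M * L := by positivity
  have a5' : 0 ≤ N * q * L := by positivity
  nlinarith

/-- the numbers, `N ≤ q` -/
theorem v2_num2 (N H M q L D : ℝ) (hN : 1 ≤ N) (hH : 0 ≤ H) (hHN : H ≤ N) (hM : 1 ≤ M)
    (hq : N ≤ q) (hL : 1 ≤ L) (hD : D ≤ H / M) :
    2 * N * ((2 * D + 1) * (2 * H * M / N + 1)) ≤
      32 * (H * M + N * H / M + H ^ 2 / q + N * q) * L := by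
  have hN0 : 0 < N := by linarith
  have hM0 : 0 < M := by linarith
  have hq0 : 0 < q := by linarith
  have hL0 : 0 < L := by linarith
  have h0 : (0 : ℝ) ≤ 2 * H * M / N + 1 := by positivity
  have h1 : 2 * N * ((2 * D + 1) * (2 * H * M / N + 1)) ≤
      2 * N * ((2 * (H / M) + 1) * (2 * H * M / N + 1)) := by
    gcongr
  refine h1.trans ?_
  have e : 2 * N * ((2 * (H / M) + 1) * (2 * H * M / N + 1)) =
      8 * H ^ 2 + 4 * (N * H / M) + 4 * (H * M) + 2 * N := by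
    field_simp
    ring
  rw [e]
  have a1 : 0 ≤ N * H / M := by positivity
  have a2 : 0 ≤ H * M := by positivity
  have a3 : 0 ≤ H ^ 2 / q := by positivity
  have a4 : H ^ 2 ≤ N * q := by nlinarith
  have a5 : N ≤ N * q := by nlinarith
  have a6 : 0 ≤ N * q := by positivity
  have b1 : 32 * (H * M + N * H / M + H ^ 2 / q + N * q) ≤
      32 * (H * M + N * H / M + H ^ 2 / q + N * q) * L :=
    le_mul_of_one_le_right (by positivity) hL
  linarith

theorem thm_V2 : St_V2 := by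
  refine ⟨3456, fun N H M α a q b c hN hH hHN hM _ hq hg hα hb hc => ?_⟩
  have hcop : IsCoprime a (q : ℤ) := Int.isCoprime_iff_gcd_eq_one.2 hg
  have hNr : (3 : ℝ) ≤ N := by exact_mod_cast hN
  have hN0 : (0 : ℝ) < N := by linarith
  have hM1 : (1 : ℝ) ≤ M := by exact_mod_cast hM
  have hM0 : (0 : ℝ) < M := by linarith
  have hq1 : (1 : ℝ) ≤ q := by exact_mod_cast hq
  have hq0 : (0 : ℝ) < q := by linarith
  have hH0 : (0 : ℝ) ≤ H := Nat.cast_nonneg H
  have hHNr : (H : ℝ) ≤ N := by exact_mod_cast hHN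
  have hL : 1 ≤ Real.log N := by
    rw [Real.le_log_iff_exp_le (by linarith)]
    exact (Real.exp_one_lt_d9.le.trans (by norm_num)).trans hNr
  set L := Real.log N with hLdef
  have hL2 : Real.log (2 * N) ≤ 2 * L := by
    rw [Real.log_mul (by norm_num) hN0.ne']
    have : Real.log 2 ≤ L := Real.log_le_log (by norm_num) (by linarith)
    linarith
  have hL20 : 0 ≤ Real.log (2 * N) := Real.log_nonneg (by linarith)
  set K := 2 * N / M with hK
  set D := H / M with hD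
  have hDr : (D : ℝ) ≤ (H : ℝ) / M := Nat.cast_div_le
  -- the sum
  have e1 : ∑ l ∈ Ico M (2 * M), ∑ k ∈ (Icc 1 (2 * N)).filter (fun k => N < l * k ∧ l * k ≤ N + H),
      ((b l : ℝ) : ℂ) * ((c k : ℝ) : ℂ) * ee (α * ((l * k : ℕ) : ℝ)) =
      ∑ l ∈ Ico M (2 * M), ∑ k ∈ (Icc 1 K).filter (fun k => VW N H l k),
        ((b l : ℝ) : ℂ) * ((c k : ℝ) : ℂ) * ex (l * k * α) := by
    apply Finset.sum_congr rfl
    intro l hl
    rw [mem_Ico] at hl
    have h1 : (Icc 1 (2 * N)).filter (fun k => N < l * k ∧ l * k ≤ N + H) =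
        (Icc 1 K).filter (fun k => VW N H l k) := by
      ext k
      rw [mem_filter, mem_filter, mem_Icc, mem_Icc]
      unfold VW
      constructor
      · rintro ⟨⟨h2, _⟩, h3, h4⟩
        refine ⟨⟨h2, ?_⟩, h3, h4⟩
        rw [hK, Nat.le_div_iff_mul_le (by omega)]
        calc k * M ≤ k * l := Nat.mul_le_mul_left k hl.1
          _ = l * k := Nat.mul_comm _ _
          _ ≤ 2 * N := by omega
      · rintro ⟨⟨h2, h5⟩, h3, h4⟩
        exact ⟨⟨h2, h5.trans (Nat.div_le_self _ _)⟩, h3, h4⟩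
    rw [h1]
    apply Finset.sum_congr rfl
    intro k _
    rw [v2_ee]
    congr 2
    push_cast
    ring
  rw [e1]
  -- row sums
  obtain ⟨R, hR, hRn⟩ : ∃ R : ℝ, (∀ k, ∑ k' ∈ Icc 1 K, vE N H M α k k' ≤ R) ∧
      2 * (N : ℝ) * R ≤ 32 * ((H : ℝ) * M + (N : ℝ) * H / M + (H : ℝ) ^ 2 / q + (N : ℝ) * q) * L := by
    by_cases hqN : q ≤ N
    · refine ⟨((2 * (D : ℝ) + 1) / q + 1) * (4 * (2 * (H : ℝ) * M / N + 1) + q * (2 * L)),
        fun k => ?_, v2_num1 N H M q L D (by linarith) hH0 hM1 hq1 hL hDr⟩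
      have h1 := (v2_row hq hcop hα N H M K k).1
      refine h1.trans ?_
      have h2 : Real.log q ≤ L := Real.log_le_log hq0 (by exact_mod_cast hqN)
      have h3 : (0 : ℝ) ≤ (2 * (D : ℝ) + 1) / q + 1 := by positivity
      push_cast
      rw [← hD]
      apply mul_le_mul_of_nonneg_left _ h3
      have h4 : (q : ℝ) * (1 + Real.log q) ≤ q * (2 * L) :=
        mul_le_mul_of_nonneg_left (by linarith) hq0.le
      linarith
    · refine ⟨(2 * (D : ℝ) + 1) * (2 * (H : ℝ) * M / N + 1),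
        fun k => ?_, v2_num2 N H M q L D (by linarith) hH0 hHNr hM1
          (by exact_mod_cast (by omega : N ≤ q)) hL hDr⟩
      have h1 := (v2_row hq hcop hα N H M K k).2
      refine h1.trans (le_of_eq ?_)
      push_cast
      rfl
  have hmain := v2_main N H M K α b c (by omega) hM R hR
  refine hmain.trans ?_
  have hR0 : 0 ≤ R := (Finset.sum_nonneg (fun k' _ => vE_nonneg N H M α 0 k')).trans (hR 0)
  have hb2 : ∑ m ∈ Ico M (2 * M), b m ^ 2 ≤ M * (2 * L) ^ 2 := by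
    calc ∑ m ∈ Ico M (2 * M), b m ^ 2 ≤ ∑ _m ∈ Ico M (2 * M), (2 * L) ^ 2 := by
          refine sum_le_sum (fun m _ => ?_)
          rw [← sq_abs]
          exact pow_le_pow_left₀ (abs_nonneg _) ((hb m).trans hL2) 2
      _ = M * (2 * L) ^ 2 := by
          rw [sum_const, Nat.card_Ico, nsmul_eq_mul]
          congr 1
          have : 2 * M - M = M := by omega
          rw [this]
  have hc2 : ∑ k ∈ Icc 1 K, c k ^ 2 ≤ K * (3 * L) ^ 3 := by
    rcases Nat.eq_zero_or_pos K with h0 | h0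
    · rw [h0]
      simp
    · calc ∑ k ∈ Icc 1 K, c k ^ 2 ≤ ∑ k ∈ Icc 1 K, (k.divisors.card : ℝ) ^ 2 := by
            refine sum_le_sum (fun k _ => ?_)
            rw [← sq_abs]
            exact pow_le_pow_left₀ (abs_nonneg _) (hc k) 2
        _ ≤ K * (1 + Real.log K) ^ 3 := Pool.Agent.MT.sum_divisors_sq K h0
        _ ≤ K * (3 * L) ^ 3 := by
            have h1 : Real.log K ≤ 2 * L := by
              refine le_trans (Real.log_le_log (by exact_mod_cast h0) ?_) hL2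
              have : K ≤ 2 * N := Nat.div_le_self _ _
              exact_mod_cast this
            have h2 : 0 ≤ Real.log K := Real.log_natCast_nonneg K
            apply mul_le_mul_of_nonneg_left _ (Nat.cast_nonneg K)
            exact pow_le_pow_left₀ (by linarith) (by linarith) 3
  have hMK : (M : ℝ) * K ≤ 2 * N := by
    have h1 : M * K ≤ 2 * N := Nat.mul_div_le (2 * N) M
    exact_mod_cast h1
  have hc20 : 0 ≤ ∑ k ∈ Icc 1 K, c k ^ 2 := Finset.sum_nonneg (fun _ _ => by positivity)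
  set G : ℝ := (H : ℝ) * M + (N : ℝ) * H / M + (H : ℝ) ^ 2 / q + (N : ℝ) * q with hG
  have hG0 : 0 ≤ G := by positivity
  calc (∑ m ∈ Ico M (2 * M), b m ^ 2) * ((∑ k ∈ Icc 1 K, c k ^ 2) * R)
      ≤ (M * (2 * L) ^ 2) * ((K * (3 * L) ^ 3) * R) := by
        apply mul_le_mul hb2 _ (by positivity) (by positivity)
        exact mul_le_mul_of_nonneg_right hc2 hR0
    _ = (M : ℝ) * K * R * (108 * L ^ 5) := by ring
    _ ≤ 2 * N * R * (108 * L ^ 5) := by
        apply mul_le_mul_of_nonneg_right _ (by positivity)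
        exact mul_le_mul_of_nonneg_right hMK hR0
    _ ≤ 32 * G * L * (108 * L ^ 5) := by
        apply mul_le_mul_of_nonneg_right hRn (by positivity)
    _ = 3456 * G * L ^ 6 := by ring
    _ ≤ 3456 * G * L ^ 3456 := by
        apply mul_le_mul_of_nonneg_left _ (by positivity)
        exact pow_le_pow_right₀ hL (by norm_num)
    _ = ((3456 : ℕ) : ℝ) * G * L ^ 3456 := by norm_num

end Pool.Agent.CSH
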