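import Pool.Agent.BVX.V3

set_option autoImplicit false

/-!
# CSH [VI]: the linear parts of Vaughan's identity in a window `(N, N + H]`
-/

namespace Pool.Agent.CSH

open Finset Filter Pool.Agent.Helper25 Pool.Agent.Helper95.MD Pool.Agent.BVX

/-- the exponential on the window -/
noncomputable def wF (N : ℕ) (θ : ℝ) (n : ℕ) : ℂ := if N < n then ex (((n : ℕ) : ℝ) * θ) else 0

theorem win_geom {B : ℝ} (j K : ℕ) (h : ((K - j : ℕ) : ℝ) ≤ B) (β : ℝ) :
    ‖∑ k ∈ Ioc j K, ex (k * β)‖ ≤ mn B β := by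
  have h1 : ∑ k ∈ Ioc j K, ex (k * β) = ∑ i ∈ range (K - j), ex (β * (((j : ℝ) + 1) + i)) := by
    have h2 : Ioc j K = Ico (j + 1) (K + 1) := by
      ext x
      simp only [mem_Ioc, mem_Ico]
      omega
    rw [h2, Finset.sum_Ico_eq_sum_range]
    have h3 : K + 1 - (j + 1) = K - j := by omega
    rw [h3]
    refine sum_congr rfl fun i _ => ?_
    congr 1
    push_cast
    ring
  rw [h1]
  exact geom_le_mn (K - j) h β _

theorem win_log_geom {B : ℝ} (j K : ℕ) (h : ((K - j : ℕ) : ℝ) ≤ B) (β : ℝ) :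
    ‖∑ k ∈ Ioc j K, ((Real.log k : ℝ) : ℂ) * ex (k * β)‖ ≤ 2 * Real.log K * mn B β := by
  have hB : 0 ≤ B := le_trans (Nat.cast_nonneg _) h
  have hmn : 0 ≤ mn B β := mn_nonneg hB _
  have hlK : 0 ≤ Real.log K := Real.log_natCast_nonneg K
  rcases Nat.lt_or_ge j K with hjK | hjK
  swap
  · rw [Finset.Ioc_eq_empty (by omega), sum_empty, norm_zero]
    positivity
  have htel : ∀ k : ℕ, k ≤ K →
      ∑ i ∈ Ico k K, (Real.log (i + 1) - Real.log i) = Real.log K - Real.log k := by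
    intro k hk
    have h1 := Finset.sum_Ico_sub (fun j : ℕ => Real.log j) hk
    simp only [Nat.cast_add, Nat.cast_one] at h1
    exact h1
  have h1 : ∑ k ∈ Ioc j K, ((Real.log k : ℝ) : ℂ) * ex (k * β) =
      ((Real.log K : ℝ) : ℂ) * ∑ k ∈ Ioc j K, ex (k * β) -
      ∑ i ∈ Ico (j + 1) K, ((Real.log (i + 1) - Real.log i : ℝ) : ℂ) * ∑ k ∈ Ioc j i, ex (k * β) := by
    have h2 : ∀ k ∈ Ioc j K, ((Real.log k : ℝ) : ℂ) * ex (k * β) =
        ((Real.log K : ℝ) : ℂ) * ex (k * β) -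
        ∑ i ∈ Ico k K, ((Real.log (i + 1) - Real.log i : ℝ) : ℂ) * ex (k * β) := by
      intro k hk
      rw [mem_Ioc] at hk
      rw [← Finset.sum_mul, ← Complex.ofReal_sum, htel k hk.2]
      push_cast
      ring
    rw [Finset.sum_congr rfl h2, Finset.sum_sub_distrib, ← Finset.mul_sum]
    congr 1
    rw [Finset.sum_comm' (t' := Ico (j + 1) K) (s' := fun i => Ioc j i)]
    · refine sum_congr rfl fun i _ => ?_
      rw [Finset.mul_sum]
    · intro k i
      simp only [mem_Ico, mem_Ioc]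
      omega
  rw [h1]
  refine (norm_sub_le _ _).trans ?_
  have e1 : ‖((Real.log K : ℝ) : ℂ) * ∑ k ∈ Ioc j K, ex (k * β)‖ ≤ Real.log K * mn B β := by
    rw [norm_mul, Complex.norm_real, Real.norm_eq_abs, abs_of_nonneg hlK]
    exact mul_le_mul_of_nonneg_left (win_geom j K h β) hlK
  have e2 : ‖∑ i ∈ Ico (j + 1) K, ((Real.log (i + 1) - Real.log i : ℝ) : ℂ) *
      ∑ k ∈ Ioc j i, ex (k * β)‖ ≤ Real.log K * mn B β := by
    calc _ ≤ ∑ i ∈ Ico (j + 1) K, (Real.log (i + 1) - Real.log i) * mn B β := by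
          refine (norm_sum_le _ _).trans (sum_le_sum fun i hi => ?_)
          rw [mem_Ico] at hi
          rw [norm_mul, Complex.norm_real, Real.norm_eq_abs]
          have hi0 : (0 : ℝ) < i := by exact_mod_cast (by omega : 0 < i)
          have h3 : Real.log i ≤ Real.log (i + 1) := Real.log_le_log hi0 (by linarith)
          rw [abs_of_nonneg (by linarith)]
          refine mul_le_mul_of_nonneg_left (win_geom j i (le_trans ?_ h) β) (by linarith)
          exact_mod_cast (by omega : i - j ≤ K - j)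
      _ = (Real.log K - Real.log ((j + 1 : ℕ) : ℝ)) * mn B β := by
          rw [← Finset.sum_mul, htel (j + 1) (by omega)]
      _ ≤ Real.log K * mn B β := by
          have := Real.log_natCast_nonneg (j + 1)
          exact mul_le_mul_of_nonneg_right (by linarith) hmn
  linarith

/-- the `k` with `m k` in the window -/
theorem win_filter (N H m : ℕ) (hm : 1 ≤ m) :
    (Icc 1 ((N + H) / m)).filter (fun k => N < m * k) = Ioc (N / m) ((N + H) / m) := by
  ext k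
  rw [mem_filter, mem_Icc, mem_Ioc]
  have h1 : N / m < k ↔ N < m * k := by
    rw [Nat.div_lt_iff_lt_mul (by omega), mul_comm]
  constructor
  · rintro ⟨⟨_, h2⟩, h3⟩
    exact ⟨h1.2 h3, h2⟩
  · rintro ⟨h2, h3⟩
    exact ⟨⟨Nat.one_le_iff_ne_zero.2 (Nat.ne_of_gt (lt_of_le_of_lt (Nat.zero_le _) h2)), h3⟩,
      h1.1 h2⟩

theorem win_len (N H m : ℕ) (hm : 1 ≤ m) (hmH : m ≤ H) :
    ((((N + H) / m - N / m : ℕ)) : ℝ) ≤ ((2 * H : ℕ) : ℝ) / m := by
  have hm0 : (0 : ℝ) < m := by exact_mod_cast hm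
  have h1 : (N + H) / m ≤ N / m + H / m + 1 := by
    rw [Nat.add_div (by omega)]
    generalize N / m = x
    generalize H / m = y
    split_ifs <;> omega
  have h2 : (((N + H) / m - N / m : ℕ) : ℝ) ≤ ((H / m + 1 : ℕ) : ℝ) := by
    have h3 : (N + H) / m - N / m ≤ H / m + 1 := by
      revert h1
      generalize N / m = x
      generalize H / m = y
      generalize (N + H) / m = z
      intro h1
      omega
    exact_mod_cast h3
  refine h2.trans ?_
  push_cast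
  have h3 : ((H / m : ℕ) : ℝ) ≤ (H : ℝ) / m := Nat.cast_div_le
  have h4 : (1 : ℝ) ≤ (H : ℝ) / m := by
    rw [le_div_iff₀ hm0, one_mul]
    exact_mod_cast hmH
  have h5 : 2 * (H : ℝ) / m = (H : ℝ) / m + (H : ℝ) / m := by ring
  rw [h5]
  linarith

/-- the first linear part -/
theorem win_t1 {C1 : ℝ} {θ : ℝ} {q : ℕ}
    (hI : ∀ D N : ℕ, 1 ≤ D → 1 ≤ N → ∑ d ∈ Icc 1 D, mn ((N : ℝ) / d) (d * θ) ≤
      C1 * ((N : ℝ) / q + D + q) * (1 + Real.log (q * D : ℝ)))
    {N H U : ℕ} (hU : 1 ≤ U) (hUH : U ≤ H) :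
    ‖∑ m ∈ Icc 1 U, (ArithmeticFunction.moebius m : ℂ) *
      ∑ k ∈ Icc 1 ((N + H) / m), ((Real.log k : ℝ) : ℂ) * wF N θ (m * k)‖ ≤
      2 * Real.log ((N + H : ℕ) : ℝ) *
        (C1 * (((2 * H : ℕ) : ℝ) / q + U + q) * (1 + Real.log (q * U : ℝ))) := by
  have hlog : 0 ≤ Real.log ((N + H : ℕ) : ℝ) := Real.log_natCast_nonneg _
  refine (norm_sum_le _ _).trans ?_
  have h1 : ∀ m ∈ Icc 1 U, ‖(ArithmeticFunction.moebius m : ℂ) *
      ∑ k ∈ Icc 1 ((N + H) / m), ((Real.log k : ℝ) : ℂ) * wF N θ (m * k)‖ ≤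
      2 * Real.log ((N + H : ℕ) : ℝ) * mn (((2 * H : ℕ) : ℝ) / m) (m * θ) := by
    intro m hm
    rw [mem_Icc] at hm
    have e1 : ∑ k ∈ Icc 1 ((N + H) / m), ((Real.log k : ℝ) : ℂ) * wF N θ (m * k) =
        ∑ k ∈ Ioc (N / m) ((N + H) / m), ((Real.log k : ℝ) : ℂ) * ex (k * (m * θ)) := by
      rw [← win_filter N H m hm.1, Finset.sum_filter]
      refine sum_congr rfl fun k _ => ?_
      unfold wF
      split_ifs with h
      · congr 2
        push_cast
        ring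
      · rw [mul_zero]
    rw [norm_mul, e1]
    have h2 := win_log_geom (N / m) ((N + H) / m) (win_len N H m hm.1 (hm.2.trans hUH))
      ((m : ℝ) * θ)
    have hmn : 0 ≤ mn (((2 * H : ℕ) : ℝ) / m) (m * θ) := mn_nonneg (by positivity) _
    have h4 : Real.log (((N + H) / m : ℕ) : ℝ) ≤ Real.log ((N + H : ℕ) : ℝ) := by
      rcases Nat.eq_zero_or_pos ((N + H) / m) with h0 | h0
      · rw [h0]
        simp only [Nat.cast_zero, Real.log_zero]
        exact hlog
      · exact Real.log_le_log (by exact_mod_cast h0)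
          (by exact_mod_cast Nat.div_le_self (N + H) m)
    calc _ ≤ 1 * (2 * Real.log (((N + H) / m : ℕ) : ℝ) * mn (((2 * H : ℕ) : ℝ) / m) (m * θ)) :=
          mul_le_mul (v3_mu m) h2 (norm_nonneg _) (by norm_num)
      _ ≤ 2 * Real.log ((N + H : ℕ) : ℝ) * mn (((2 * H : ℕ) : ℝ) / m) (m * θ) := by
          rw [one_mul]
          exact mul_le_mul_of_nonneg_right (by linarith) hmn
  refine (sum_le_sum h1).trans ?_
  rw [← Finset.mul_sum]
  exact mul_le_mul_of_nonneg_left (hI U (2 * H) hU (by omega)) (by linarith)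

/-- the second linear part -/
theorem win_t2 {C1 : ℝ} {θ : ℝ} {q : ℕ}
    (hI : ∀ D N : ℕ, 1 ≤ D → 1 ≤ N → ∑ d ∈ Icc 1 D, mn ((N : ℝ) / d) (d * θ) ≤
      C1 * ((N : ℝ) / q + D + q) * (1 + Real.log (q * D : ℝ)))
    {N H U : ℕ} (hU : 1 ≤ U) (hUH : U * U ≤ H) :
    ‖∑ m ∈ Icc 1 U, ∑ l ∈ Icc 1 U, (ArithmeticFunction.moebius m : ℂ) *
      ((ArithmeticFunction.vonMangoldt l : ℝ) : ℂ) *
      ∑ k ∈ Icc 1 ((N + H) / (m * l)), wF N θ (m * l * k)‖ ≤
      Real.log ((U * U : ℕ) : ℝ) *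
        (C1 * (((2 * H : ℕ) : ℝ) / q + ((U * U : ℕ) : ℝ) + q) *
          (1 + Real.log (q * ((U * U : ℕ) : ℝ) : ℝ))) := by
  refine (norm_sum_le _ _).trans ?_
  have h1 : ∀ m ∈ Icc 1 U, ‖∑ l ∈ Icc 1 U, (ArithmeticFunction.moebius m : ℂ) *
      ((ArithmeticFunction.vonMangoldt l : ℝ) : ℂ) *
      ∑ k ∈ Icc 1 ((N + H) / (m * l)), wF N θ (m * l * k)‖ ≤
      ∑ l ∈ Icc 1 U, ArithmeticFunction.vonMangoldt l *
        mn (((2 * H : ℕ) : ℝ) / ((m * l : ℕ) : ℝ)) (((m * l : ℕ) : ℝ) * θ) := by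
    intro m hm
    rw [mem_Icc] at hm
    refine (norm_sum_le _ _).trans (sum_le_sum fun l hl => ?_)
    rw [mem_Icc] at hl
    have hml : 1 ≤ m * l := Nat.mul_pos hm.1 hl.1
    have hmlH : m * l ≤ H := (Nat.mul_le_mul hm.2 hl.2).trans hUH
    have e1 : ∑ k ∈ Icc 1 ((N + H) / (m * l)), wF N θ (m * l * k) =
        ∑ k ∈ Ioc (N / (m * l)) ((N + H) / (m * l)), ex (k * (((m * l : ℕ) : ℝ) * θ)) := by
      rw [← win_filter N H (m * l) hml, Finset.sum_filter]
      refine sum_congr rfl fun k _ => ?_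
      unfold wF
      split_ifs with h
      · congr 1
        push_cast
        ring
      · rfl
    have h3 := win_geom (N / (m * l)) ((N + H) / (m * l)) (win_len N H (m * l) hml hmlH)
      (((m * l : ℕ) : ℝ) * θ)
    rw [e1, norm_mul, norm_mul]
    have h4 : ‖((ArithmeticFunction.vonMangoldt l : ℝ) : ℂ)‖ =
        ArithmeticFunction.vonMangoldt l := by
      rw [Complex.norm_real, Real.norm_eq_abs, abs_of_nonneg ArithmeticFunction.vonMangoldt_nonneg]
    rw [h4]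
    have h5 : (0 : ℝ) ≤ ArithmeticFunction.vonMangoldt l :=
      ArithmeticFunction.vonMangoldt_nonneg
    calc _ ≤ 1 * ArithmeticFunction.vonMangoldt l *
          mn (((2 * H : ℕ) : ℝ) / ((m * l : ℕ) : ℝ)) (((m * l : ℕ) : ℝ) * θ) :=
          mul_le_mul (mul_le_mul_of_nonneg_right (v3_mu m) h5) h3 (norm_nonneg _) (by positivity)
      _ = _ := by rw [one_mul]
  refine (sum_le_sum h1).trans ?_
  have h2 := v3_group U (fun t => mn (((2 * H : ℕ) : ℝ) / (t : ℝ)) ((t : ℝ) * θ))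
    (fun t => mn_nonneg (by positivity) _)
  refine h2.trans ?_
  have h3 : ∑ t ∈ Icc 1 (U * U), Real.log t * mn (((2 * H : ℕ) : ℝ) / (t : ℝ)) ((t : ℝ) * θ) ≤
      ∑ t ∈ Icc 1 (U * U), Real.log ((U * U : ℕ) : ℝ) *
        mn (((2 * H : ℕ) : ℝ) / (t : ℝ)) ((t : ℝ) * θ) := by
    refine sum_le_sum fun t ht => ?_
    rw [mem_Icc] at ht
    refine mul_le_mul_of_nonneg_right ?_ (mn_nonneg (by positivity) _)
    exact Real.log_le_log (by exact_mod_cast ht.1) (by exact_mod_cast ht.2)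
  refine h3.trans ?_
  rw [← Finset.mul_sum]
  have hUU : 1 ≤ U * U := Nat.mul_pos hU hU
  exact mul_le_mul_of_nonneg_left (hI (U * U) (2 * H) hUU (by omega))
    (Real.log_natCast_nonneg _)

end Pool.Agent.CSH
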